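import Pool.Agent.Helper92.FA.Def

open Metric Set Filter Topology

set_option maxSynthPendingDepth 3

namespace Pool.Agent.Helper92.FA

variable {E : Type} [NormedAddCommGroup E] [NormedSpace ℝ E] [FiniteDimensional ℝ E]
  {N : Type} [MetricSpace N] {P : Set (N → N)} {x : N}

/-- `w` is a local isometry of the chart, defined on the ball of radius `ρ₂` around the centre. -/
structure Chart.IsLoc {E : Type} [NormedAddCommGroup E] [NormedSpace ℝ E] {N : Type}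
    [MetricSpace N] {P : Set (N → N)} {x : N} (c : Chart E P x) (ρ₂ : ℝ) (w : E → E) : Prop where
  smooth : ∀ z ∈ ball (c.φ x) ρ₂, ContDiffAt ℝ 2 w z
  maps : ∀ z ∈ ball (c.φ x) ρ₂, w z ∈ ball (c.φ x) c.ρ
  isom : ∀ z ∈ ball (c.φ x) ρ₂, ∀ v v',
    c.G (w z) (fderiv ℝ w z v) (fderiv ℝ w z v') = c.G z v v'

omit [FiniteDimensional ℝ E] in
theorem an1_G_le (c : Chart E P x) {z : E} (hz : z ∈ ball (c.φ x) c.ρ) (v : E) :
    c.G z v v ≤ c.L * ‖v‖ ^ 2 := by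
  have h1 : ‖c.G z v v‖ ≤ ‖c.G z‖ * ‖v‖ * ‖v‖ := (c.G z).le_opNorm₂ v v
  have h2 := c.bd z hz
  have h3 := Real.le_norm_self (c.G z v v)
  calc c.G z v v ≤ ‖c.G z‖ * ‖v‖ * ‖v‖ := h3.trans h1
    _ ≤ c.L * ‖v‖ * ‖v‖ := by gcongr
    _ = c.L * ‖v‖ ^ 2 := by ring

theorem an1_sq {a b lam L : ℝ} (hlam : 0 < lam) (hL : 0 < L) (_ha : 0 ≤ a) (hb : 0 ≤ b)
    (h : lam * a ^ 2 ≤ L * b ^ 2) : a ≤ max 1 (√(L / lam)) * b := by
  have h1 : a ^ 2 ≤ (√(L / lam) * b) ^ 2 := by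
    rw [mul_pow, Real.sq_sqrt (by positivity), div_mul_eq_mul_div, le_div_iff₀ hlam]
    linarith
  have h2 : a ≤ √(L / lam) * b := abs_le_of_sq_le_sq' h1 (by positivity) |>.2
  exact h2.trans (mul_le_mul_of_nonneg_right (le_max_right _ _) hb)

omit [FiniteDimensional ℝ E] in
theorem an1_up (c : Chart E P x) {ρ₂ : ℝ} (hρ : ρ₂ ≤ c.ρ) {w : E → E} (hw : c.IsLoc ρ₂ w) {z : E}
    (hz : z ∈ ball (c.φ x) ρ₂) (v : E) :
    ‖fderiv ℝ w z v‖ ≤ max 1 (√(c.L / c.lam)) * ‖v‖ := by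
  apply an1_sq c.lam_pos c.L_pos (norm_nonneg _) (norm_nonneg _)
  calc c.lam * ‖fderiv ℝ w z v‖ ^ 2 ≤ c.G (w z) (fderiv ℝ w z v) (fderiv ℝ w z v) :=
        c.coer _ (hw.maps z hz) _
    _ = c.G z v v := hw.isom z hz v v
    _ ≤ c.L * ‖v‖ ^ 2 := an1_G_le c (ball_subset_ball hρ hz) v

omit [FiniteDimensional ℝ E] in
theorem an1_low (c : Chart E P x) {ρ₂ : ℝ} (hρ : ρ₂ ≤ c.ρ) {w : E → E} (hw : c.IsLoc ρ₂ w) {z : E}
    (hz : z ∈ ball (c.φ x) ρ₂) (v : E) :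
    ‖v‖ ≤ max 1 (√(c.L / c.lam)) * ‖fderiv ℝ w z v‖ := by
  apply an1_sq c.lam_pos c.L_pos (norm_nonneg _) (norm_nonneg _)
  calc c.lam * ‖v‖ ^ 2 ≤ c.G z v v := c.coer _ (ball_subset_ball hρ hz) _
    _ = c.G (w z) (fderiv ℝ w z v) (fderiv ℝ w z v) := (hw.isom z hz v v).symm
    _ ≤ c.L * ‖fderiv ℝ w z v‖ ^ 2 := an1_G_le c (hw.maps z hz) _

/-- AN1a. A local isometry has bounded derivative. -/
theorem Chart.first (c : Chart E P x) : ∃ C : ℝ, 1 ≤ C ∧ ∀ ρ₂ : ℝ, ρ₂ ≤ c.ρ → ∀ w : E → E,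
    c.IsLoc ρ₂ w → ∀ z ∈ ball (c.φ x) ρ₂, ‖fderiv ℝ w z‖ ≤ C := by
  refine ⟨max 1 (√(c.L / c.lam)), le_max_left _ _, fun ρ₂ hρ w hw z hz => ?_⟩
  exact ContinuousLinearMap.opNorm_le_bound _ (le_max_of_le_left zero_le_one)
    fun v => an1_up c hρ hw hz v

omit [FiniteDimensional ℝ E] in
/-- the differentiated isometry identity -/
theorem an1_diff (c : Chart E P x) {ρ₂ : ℝ} (hρ : ρ₂ ≤ c.ρ) {w : E → E} (hw : c.IsLoc ρ₂ w) {z : E}
    (hz : z ∈ ball (c.φ x) ρ₂) (u v v' : E) :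
    c.G (w z) (fderiv ℝ (fderiv ℝ w) z u v) (fderiv ℝ w z v') +
      c.G (w z) (fderiv ℝ (fderiv ℝ w) z u v') (fderiv ℝ w z v) =
    c.G' z u v v' - c.G' (w z) (fderiv ℝ w z u) (fderiv ℝ w z v) (fderiv ℝ w z v') := by
  have hw2 := hw.smooth z hz
  have hA : HasFDerivAt w (fderiv ℝ w z) z :=
    (hw2.differentiableAt (by norm_num)).hasFDerivAt
  have hT : HasFDerivAt (fderiv ℝ w) (fderiv ℝ (fderiv ℝ w) z) z :=
    ((hw2.fderiv_right (m := 1) (by norm_num)).differentiableAt (by norm_num)).hasFDerivAt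
  have hG : HasFDerivAt (fun y => c.G (w y)) ((c.G' (w z)).comp (fderiv ℝ w z)) z :=
    (c.der (w z) (hw.maps z hz)).comp z hA
  have hTv : ∀ v, HasFDerivAt (fun y => fderiv ℝ w y v)
      ((ContinuousLinearMap.apply ℝ E v).comp (fderiv ℝ (fderiv ℝ w) z)) z := by
    intro v
    exact (ContinuousLinearMap.apply ℝ E v).hasFDerivAt.comp z hT
  have h1 := hG.clm_apply (hTv v)
  have h2 := h1.clm_apply (hTv v')
  have hz' : z ∈ ball (c.φ x) c.ρ := ball_subset_ball hρ hz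
  have hR : HasFDerivAt (fun y => c.G y v v') ((ContinuousLinearMap.apply ℝ ℝ v').comp
      ((ContinuousLinearMap.apply ℝ (E →L[ℝ] ℝ) v).comp (c.G' z))) z := by
    exact (ContinuousLinearMap.apply ℝ ℝ v').hasFDerivAt.comp z
      ((ContinuousLinearMap.apply ℝ (E →L[ℝ] ℝ) v).hasFDerivAt.comp z (c.der z hz'))
  have heq : (fun y => c.G (w y) (fderiv ℝ w y v) (fderiv ℝ w y v')) =ᶠ[𝓝 z]
      fun y => c.G y v v' := by
    filter_upwards [isOpen_ball.mem_nhds hz] with y hy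
    exact hw.isom y hy v v'
  have h3 := h2.unique (hR.congr_of_eventuallyEq heq)
  have h4 := congrArg (fun f : E →L[ℝ] ℝ => f u) h3
  have h5 := c.symm (w z) (hw.maps z hz) (fderiv ℝ w z v) (fderiv ℝ (fderiv ℝ w) z u v')
  simp at h4
  linarith

/-- bound for a trilinear expression -/
theorem an1_tri {B : E →L[ℝ] E →L[ℝ] E →L[ℝ] ℝ} {b a1 a2 a3 : ℝ} {p q r : E} (hB : ‖B‖ ≤ b)
    (h1 : ‖p‖ ≤ a1) (h2 : ‖q‖ ≤ a2) (h3 : ‖r‖ ≤ a3) : |B p q r| ≤ b * a1 * a2 * a3 := by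
  have hb : 0 ≤ b := (norm_nonneg _).trans hB
  have ha1 : 0 ≤ a1 := (norm_nonneg _).trans h1
  have ha2 : 0 ≤ a2 := (norm_nonneg _).trans h2
  calc |B p q r| = ‖B p q r‖ := (Real.norm_eq_abs _).symm
    _ ≤ ‖B p‖ * ‖q‖ * ‖r‖ := (B p).le_opNorm₂ q r
    _ ≤ (‖B‖ * ‖p‖) * ‖q‖ * ‖r‖ := by gcongr; exact B.le_opNorm p
    _ ≤ b * a1 * a2 * a3 := by gcongr

/-- AN1b. The second derivative of a local isometry is bounded by the `C^1` distance to the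
identity at the same point (Koszul's formula). -/
theorem Chart.second (c : Chart E P x) : ∃ C : ℝ, 1 ≤ C ∧ ∀ ρ₂ : ℝ, ρ₂ ≤ c.ρ → ∀ w : E → E,
    c.IsLoc ρ₂ w → ∀ z ∈ ball (c.φ x) ρ₂, ‖fderiv ℝ (fderiv ℝ w) z‖ ≤
      C * (‖w z - z‖ + ‖fderiv ℝ w z - ContinuousLinearMap.id ℝ E‖) := by
  obtain ⟨C1, hC1⟩ : ∃ C1, C1 = max 1 (√(c.L / c.lam)) := ⟨_, rfl⟩
  have hC1one : 1 ≤ C1 := hC1 ▸ le_max_left _ _
  have hC10 : 0 ≤ C1 := zero_le_one.trans hC1one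
  have hL := c.L_pos
  have hlam := c.lam_pos
  obtain ⟨K, hK⟩ : ∃ K, K = c.L * (2 + C1 + C1 ^ 2) := ⟨_, rfl⟩
  have hK0 : 0 ≤ K := by rw [hK]; positivity
  refine ⟨max 1 (3 * K * C1 / (2 * c.lam)), le_max_left _ _, fun ρ₂ hρ w hw z hz => ?_⟩
  obtain ⟨A, hA⟩ : ∃ A, A = fderiv ℝ w z := ⟨_, rfl⟩
  obtain ⟨T, hT⟩ : ∃ T, T = fderiv ℝ (fderiv ℝ w) z := ⟨_, rfl⟩
  obtain ⟨D, hD⟩ : ∃ D, D = ‖w z - z‖ + ‖A - ContinuousLinearMap.id ℝ E‖ := ⟨_, rfl⟩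
  have hD0 : 0 ≤ D := by rw [hD]; positivity
  have hup : ∀ v, ‖A v‖ ≤ C1 * ‖v‖ := fun v => by
    rw [hA, hC1]; exact an1_up c hρ hw hz v
  have hlow : ∀ v, ‖v‖ ≤ C1 * ‖A v‖ := fun v => by
    rw [hA, hC1]; exact an1_low c hρ hw hz v
  have hdiff : ∀ u v v', c.G (w z) (T u v) (A v') + c.G (w z) (T u v') (A v) =
      c.G' z u v v' - c.G' (w z) (A u) (A v) (A v') := fun u v v' => by
    rw [hA, hT]; exact an1_diff c hρ hw hz u v v'
  have hsym : ∀ u v, T u v = T v u := fun u v => by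
    rw [hT]
    have := (hw.smooth z hz).isSymmSndFDerivAt (by simp [minSmoothness_of_isRCLikeNormedField])
    exact this.eq u v
  have hz' : z ∈ ball (c.φ x) c.ρ := ball_subset_ball hρ hz
  have hwz := hw.maps z hz
  -- bound of the defect
  have hAd : ∀ v, ‖v - A v‖ ≤ ‖A - ContinuousLinearMap.id ℝ E‖ * ‖v‖ := by
    intro v
    have h := (A - ContinuousLinearMap.id ℝ E).le_opNorm v
    have e : ‖(A - ContinuousLinearMap.id ℝ E) v‖ = ‖v - A v‖ := by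
      rw [ContinuousLinearMap.sub_apply, ContinuousLinearMap.id_apply, norm_sub_rev]
    rwa [e] at h
  have hH : ∀ u v v', |c.G' z u v v' - c.G' (w z) (A u) (A v) (A v')| ≤
      K * D * ‖u‖ * ‖v‖ * ‖v'‖ := by
    intro u v v'
    obtain ⟨δ, hδ⟩ : ∃ δ, δ = ‖A - ContinuousLinearMap.id ℝ E‖ := ⟨_, rfl⟩
    have hδ0 : 0 ≤ δ := by rw [hδ]; positivity
    have e : c.G' z u v v' - c.G' (w z) (A u) (A v) (A v') =
        (c.G' z - c.G' (w z)) u v v' + c.G' (w z) (u - A u) v v' +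
          c.G' (w z) (A u) (v - A v) v' + c.G' (w z) (A u) (A v) (v' - A v') := by
      simp only [map_sub, ContinuousLinearMap.sub_apply]
      ring
    have hb' := c.bd' _ hwz
    have t1 := an1_tri (B := c.G' z - c.G' (w z)) (p := u) (q := v) (r := v')
      ((c.lip' z hz' (w z) hwz).trans_eq (by rw [norm_sub_rev])) le_rfl le_rfl le_rfl
    have t2 := an1_tri (B := c.G' (w z)) (q := v) (r := v') hb' (hAd u) le_rfl le_rfl
    have t3 := an1_tri (B := c.G' (w z)) (r := v') hb' (hup u) (hAd v) le_rfl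
    have t4 := an1_tri (B := c.G' (w z)) hb' (hup u) (hup v) (hAd v')
    rw [← hδ] at t2 t3 t4
    have hn : 0 ≤ ‖u‖ * ‖v‖ * ‖v'‖ := by positivity
    have hDδ : D = ‖w z - z‖ + δ := by rw [hD, hδ]
    rw [e]
    calc _ ≤ |(c.G' z - c.G' (w z)) u v v'| + |c.G' (w z) (u - A u) v v'| +
          |c.G' (w z) (A u) (v - A v) v'| + |c.G' (w z) (A u) (A v) (v' - A v')| := by
            refine (abs_add_le _ _).trans (add_le_add_left ((abs_add_le _ _).trans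
              (add_le_add_left (abs_add_le _ _) _)) _)
      _ ≤ c.L * ‖w z - z‖ * ‖u‖ * ‖v‖ * ‖v'‖ + c.L * (δ * ‖u‖) * ‖v‖ * ‖v'‖ +
          c.L * (C1 * ‖u‖) * (δ * ‖v‖) * ‖v'‖ + c.L * (C1 * ‖u‖) * (C1 * ‖v‖) * (δ * ‖v'‖) := by
            gcongr
      _ ≤ K * D * ‖u‖ * ‖v‖ * ‖v'‖ := by
            rw [hK, hDδ]
            have : c.L * (2 + C1 + C1 ^ 2) * (‖w z - z‖ + δ) * ‖u‖ * ‖v‖ * ‖v'‖ -
                (c.L * ‖w z - z‖ * ‖u‖ * ‖v‖ * ‖v'‖ + c.L * (δ * ‖u‖) * ‖v‖ * ‖v'‖ +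
                  c.L * (C1 * ‖u‖) * (δ * ‖v‖) * ‖v'‖ +
                  c.L * (C1 * ‖u‖) * (C1 * ‖v‖) * (δ * ‖v'‖)) =
                c.L * (‖u‖ * ‖v‖ * ‖v'‖) * ((1 + C1 + C1 ^ 2) * ‖w z - z‖ + δ) := by ring
            have h0 : 0 ≤ c.L * (‖u‖ * ‖v‖ * ‖v'‖) * ((1 + C1 + C1 ^ 2) * ‖w z - z‖ + δ) := by
              positivity
            linarith
  have hkos : ∀ u v v', |c.G (w z) (T u v) (A v')| ≤ 3 / 2 * (K * D * ‖u‖ * ‖v‖ * ‖v'‖) := by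
    intro u v v'
    have e1 := hdiff u v v'
    have e2 := hdiff v u v'
    have e3 := hdiff v' u v
    have b1 := abs_le.1 (hH u v v')
    have b2 := abs_le.1 (hH v u v')
    have b3 := abs_le.1 (hH v' u v)
    rw [hsym v u] at e2
    rw [hsym v' u, hsym v' v] at e3
    have r2 : K * D * ‖v‖ * ‖u‖ * ‖v'‖ = K * D * ‖u‖ * ‖v‖ * ‖v'‖ := by ring
    have r3 : K * D * ‖v'‖ * ‖u‖ * ‖v‖ = K * D * ‖u‖ * ‖v‖ * ‖v'‖ := by ring
    rw [r2] at b2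
    rw [r3] at b3
    rw [abs_le]
    constructor <;> linarith [b1.1, b1.2, b2.1, b2.2, b3.1, b3.2]
  have hsurj : Function.Surjective A := by
    have hinj : Function.Injective (A : E →ₗ[ℝ] E) := by
      rw [injective_iff_map_eq_zero]
      intro v hv
      have h := hlow v
      have hv' : A v = 0 := hv
      rw [hv', norm_zero, mul_zero] at h
      exact norm_eq_zero.1 (le_antisymm h (norm_nonneg _))
    exact LinearMap.injective_iff_surjective.1 hinj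
  have hTuv : ∀ u v, ‖T u v‖ ≤ 3 * K * C1 / (2 * c.lam) * D * ‖u‖ * ‖v‖ := by
    intro u v
    obtain ⟨v', hv'⟩ := hsurj (T u v)
    have h1 := c.coer _ hwz (T u v)
    have h2 := hkos u v v'
    rw [hv'] at h2
    have h3 := hlow v'
    rw [hv'] at h3
    obtain ⟨y, hy⟩ : ∃ y, y = ‖T u v‖ := ⟨_, rfl⟩
    rw [← hy] at h1 h3 ⊢
    have hy0 : 0 ≤ y := by rw [hy]; positivity
    have h4 : c.lam * y ^ 2 ≤ 3 / 2 * (K * D * ‖u‖ * ‖v‖ * (C1 * y)) := by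
      refine h1.trans ((le_abs_self _).trans (h2.trans ?_))
      gcongr
    rcases hy0.eq_or_lt with h0 | h0
    · rw [← h0]; positivity
    · have h5 : c.lam * y ≤ 3 / 2 * (K * D * ‖u‖ * ‖v‖ * C1) := by
        refine le_of_mul_le_mul_right ?_ h0
        nlinarith
      have h6 : 3 * K * C1 / (2 * c.lam) * D * ‖u‖ * ‖v‖ =
          3 / 2 * (K * D * ‖u‖ * ‖v‖ * C1) / c.lam := by
        field_simp
      rw [h6, le_div_iff₀ hlam]
      linarith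
  rw [← hT, ← hA, ← hD]
  have h7 : ‖T‖ ≤ 3 * K * C1 / (2 * c.lam) * D := by
    refine T.opNorm_le_bound₂ (by positivity) fun u v => ?_
    exact hTuv u v
  exact h7.trans (mul_le_mul_of_nonneg_right (le_max_right _ _) hD0)

end Pool.Agent.Helper92.FA
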