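import Pool.Agent.Helper92.FA.An1

open Metric Set Filter Topology

set_option maxSynthPendingDepth 3

namespace Pool.Agent.Helper92.FA

variable {E : Type} [NormedAddCommGroup E] [NormedSpace ℝ E] [FiniteDimensional ℝ E]
  {N : Type} [MetricSpace N] {P : Set (N → N)} {x : N}

/-- AN2. The `C^1` distance to the identity of a local isometry at one point controls the `C^1`
distance at every other point (Gronwall along segments). -/
theorem Chart.propagate (c : Chart E P x) : ∃ C : ℝ, 1 ≤ C ∧ ∀ ρ₂ : ℝ, ρ₂ ≤ c.ρ →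
    ∀ w : E → E, c.IsLoc ρ₂ w → ∀ p ∈ ball (c.φ x) ρ₂, ∀ z ∈ ball (c.φ x) ρ₂,
      ‖w z - z‖ + ‖fderiv ℝ w z - ContinuousLinearMap.id ℝ E‖ ≤
        C * (‖w p - p‖ + ‖fderiv ℝ w p - ContinuousLinearMap.id ℝ E‖) := by
  obtain ⟨C2, hC2, h2⟩ := c.second
  have hρ := c.ρ_pos
  have hK : 0 ≤ 4 * C2 * c.ρ := by positivity
  refine ⟨2 * Real.exp (4 * C2 * c.ρ), ?_, ?_⟩
  · have := Real.one_le_exp hK
    linarith
  intro ρ₂ hρ₂ w hw p hp z hz
  set g : ℝ → E := fun t => p + t • (z - p) with hg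
  have hgmem : ∀ t ∈ Icc (0:ℝ) 1, g t ∈ ball (c.φ x) ρ₂ := by
    intro t ht
    exact (convex_ball _ _).add_smul_sub_mem hp hz ht
  set f : ℝ → E × (E →L[ℝ] E) := fun t =>
    (w (g t) - g t, fderiv ℝ w (g t) - ContinuousLinearMap.id ℝ E) with hf
  set f' : ℝ → E × (E →L[ℝ] E) := fun t =>
    (fderiv ℝ w (g t) (z - p) - (z - p), fderiv ℝ (fderiv ℝ w) (g t) (z - p)) with hf'
  have hgd : ∀ t, HasDerivAt g (z - p) t := by
    intro t
    have h := ((hasDerivAt_id t).smul_const (z - p)).const_add p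
    rw [one_smul] at h
    exact h
  have hfd : ∀ t ∈ Icc (0:ℝ) 1, HasDerivAt f (f' t) t := by
    intro t ht
    have hs := hw.smooth _ (hgmem t ht)
    have hwd : HasFDerivAt w (fderiv ℝ w (g t)) (g t) :=
      (hs.differentiableAt (by norm_num)).hasFDerivAt
    have hwdd : HasFDerivAt (fderiv ℝ w) (fderiv ℝ (fderiv ℝ w) (g t)) (g t) :=
      ((hs.fderiv_right (m := 1) (by norm_num)).differentiableAt (by norm_num)).hasFDerivAt
    have h1 : HasDerivAt (fun t => w (g t)) (fderiv ℝ w (g t) (z - p)) t :=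
      hwd.comp_hasDerivAt t (hgd t)
    have h2 : HasDerivAt (fun t => fderiv ℝ w (g t)) (fderiv ℝ (fderiv ℝ w) (g t) (z - p)) t :=
      hwdd.comp_hasDerivAt t (hgd t)
    exact (h1.sub (hgd t)).prodMk (h2.sub_const _)
  have hzp : ‖z - p‖ ≤ 2 * c.ρ := by
    have h1 : ‖z - p‖ ≤ dist z (c.φ x) + dist p (c.φ x) := by
      rw [← dist_eq_norm]; exact dist_triangle_right _ _ _
    have h3 := mem_ball.1 hz
    have h4 := mem_ball.1 hp
    linarith
  have key := norm_le_gronwallBound_of_norm_deriv_right_le (f := f) (f' := f')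
    (δ := ‖f 0‖) (K := 4 * C2 * c.ρ) (ε := 0) (a := 0) (b := 1)
    (fun t ht => (hfd t ht).continuousAt.continuousWithinAt)
    (fun t ht => (hfd t ⟨ht.1, ht.2.le⟩).hasDerivWithinAt) le_rfl
    (by
      intro t ht
      have ht' : t ∈ Icc (0:ℝ) 1 := ⟨ht.1, ht.2.le⟩
      have he : ‖w (g t) - g t‖ ≤ ‖f t‖ := norm_fst_le (f t)
      have hde : ‖fderiv ℝ w (g t) - ContinuousLinearMap.id ℝ E‖ ≤ ‖f t‖ := norm_snd_le (f t)
      have hft : 0 ≤ ‖f t‖ := norm_nonneg _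
      rw [add_zero]
      refine norm_prod_le_iff.2 ⟨?_, ?_⟩
      · have h1 : (f' t).1 = (fderiv ℝ w (g t) - ContinuousLinearMap.id ℝ E) (z - p) := by
          simp [hf']
        rw [h1]
        calc ‖(fderiv ℝ w (g t) - ContinuousLinearMap.id ℝ E) (z - p)‖
            ≤ ‖fderiv ℝ w (g t) - ContinuousLinearMap.id ℝ E‖ * ‖z - p‖ :=
              ContinuousLinearMap.le_opNorm _ _
          _ ≤ ‖f t‖ * (2 * c.ρ) := by gcongr
          _ ≤ 4 * C2 * c.ρ * ‖f t‖ := by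
              have : 0 ≤ (4 * C2 - 2) * (c.ρ * ‖f t‖) := by
                apply mul_nonneg (by linarith) (by positivity)
              nlinarith
      · have h1 : (f' t).2 = fderiv ℝ (fderiv ℝ w) (g t) (z - p) := rfl
        rw [h1]
        calc ‖fderiv ℝ (fderiv ℝ w) (g t) (z - p)‖
            ≤ ‖fderiv ℝ (fderiv ℝ w) (g t)‖ * ‖z - p‖ := ContinuousLinearMap.le_opNorm _ _
          _ ≤ (C2 * (‖w (g t) - g t‖ + ‖fderiv ℝ w (g t) - ContinuousLinearMap.id ℝ E‖)) *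
              (2 * c.ρ) := by
              gcongr
              exact h2 ρ₂ hρ₂ w hw _ (hgmem t ht')
          _ ≤ (C2 * (‖f t‖ + ‖f t‖)) * (2 * c.ρ) := by gcongr
          _ = 4 * C2 * c.ρ * ‖f t‖ := by ring)
  have h1 := key 1 ⟨zero_le_one, le_rfl⟩
  rw [gronwallBound_ε0] at h1
  have hg0 : g 0 = p := by simp [hg]
  have hg1 : g 1 = z := by simp [hg]
  have hf0 : ‖f 0‖ ≤ ‖w p - p‖ + ‖fderiv ℝ w p - ContinuousLinearMap.id ℝ E‖ := by
    refine norm_prod_le_iff.2 ⟨?_, ?_⟩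
    · simp only [hf, hg0]
      linarith [norm_nonneg (fderiv ℝ w p - ContinuousLinearMap.id ℝ E)]
    · simp only [hf, hg0]
      linarith [norm_nonneg (w p - p)]
  have he1 : ‖w z - z‖ ≤ ‖f 1‖ := by
    have := norm_fst_le (f 1)
    simpa only [hf, hg1] using this
  have he2 : ‖fderiv ℝ w z - ContinuousLinearMap.id ℝ E‖ ≤ ‖f 1‖ := by
    have := norm_snd_le (f 1)
    simpa only [hf, hg1] using this
  have hexp : 0 < Real.exp (4 * C2 * c.ρ) := Real.exp_pos _
  have h3 : ‖f 1‖ ≤ (‖w p - p‖ + ‖fderiv ℝ w p - ContinuousLinearMap.id ℝ E‖) *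
      Real.exp (4 * C2 * c.ρ) := by
    refine h1.trans ?_
    rw [sub_zero, mul_one]
    gcongr
  nlinarith [h3, he1, he2]

end Pool.Agent.Helper92.FA
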