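import Pool.Agent.Helper92.FA.An2

open Metric Set Filter Topology

set_option maxSynthPendingDepth 3

namespace Pool.Agent.Helper92.FA

variable {E : Type} [NormedAddCommGroup E] [NormedSpace ℝ E] [FiniteDimensional ℝ E]
  {N : Type} [MetricSpace N] {P : Set (N → N)} {x : N}

/-- AN3. The `C^0` distance to the identity of a local isometry on a ball controls the `C^1`
distance at the centre (Taylor). -/
theorem Chart.interp (c : Chart E P x) : ∀ δ : ℝ, 0 < δ → ∃ C : ℝ, 1 ≤ C ∧ ∀ ρ₂ : ℝ, ρ₂ ≤ c.ρ →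
    ∀ w : E → E, c.IsLoc ρ₂ w → ∀ p : E, ball p δ ⊆ ball (c.φ x) ρ₂ → ∀ s : ℝ,
      (∀ z ∈ ball p δ, ‖w z - z‖ ≤ s) →
        ‖fderiv ℝ w p - ContinuousLinearMap.id ℝ E‖ ≤ C * s := by
  intro δ hδ
  obtain ⟨C1, hC1, h1⟩ := c.propagate
  obtain ⟨C2, hC2, h2⟩ := c.second
  have hK : 0 < C2 * C1 := by positivity
  set K : ℝ := C2 * C1 with hKdef
  have ht : 0 < min (δ / 2) (1 / (2 * K)) := by
    apply lt_min <;> positivity
  set t : ℝ := min (δ / 2) (1 / (2 * K)) with htdef
  have htδ : t < δ := lt_of_le_of_lt (min_le_left _ _) (by linarith)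
  have htK : K * t ≤ 1 / 2 := by
    have h : t ≤ 1 / (2 * K) := min_le_right _ _
    calc K * t ≤ K * (1 / (2 * K)) := by gcongr
      _ = 1 / 2 := by field_simp
  refine ⟨4 / t + 1, by have : 0 < 4 / t := by positivity
                        linarith, ?_⟩
  intro ρ₂ hρ₂ w hw p hball s hs
  have hpδ : p ∈ ball p δ := mem_ball_self hδ
  have hs0 : 0 ≤ s := (norm_nonneg _).trans (hs p hpδ)
  set D : ℝ := ‖fderiv ℝ w p - ContinuousLinearMap.id ℝ E‖ with hD
  have hD0 : 0 ≤ D := norm_nonneg _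
  have hM : ∀ z ∈ ball p δ, ‖fderiv ℝ (fderiv ℝ w) z‖ ≤ K * (s + D) := by
    intro z hz
    calc ‖fderiv ℝ (fderiv ℝ w) z‖
        ≤ C2 * (‖w z - z‖ + ‖fderiv ℝ w z - ContinuousLinearMap.id ℝ E‖) :=
          h2 ρ₂ hρ₂ w hw z (hball hz)
      _ ≤ C2 * (C1 * (‖w p - p‖ + D)) := by
          gcongr
          exact h1 ρ₂ hρ₂ w hw p (hball hpδ) z (hball hz)
      _ ≤ C2 * (C1 * (s + D)) := by
          gcongr
          exact hs p hpδ
      _ = K * (s + D) := by rw [hKdef]; ring
  have hM0 : 0 ≤ K * (s + D) := by positivity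
  have hdiff1 : ∀ z ∈ ball p δ, DifferentiableAt ℝ (fderiv ℝ w) z := fun z hz =>
    ((hw.smooth z (hball hz)).fderiv_right (m := 1) (by norm_num)).differentiableAt (by norm_num)
  have hdiff0 : ∀ z ∈ ball p δ, DifferentiableAt ℝ w z := fun z hz =>
    (hw.smooth z (hball hz)).differentiableAt (by norm_num)
  have hstep1 : ∀ z ∈ ball p δ, ‖fderiv ℝ w z - fderiv ℝ w p‖ ≤ K * (s + D) * ‖z - p‖ :=
    fun z hz => (convex_ball p δ).norm_image_sub_le_of_norm_fderiv_le hdiff1 hM hpδ hz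
  have hsub : closedBall p t ⊆ ball p δ := closedBall_subset_ball htδ
  have hstep2 : ∀ z ∈ closedBall p t, ‖w z - w p - fderiv ℝ w p (z - p)‖ ≤
      K * (s + D) * t * ‖z - p‖ := by
    intro z hz
    refine (convex_closedBall p t).norm_image_sub_le_of_norm_hasFDerivWithin_le'
      (f' := fun y => fderiv ℝ w y)
      (fun y hy => (hdiff0 y (hsub hy)).hasFDerivAt.hasFDerivWithinAt) ?_
      (mem_closedBall_self ht.le) hz
    intro y hy
    have hy' : ‖y - p‖ ≤ t := by
      rw [← dist_eq_norm]; exact mem_closedBall.1 hy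
    calc ‖fderiv ℝ w y - fderiv ℝ w p‖ ≤ K * (s + D) * ‖y - p‖ := hstep1 y (hsub hy)
      _ ≤ K * (s + D) * t := by gcongr
  have hv : ∀ v : E, ‖v‖ ≤ t →
      ‖(fderiv ℝ w p - ContinuousLinearMap.id ℝ E) v‖ ≤ 2 * s + K * (s + D) * t * t := by
    intro v hv
    have hz : p + v ∈ closedBall p t := by
      rw [mem_closedBall, dist_eq_norm]
      simpa using hv
    have e1 := hstep2 _ hz
    have e2 := hs _ (hsub hz)
    have e3 := hs p hpδ
    rw [add_sub_cancel_left] at e1
    have e4 : (fderiv ℝ w p - ContinuousLinearMap.id ℝ E) v =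
        (w (p + v) - (p + v)) - (w p - p) - (w (p + v) - w p - fderiv ℝ w p v) := by
      simp only [ContinuousLinearMap.sub_apply, ContinuousLinearMap.id_apply]
      abel
    rw [e4]
    calc ‖(w (p + v) - (p + v)) - (w p - p) - (w (p + v) - w p - fderiv ℝ w p v)‖
        ≤ ‖(w (p + v) - (p + v)) - (w p - p)‖ + ‖w (p + v) - w p - fderiv ℝ w p v‖ :=
          norm_sub_le _ _
      _ ≤ (‖w (p + v) - (p + v)‖ + ‖w p - p‖) + ‖w (p + v) - w p - fderiv ℝ w p v‖ := by
          gcongr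
          exact norm_sub_le _ _
      _ ≤ (s + s) + K * (s + D) * t * ‖v‖ := by gcongr
      _ ≤ (s + s) + K * (s + D) * t * t := by gcongr
      _ = 2 * s + K * (s + D) * t * t := by ring
  have hop : D ≤ 2 * s / t + K * (s + D) * t := by
    refine ContinuousLinearMap.opNorm_le_bound _ (by positivity) ?_
    intro v
    rcases eq_or_ne v 0 with rfl | hv0
    · simp
    · have hvn : 0 < ‖v‖ := norm_pos_iff.2 hv0
      have h := hv ((t / ‖v‖) • v) (by
        rw [norm_smul, Real.norm_eq_abs, abs_of_pos (by positivity)]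
        field_simp
        exact le_rfl)
      rw [map_smul, norm_smul, Real.norm_eq_abs, abs_of_pos (by positivity : 0 < t / ‖v‖)] at h
      have h' : ‖(fderiv ℝ w p - ContinuousLinearMap.id ℝ E) v‖ =
          (t / ‖v‖ * ‖(fderiv ℝ w p - ContinuousLinearMap.id ℝ E) v‖) * (‖v‖ / t) := by
        field_simp
      rw [h']
      calc (t / ‖v‖ * ‖(fderiv ℝ w p - ContinuousLinearMap.id ℝ E) v‖) * (‖v‖ / t)
          ≤ (2 * s + K * (s + D) * t * t) * (‖v‖ / t) := by gcongr
        _ = (2 * s / t + K * (s + D) * t) * ‖v‖ := by field_simp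
  have hKt : K * (s + D) * t ≤ (s + D) / 2 := by
    have : K * (s + D) * t = (K * t) * (s + D) := by ring
    rw [this]
    nlinarith [htK, add_nonneg hs0 hD0]
  have h4 : (4 / t + 1) * s = 2 * (2 * s / t) + s := by ring
  rw [h4]
  linarith

end Pool.Agent.Helper92.FA
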