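import Pool.Agent.Helper92.FA.Def

open Metric Set Filter Topology

namespace Pool.Agent.Helper92.FA

variable {F : Type} [NormedAddCommGroup F] [InnerProductSpace ℝ F] [FiniteDimensional ℝ F]
  {N G : Type} [MetricSpace N] [Group G] [MulAction G F] [MulAction G N] {r : G → ℝ}

omit [FiniteDimensional ℝ F] in
/-- B1. The ratio is a homomorphism (this needs `dim F ≥ 1`). -/
theorem Setup.ratio [Nontrivial F] (hS : Setup F N G r) :
    r 1 = 1 ∧ (∀ γ δ, r (γ * δ) = r γ * r δ) ∧ (∀ γ, r γ⁻¹ = (r γ)⁻¹) := by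
  obtain ⟨a, b, hab⟩ := exists_pair_ne F
  have hd : 0 < dist a b := dist_pos.2 hab
  have h1 : r 1 = 1 := by
    have := hS.sim 1 a b
    rw [one_smul, one_smul] at this
    have h2 : (r 1 - 1) * dist a b = 0 := by linarith
    rcases mul_eq_zero.1 h2 with h3 | h3
    · linarith
    · exact absurd h3 hd.ne'
  have h2 : ∀ γ δ, r (γ * δ) = r γ * r δ := by
    intro γ δ
    have h3 := hS.sim (γ * δ) a b
    rw [mul_smul, mul_smul, hS.sim γ, hS.sim δ] at h3
    have h4 : (r (γ * δ) - r γ * r δ) * dist a b = 0 := by linarith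
    rcases mul_eq_zero.1 h4 with h5 | h5
    · linarith
    · exact absurd h5 hd.ne'
  refine ⟨h1, h2, fun γ => ?_⟩
  have h3 := h2 γ⁻¹ γ
  rw [inv_mul_cancel, h1] at h3
  exact eq_inv_of_mul_eq_one_left h3.symm

private theorem basic_fixed_contr (f : F → F) (c : ℝ) (hc0 : 0 ≤ c) (hc : c < 1)
    (hf : ∀ a b, dist (f a) (f b) = c * dist a b) : ∃ o : F, f o = o := by
  have hK : ContractingWith ⟨c, hc0⟩ f := by
    refine ⟨?_, LipschitzWith.of_dist_le_mul fun a b => ?_⟩
    · exact_mod_cast hc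
    · exact (hf a b).le
  have hcomp : CompleteSpace F := FiniteDimensional.complete ℝ F
  exact ⟨ContractingWith.fixedPoint f hK, hK.fixedPoint_isFixedPt⟩

/-- B2. An element of ratio `≠ 1` has a fixed point in Euclidean space. -/
theorem Setup.exists_fixed (hS : Setup F N G r) (γ : G) (h : r γ ≠ 1) : ∃ o : F, γ • o = o := by
  rcases lt_or_gt_of_ne h with h1 | h1
  · exact basic_fixed_contr (fun a => γ • a) (r γ) (hS.pos γ).le h1 (hS.sim γ)
  · obtain ⟨o, ho⟩ := basic_fixed_contr (fun a : F => γ⁻¹ • a) (r γ)⁻¹ (inv_nonneg.2 (hS.pos γ).le)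
      (inv_lt_one_of_one_lt₀ h1) (fun a b => by
        have := hS.sim γ (γ⁻¹ • a) (γ⁻¹ • b)
        rw [smul_inv_smul, smul_inv_smul] at this
        rw [this, ← mul_assoc, inv_mul_cancel₀ (hS.pos γ).ne', one_mul])
    refine ⟨o, ?_⟩
    have h2 : γ⁻¹ • o = o := ho
    rw [← h2, smul_inv_smul, h2]

/-- B3. The action on `N` is faithful. -/
theorem Setup.faithful [Nontrivial F] [Nonempty N] (hS : Setup F N G r) (hd : ∃ d, r d ≠ 1) (t : G)
    (h : ∀ x : N, t • x = x) : t = 1 := by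
  obtain ⟨hr1, hrm, hri⟩ := hS.ratio
  obtain ⟨d, hd1, hd0⟩ : ∃ d, r d < 1 ∧ 0 < r d := by
    obtain ⟨d, hd⟩ := hd
    rcases lt_or_gt_of_ne hd with h1 | h1
    · exact ⟨d, h1, hS.pos d⟩
    · exact ⟨d⁻¹, by rw [hri]; exact inv_lt_one_of_one_lt₀ h1, hS.pos _⟩
  obtain ⟨o, ho⟩ := hS.exists_fixed d hd1.ne
  obtain ⟨x₀⟩ : Nonempty N := inferInstance
  have hdn : ∀ n : ℕ, d ^ n • o = o := by
    intro n
    induction n with
    | zero => rw [pow_zero, one_smul]
    | succ n ih => rw [pow_succ, mul_smul, ho, ih]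
  have hdn' : ∀ n : ℕ, (d ^ n)⁻¹ • o = o := by
    intro n
    rw [inv_smul_eq_iff, hdn n]
  have hrn : ∀ n : ℕ, r (d ^ n) = r d ^ n := by
    intro n
    induction n with
    | zero => rw [pow_zero, pow_zero, hr1]
    | succ n ih => rw [pow_succ, hrm, ih, pow_succ]
  let T : ℕ → G := fun n => d ^ n * t * (d ^ n)⁻¹
  have hTN : ∀ n, T n • x₀ = x₀ := by
    intro n
    show (d ^ n * t * (d ^ n)⁻¹) • x₀ = x₀
    rw [mul_smul, mul_smul, h, smul_inv_smul]
  have hTo : ∀ n, dist (T n • o) o = r d ^ n * dist (t • o) o := by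
    intro n
    have h1 : T n • o = d ^ n • (t • o) := by
      show (d ^ n * t * (d ^ n)⁻¹) • o = _
      rw [mul_smul, mul_smul, hdn' n]
    have h2 := hS.sim (d ^ n) (t • o) o
    rw [hdn n, hrn n] at h2
    rw [h1, h2]
  have hprop : ProperSpace F := FiniteDimensional.proper_real F
  have hfin := hS.pd (closedBall o (dist (t • o) o) ×ˢ {x₀})
    ((isCompact_closedBall o (dist (t • o) o)).prod isCompact_singleton)
  have hmem : ∀ n, T n ∈ {γ : G | ∃ p ∈ closedBall o (dist (t • o) o) ×ˢ ({x₀} : Set N),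
      (γ • p.1, γ • p.2) ∈ closedBall o (dist (t • o) o) ×ˢ ({x₀} : Set N)} := by
    intro n
    refine ⟨(o, x₀), ⟨mem_closedBall_self dist_nonneg, rfl⟩, ?_, ?_⟩
    · show dist (T n • o) o ≤ dist (t • o) o
      rw [hTo n]
      have : r d ^ n ≤ 1 := pow_le_one₀ hd0.le hd1.le
      nlinarith [dist_nonneg (x := t • o) (y := o)]
    · exact hTN n
  obtain ⟨n, m, hnm, hTnm⟩ : ∃ n m, n < m ∧ T n = T m := by
    obtain ⟨n, -, m, -, hne, heq⟩ := Set.infinite_univ.exists_ne_map_eq_of_mapsTo (f := T)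
      (fun n _ => hmem n) hfin
    rcases lt_or_gt_of_ne hne with h1 | h1
    · exact ⟨n, m, h1, heq⟩
    · exact ⟨m, n, h1, heq.symm⟩
  have h1 : r d ^ n * dist (t • o) o = r d ^ m * dist (t • o) o := by
    rw [← hTo n, ← hTo m, hTnm]
  have h2 : r d ^ m < r d ^ n := pow_lt_pow_right_of_lt_one₀ hd0 hd1 hnm
  have h3 : dist (t • o) o = 0 := by
    have : (r d ^ n - r d ^ m) * dist (t • o) o = 0 := by linarith
    rcases mul_eq_zero.1 this with h4 | h4
    · linarith
    · exact h4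
  exact hS.free t o x₀ (dist_eq_zero.1 h3) (h x₀)

/-- B4. An element of finite order and ratio one with a fixed point in `N` is trivial. -/
theorem Setup.torsionfree (hS : Setup F N G r) (g : G) (hg : r g = 1) (x : N) (hx : g • x = x)
    (n : ℕ) (hn : 1 ≤ n) (h : g ^ n = 1) : g = 1 := by
  let e : F ≃ᵢ F := IsometryEquiv.mk (MulAction.toPerm g)
    (Isometry.of_dist_eq fun a b => by
      show dist (g • a) (g • b) = dist a b
      rw [hS.sim g, hg, one_mul])
  let A : F ≃ᵃⁱ[ℝ] F := e.toRealAffineIsometryEquiv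
  have hA : ∀ p : F, g • p = A.linear p + g • (0 : F) := by
    intro p
    have h1 : A p = g • p := by
      show e.toRealAffineIsometryEquiv p = g • p
      rw [IsometryEquiv.coeFn_toRealAffineIsometryEquiv]
      rfl
    have h0 : A 0 = g • (0 : F) := by
      show e.toRealAffineIsometryEquiv 0 = g • 0
      rw [IsometryEquiv.coeFn_toRealAffineIsometryEquiv]
      rfl
    have h2 : A (p +ᵥ (0 : F)) = A.linear p +ᵥ A 0 := A.toAffineEquiv.map_vadd 0 p
    rw [vadd_eq_add, add_zero, vadd_eq_add, h0, h1] at h2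
    exact h2
  let s : F := ∑ i ∈ Finset.range n, g ^ i • (0 : F)
  have hs : ∑ i ∈ Finset.range n, g ^ (i + 1) • (0 : F) = s := by
    have h1 := Finset.sum_range_succ (fun i => g ^ i • (0 : F)) n
    have h2 := Finset.sum_range_succ' (fun i => g ^ i • (0 : F)) n
    rw [h1] at h2
    rw [h, pow_zero] at h2
    exact (add_right_cancel h2).symm
  have hn0 : (n : ℝ) ≠ 0 := by
    have : (1 : ℝ) ≤ n := by exact_mod_cast hn
    linarith
  have hfix : g • ((n : ℝ)⁻¹ • s) = (n : ℝ)⁻¹ • s := by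
    rw [hA, map_smul, map_sum]
    have h1 : g • (0 : F) = (n : ℝ)⁻¹ • ∑ i ∈ Finset.range n, g • (0 : F) := by
      rw [Finset.sum_const, Finset.card_range, ← Nat.cast_smul_eq_nsmul ℝ, smul_smul,
        inv_mul_cancel₀ hn0, one_smul]
    conv_lhs => rw [h1]
    rw [← smul_add, ← Finset.sum_add_distrib]
    congr 1
    rw [← hs]
    apply Finset.sum_congr rfl
    intro i _
    rw [pow_succ', mul_smul, hA (g ^ i • 0)]
  exact hS.free g _ x hfix hx

end Pool.Agent.Helper92.FA
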