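import Pool.Agent.Helper92.FA.Def

open Metric Set Filter Topology

namespace Pool.Agent.Helper92.FA

variable {F : Type} [NormedAddCommGroup F] [InnerProductSpace ℝ F] [FiniteDimensional ℝ F]
  {N H : Type} [MetricSpace N] [Group H] [MulAction H F] [MulAction H N]

/-- DISC. Discreteness at a point. -/
theorem discrete [LocallyCompactSpace N] (hS : IsoSetup F N H) (a : F) (x : N) :
    ∃ ε > 0, ∀ h : H, dist (h • a) a < ε → dist (h • x) x < ε → h = 1 := by
  obtain ⟨R, hR, hRc⟩ := Metric.exists_isCompact_closedBall x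
  have hK : IsCompact ((closedBall a 1 ×ˢ closedBall x R : Set (F × N))) :=
    (isCompact_closedBall a 1).prod hRc
  have hfin := hS.pd _ hK
  have hfin' : ({h : H | (∃ p ∈ (closedBall a 1 ×ˢ closedBall x R : Set (F × N)),
      (h • p.1, h • p.2) ∈ (closedBall a 1 ×ˢ closedBall x R : Set (F × N))) ∧ h ≠ 1}).Finite :=
    hfin.subset (fun h hh => hh.1)
  have hpos : ∀ h ∈ {h : H | (∃ p ∈ (closedBall a 1 ×ˢ closedBall x R : Set (F × N)),
      (h • p.1, h • p.2) ∈ (closedBall a 1 ×ˢ closedBall x R : Set (F × N))) ∧ h ≠ 1},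
      ∀ᶠ ε in 𝓝[>] (0 : ℝ), ε < max (dist (h • a) a) (dist (h • x) x) := by
    intro h hh
    have hc : 0 < max (dist (h • a) a) (dist (h • x) x) := by
      by_contra hcon
      push Not at hcon
      have h1 : dist (h • a) a ≤ 0 := le_trans (le_max_left _ _) hcon
      have h2 : dist (h • x) x ≤ 0 := le_trans (le_max_right _ _) hcon
      have h1' : h • a = a := dist_le_zero.1 h1
      have h2' : h • x = x := dist_le_zero.1 h2
      exact hh.2 (hS.free h a x h1' h2')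
    exact nhdsWithin_le_nhds (Iio_mem_nhds hc)
  have hall := (Filter.eventually_all_finite hfin').2 hpos
  have hlt1 : ∀ᶠ ε in 𝓝[>] (0 : ℝ), ε < 1 := nhdsWithin_le_nhds (Iio_mem_nhds one_pos)
  have hltR : ∀ᶠ ε in 𝓝[>] (0 : ℝ), ε < R := nhdsWithin_le_nhds (Iio_mem_nhds hR)
  have hgt : ∀ᶠ ε in 𝓝[>] (0 : ℝ), 0 < ε := self_mem_nhdsWithin
  obtain ⟨ε, ⟨⟨h1, h2⟩, h3⟩, h4⟩ := (((hall.and hlt1).and hltR).and hgt).exists
  refine ⟨ε, h4, ?_⟩
  intro h ha hx
  by_contra hne
  have hmem : h ∈ {h : H | (∃ p ∈ (closedBall a 1 ×ˢ closedBall x R : Set (F × N)),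
      (h • p.1, h • p.2) ∈ (closedBall a 1 ×ˢ closedBall x R : Set (F × N))) ∧ h ≠ 1} := by
    refine ⟨⟨(a, x), ⟨?_, ?_⟩, ⟨?_, ?_⟩⟩, hne⟩
    · exact mem_closedBall_self zero_le_one
    · exact mem_closedBall_self hR.le
    · exact mem_closedBall.2 (le_trans ha.le h2.le)
    · exact mem_closedBall.2 (le_trans hx.le h3.le)
  have h5 := h1 h hmem
  exact absurd h5 (not_lt.2 (max_le ha.le hx.le))

end Pool.Agent.Helper92.FA
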