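import Pool.Agent.Helper92.FA.Def

open Metric Set Filter Topology

namespace Pool.Agent.Helper92.FA

/-- The iterated commutators `c₀ = w`, `c_{i+1} = u c_i u⁻¹ c_i⁻¹`. -/
def comms {H : Type} [Group H] (u w : H) : ℕ → H
  | 0 => w
  | i + 1 => u * comms u w i * u⁻¹ * (comms u w i)⁻¹

variable {F : Type} [NormedAddCommGroup F] [InnerProductSpace ℝ F]

/-- norm estimate for a commutator of rotations -/
theorem eucl_comm {H : Type} [Group H] (rot : H →* (F ≃ₗᵢ[ℝ] F)) (u c : H) (g : ℝ)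
    (hu : ∀ v : F, ‖rot u v - v‖ ≤ 1 / 8 * ‖v‖) (hc : ∀ v : F, ‖rot c v - v‖ ≤ g * ‖v‖)
    (v : F) : ‖rot (u * c * u⁻¹ * c⁻¹) v - v‖ ≤ g / 4 * ‖v‖ := by
  set v' : F := rot (u⁻¹ * c⁻¹) v with hv'
  have h1 : v = rot c (rot u v') := by
    rw [hv']
    have : rot c (rot u (rot (u⁻¹ * c⁻¹) v)) = rot (c * (u * (u⁻¹ * c⁻¹))) v := by
      simp only [map_mul]
      rfl
    rw [this]
    have e : c * (u * (u⁻¹ * c⁻¹)) = 1 := by group
    rw [e, map_one]
    rfl
  have h2 : rot (u * c * u⁻¹ * c⁻¹) v = rot u (rot c v') := by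
    rw [hv']
    have : rot u (rot c (rot (u⁻¹ * c⁻¹) v)) = rot (u * (c * (u⁻¹ * c⁻¹))) v := by
      simp only [map_mul]
      rfl
    rw [this]
    congr 2
    group
  have h3 : ‖v'‖ = ‖v‖ := by rw [hv']; exact (rot (u⁻¹ * c⁻¹)).norm_map v
  have h4 : rot (u * c * u⁻¹ * c⁻¹) v - v =
      (rot u (rot c v' - v') - (rot c v' - v')) - (rot c (rot u v' - v') - (rot u v' - v')) := by
    rw [h2]
    conv_lhs => rw [h1]
    rw [map_sub, map_sub]
    abel
  rw [h4, ← h3]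
  have n1 := hu (rot c v' - v')
  have n2 := hc (rot u v' - v')
  have n3 := hc v'
  have n4 := hu v'
  have n5 := norm_sub_le (rot u (rot c v' - v') - (rot c v' - v'))
    (rot c (rot u v' - v') - (rot u v' - v'))
  have n6 : g * ‖rot u v' - v'‖ ≤ g * (1 / 8 * ‖v'‖) ∨ ‖v'‖ = 0 := by
    by_cases hv : ‖v'‖ = 0
    · exact Or.inr hv
    · left
      have hpos : 0 < ‖v'‖ := lt_of_le_of_ne (norm_nonneg _) (Ne.symm hv)
      have hg : 0 ≤ g := by
        by_contra hneg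
        have := hc v'
        have h0 : 0 ≤ g * ‖v'‖ := (norm_nonneg _).trans this
        have : g * ‖v'‖ < 0 := mul_neg_of_neg_of_pos (not_le.mp hneg) hpos
        linarith
      exact mul_le_mul_of_nonneg_left n4 hg
  rcases n6 with n6 | n6
  · linarith
  · have hz : v' = 0 := norm_eq_zero.mp n6
    rw [hz]
    simp

/-- the origin under a commutator -/
theorem eucl_step {H : Type} [Group H] [MulAction H F]
    (rot : H →* (F ≃ₗᵢ[ℝ] F)) (hrot : ∀ (h : H) (v : F), h • v = rot h v + h • (0 : F))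
    (u c : H) : (u * c * u⁻¹ * c⁻¹) • (0 : F) =
      (rot u (c • (0 : F)) - rot (u * c * u⁻¹ * c⁻¹) (c • (0 : F))) +
        (u • (0 : F) - rot (u * c * u⁻¹ * c⁻¹) (rot c (u • (0 : F)))) := by
  set t : F := c • (0 : F) with ht
  set a : F := u • (0 : F) with ha
  set p : F := c⁻¹ • (0 : F) with hp
  set q : F := u⁻¹ • p with hq
  have h1 : rot c p = -t := by
    have : c • p = 0 := by rw [hp, smul_inv_smul]
    rw [hrot c p] at this
    exact eq_neg_of_add_eq_zero_left this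
  have h2 : rot u q = p - a := by
    have : u • q = p := by rw [hq, smul_inv_smul]
    rw [hrot u q] at this
    exact eq_sub_of_add_eq this
  have h3 : (u * c * u⁻¹ * c⁻¹) • (0 : F) = rot u (rot c q) + rot u t + a := by
    have e : (u * c * u⁻¹ * c⁻¹) • (0 : F) = u • (c • q) := by
      rw [hq, hp, smul_smul, smul_smul, smul_smul]
    rw [e, hrot u (c • q), hrot c q, map_add]
  have h4 : rot u (rot c q) = rot (u * c * u⁻¹ * c⁻¹) (rot c (rot u q)) := by
    have e1 : rot (u * c * u⁻¹ * c⁻¹) (rot c (rot u q)) =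
        rot (u * c * u⁻¹ * c⁻¹ * (c * u)) q := by
      simp only [map_mul]
      rfl
    have e2 : rot u (rot c q) = rot (u * c) q := by
      simp only [map_mul]
      rfl
    rw [e1, e2]
    congr 2
    group
  rw [h3, h4, h2, map_sub, h1, map_sub, map_neg]
  abel

/-- EUCL. If the rotation parts of `u` and `w` are close to the identity, the iterated commutators
move the origin less and less. -/
theorem comms_zero {H : Type} [Group H] [MulAction H F]
    (rot : H →* (F ≃ₗᵢ[ℝ] F)) (hrot : ∀ (h : H) (v : F), h • v = rot h v + h • (0 : F))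
    (u w : H) (hu : ∀ v : F, ‖rot u v - v‖ ≤ 1 / 8 * ‖v‖)
    (hw : ∀ v : F, ‖rot w v - v‖ ≤ 1 / 8 * ‖v‖) :
    Tendsto (fun i => comms u w i • (0 : F)) atTop (𝓝 0) := by
  have hg : ∀ i : ℕ, ∀ v : F, ‖rot (comms u w i) v - v‖ ≤ (1 / 8 * (1 / 4) ^ i) * ‖v‖ := by
    intro i
    induction i with
    | zero =>
      intro v
      simpa [comms] using hw v
    | succ i ih =>
      intro v
      have h := eucl_comm rot u (comms u w i) (1 / 8 * (1 / 4) ^ i) hu ih v
      have e : (1 / 8 * (1 / 4 : ℝ) ^ (i + 1)) = (1 / 8 * (1 / 4) ^ i) / 4 := by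
        rw [pow_succ]; ring
      rw [e]
      exact h
  have hq : ∀ i : ℕ, (1 / 4 : ℝ) ^ i ≤ 1 := fun i => pow_le_one₀ (by norm_num) (by norm_num)
  have hq0 : ∀ i : ℕ, 0 ≤ (1 / 4 : ℝ) ^ i := fun i => pow_nonneg (by norm_num) i
  have hstep : ∀ i : ℕ, ‖comms u w (i + 1) • (0 : F)‖ ≤
      ‖comms u w i • (0 : F)‖ / 2 + (1 / 4) ^ i * ‖u • (0 : F)‖ := by
    intro i
    have he := eucl_step rot hrot u (comms u w i)
    have hd := hg (i + 1)
    have hc := hg i
    change ‖(u * comms u w i * u⁻¹ * (comms u w i)⁻¹) • (0 : F)‖ ≤ _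
    rw [he]
    change ∀ v : F, ‖rot (u * comms u w i * u⁻¹ * (comms u w i)⁻¹) v - v‖ ≤ _ at hd
    set D := rot (u * comms u w i * u⁻¹ * (comms u w i)⁻¹) with hD
    set C := rot (comms u w i) with hC
    set t := comms u w i • (0 : F) with ht
    set a := u • (0 : F) with ha
    have e1 : (rot u t - D t) + (a - D (C a)) =
        (rot u t - t) - (D t - t) - (D (C a) - C a) - (C a - a) := by abel
    rw [e1]
    have n1 := hu t
    have n2 := hd t
    have n3 := hd (C a)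
    have n4 := hc a
    rw [C.norm_map] at n3
    have n5 : ‖(rot u t - t) - (D t - t) - (D (C a) - C a) - (C a - a)‖ ≤
        ‖rot u t - t‖ + ‖D t - t‖ + ‖D (C a) - C a‖ + ‖C a - a‖ := by
      refine (norm_sub_le _ _).trans (add_le_add ?_ le_rfl)
      refine (norm_sub_le _ _).trans (add_le_add ?_ le_rfl)
      exact norm_sub_le _ _
    have h1 := hq i
    have h2 := hq0 i
    have e2 : (1 / 4 : ℝ) ^ (i + 1) = (1 / 4) ^ i / 4 := by rw [pow_succ]; ring
    rw [e2] at n2 n3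
    have nt := norm_nonneg t
    have na := norm_nonneg a
    have m1 : (1 / 8 * ((1 / 4 : ℝ) ^ i / 4)) * ‖t‖ ≤ (1 / 32) * ‖t‖ := by
      apply mul_le_mul_of_nonneg_right _ nt
      linarith
    have m2 : 0 ≤ (1 / 4 : ℝ) ^ i * ‖a‖ := mul_nonneg h2 na
    have m3 : (1 / 8 * ((1 / 4 : ℝ) ^ i / 4)) * ‖a‖ = (1 / 32) * ((1 / 4 : ℝ) ^ i * ‖a‖) := by
      ring
    have m4 : (1 / 8 * (1 / 4 : ℝ) ^ i) * ‖a‖ = (1 / 8) * ((1 / 4 : ℝ) ^ i * ‖a‖) := by ring
    rw [m3] at n3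
    rw [m4] at n4
    linarith
  have hb : ∀ i : ℕ, ‖comms u w i • (0 : F)‖ ≤
      (1 / 2) ^ i * (‖w • (0 : F)‖ + 4 * ‖u • (0 : F)‖) -
        4 * ((1 / 4) ^ i * ‖u • (0 : F)‖) := by
    intro i
    induction i with
    | zero =>
      simp [comms]
    | succ i ih =>
      have h := hstep i
      have e2 : (1 / 4 : ℝ) ^ (i + 1) = (1 / 4) ^ i / 4 := by rw [pow_succ]; ring
      have e3 : (1 / 2 : ℝ) ^ (i + 1) = (1 / 2) ^ i / 2 := by rw [pow_succ]; ring
      rw [e2, e3]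
      have e4 : (1 / 2 : ℝ) ^ i / 2 * (‖w • (0 : F)‖ + 4 * ‖u • (0 : F)‖) -
          4 * ((1 / 4) ^ i / 4 * ‖u • (0 : F)‖) =
          ((1 / 2) ^ i * (‖w • (0 : F)‖ + 4 * ‖u • (0 : F)‖) -
            4 * ((1 / 4) ^ i * ‖u • (0 : F)‖)) / 2 + (1 / 4) ^ i * ‖u • (0 : F)‖ := by ring
      rw [e4]
      linarith
  rw [tendsto_zero_iff_norm_tendsto_zero]
  have hlim : Tendsto (fun i : ℕ => (1 / 2 : ℝ) ^ i * (‖w • (0 : F)‖ + 4 * ‖u • (0 : F)‖))
      atTop (𝓝 0) := by
    have := (tendsto_pow_atTop_nhds_zero_of_lt_one (r := (1 / 2 : ℝ)) (by norm_num)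
      (by norm_num)).mul_const (‖w • (0 : F)‖ + 4 * ‖u • (0 : F)‖)
    simpa using this
  refine squeeze_zero (fun i => norm_nonneg _) (fun i => ?_) hlim
  have h1 := hb i
  have h2 : 0 ≤ (1 / 4 : ℝ) ^ i * ‖u • (0 : F)‖ := mul_nonneg (hq0 i) (norm_nonneg _)
  linarith

end Pool.Agent.Helper92.FA
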