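import Pool.Agent.Helper92.FA.Def

open Metric Set Filter Topology

namespace Pool.Agent.Helper92.FA

variable {F : Type} [NormedAddCommGroup F] [InnerProductSpace ℝ F] [FiniteDimensional ℝ F]

/-- RECUR. Recurrence: some positive power of `a` is close to the identity on a compact subset of
`N` and has rotation part close to the identity. -/
theorem recur {N H : Type} [MetricSpace N] [Group H] [MulAction H N]
    (iso : ∀ h : H, Isometry fun x : N => h • x) (rot : H →* (F ≃ₗᵢ[ℝ] F)) (a : H)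
    (ha : RC N (Subgroup.zpowers a : Set H)) (D : Set N) (hD : IsCompact D) (ε : ℝ) (hε : 0 < ε) :
    ∃ j : ℕ, 1 ≤ j ∧ (∀ z ∈ D, dist (a ^ j • z) z ≤ ε) ∧
      ∀ v : F, ‖rot (a ^ j) v - v‖ ≤ ε * ‖v‖ := by
  obtain ⟨t, htD, htfin, htcov⟩ := hD.finite_cover_balls (e := ε / 3) (by positivity)
  choose K hK hmem using ha
  haveI : Fintype t := htfin.fintype
  let R : ℕ → (F →L[ℝ] F) := fun n => (rot (a ^ n)).toContinuousLinearEquiv
  have hR : ∀ n v, R n v = rot (a ^ n) v := fun n v => rfl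
  have hRn : ∀ n, ‖R n‖ ≤ 1 := by
    intro n
    refine ContinuousLinearMap.opNorm_le_bound _ zero_le_one fun v => ?_
    rw [hR, LinearIsometryEquiv.norm_map, one_mul]
  let u : ℕ → (t → N) × (F →L[ℝ] F) := fun n => (fun z => a ^ n • (z : N), R n)
  haveI : ProperSpace (F →L[ℝ] F) := FiniteDimensional.proper ℝ _
  have hcomp : IsCompact ((Set.univ.pi fun z : t => K z) ×ˢ closedBall (0 : F →L[ℝ] F) 1) :=
    (isCompact_univ_pi (s := fun z : t => K z) fun z => hK z).prod (isCompact_closedBall _ _)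
  have hu : ∀ n, u n ∈ (Set.univ.pi fun z : t => K z) ×ˢ closedBall (0 : F →L[ℝ] F) 1 := by
    intro n
    refine ⟨fun z _ => hmem z _ ⟨(n : ℤ), by simp⟩, ?_⟩
    rw [mem_closedBall_zero_iff]
    exact hRn n
  obtain ⟨l, -, φ, hφ, hlim⟩ := hcomp.tendsto_subseq hu
  have hc := hlim.cauchySeq
  rw [Metric.cauchySeq_iff'] at hc
  obtain ⟨n0, hn0⟩ := hc (ε / 3) (by positivity)
  have hd := hn0 (n0 + 1) (Nat.le_succ n0)
  have hlt : φ n0 < φ (n0 + 1) := hφ (Nat.lt_succ_self n0)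
  obtain ⟨j, hj⟩ := Nat.exists_eq_add_of_lt hlt
  have hj' : φ (n0 + 1) = φ n0 + (j + 1) := by omega
  rw [Function.comp_apply, Function.comp_apply, Prod.dist_eq, max_lt_iff] at hd
  obtain ⟨hd1, hd2⟩ := hd
  refine ⟨j + 1, by omega, ?_, ?_⟩
  · intro z hz
    obtain ⟨w, hw⟩ := mem_iUnion.1 (htcov hz)
    obtain ⟨hwt, hzw⟩ := mem_iUnion.1 hw
    rw [mem_ball] at hzw
    have h1 : dist (a ^ (j + 1) • z) (a ^ (j + 1) • w) = dist z w := (iso (a ^ (j + 1))).dist_eq z w
    have h2 : dist (a ^ (j + 1) • w) w < ε / 3 := by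
      rw [dist_pi_lt_iff (by positivity)] at hd1
      have h3 := hd1 ⟨w, hwt⟩
      have h4 : dist (a ^ φ (n0 + 1) • w) (a ^ φ n0 • w) < ε / 3 := h3
      rw [hj', pow_add, mul_smul] at h4
      have h5 : dist (a ^ φ n0 • (a ^ (j + 1) • w)) (a ^ φ n0 • w) = dist (a ^ (j + 1) • w) w :=
        (iso (a ^ φ n0)).dist_eq _ _
      rwa [h5] at h4
    have h6 := dist_triangle4 (a ^ (j + 1) • z) (a ^ (j + 1) • w) w z
    rw [h1, dist_comm w z] at h6
    linarith
  · intro v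
    have h1 : ‖rot (a ^ (j + 1)) v - v‖ = ‖R (φ (n0 + 1)) v - R (φ n0) v‖ := by
      have h2 : rot (a ^ (φ n0 + (j + 1))) v = rot (a ^ φ n0) (rot (a ^ (j + 1)) v) := by
        rw [pow_add a (φ n0) (j + 1), map_mul]
        rfl
      rw [hR, hR, hj', h2, ← map_sub, LinearIsometryEquiv.norm_map]
    rw [h1, ← sub_apply]
    refine (ContinuousLinearMap.le_opNorm _ _).trans ?_
    have h3 : ‖R (φ (n0 + 1)) - R (φ n0)‖ ≤ ε := by
      rw [← dist_eq_norm]
      have h4 : dist (R (φ (n0 + 1))) (R (φ n0)) < ε / 3 := hd2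
      linarith
    exact mul_le_mul_of_nonneg_right h3 (norm_nonneg _)

end Pool.Agent.Helper92.FA
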