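import Pool.Agent.Helper92.FA.Def

open Metric Set Filter Topology

namespace Pool.Agent.Helper92.FA

variable {F : Type} [NormedAddCommGroup F] [InnerProductSpace ℝ F]

/-- the isometry of the element `h` as an isometric equivalence -/
def rot_equiv {H : Type} [Group H] [MulAction H F]
    (iso : ∀ h : H, Isometry fun a : F => h • a) (h : H) : F ≃ᵢ F :=
  { MulAction.toPerm h with isometry_toFun := iso h }

/-- ROT. A group acting on Euclidean space by isometries acts by affine isometries. -/
theorem exists_rot {H : Type} [Group H] [MulAction H F]
    (iso : ∀ h : H, Isometry fun a : F => h • a) :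
    ∃ rot : H →* (F ≃ₗᵢ[ℝ] F), ∀ (h : H) (v : F), h • v = rot h v + h • (0 : F) := by
  have key : ∀ (h : H) (x : F), (rot_equiv iso h).toRealLinearIsometryEquiv x
      = h • x - h • (0 : F) := by
    intro h x
    rw [IsometryEquiv.toRealLinearIsometryEquiv_apply]
    rfl
  refine ⟨{ toFun := fun h => (rot_equiv iso h).toRealLinearIsometryEquiv
            map_one' := ?_
            map_mul' := ?_ }, ?_⟩
  · ext x
    rw [key, one_smul, one_smul, sub_zero]
    rfl
  · intro g h
    ext x
    show (rot_equiv iso (g * h)).toRealLinearIsometryEquiv x =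
      (rot_equiv iso g).toRealLinearIsometryEquiv ((rot_equiv iso h).toRealLinearIsometryEquiv x)
    rw [key h, map_sub, key g, key g, key (g * h), mul_smul,
      mul_smul]
    abel
  · intro h v
    show h • v = (rot_equiv iso h).toRealLinearIsometryEquiv v + h • (0 : F)
    rw [key]
    abel

end Pool.Agent.Helper92.FA
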