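import Pool.Agent.Helper92.FA.RC
import Pool.Agent.Helper92.FA.Rot
import Pool.Agent.Helper92.FA.Recur
import Pool.Agent.Helper92.FA.Eucl
import Pool.Agent.Helper92.FA.Disc

open Metric Set Filter Topology

namespace Pool.Agent.Helper92.FA

/-- If `c = u w' u⁻¹ w'⁻¹` commutes with `u` then `c ^ i w' = u ^ i w' u ^ (-i)`. -/
theorem comm_conj {H : Type} [Group H] (u w' c : H) (hc : c = u * w' * u⁻¹ * w'⁻¹)
    (huc : u * c = c * u) (i : ℕ) : c ^ i * w' = u ^ i * w' * (u ^ i)⁻¹ := by
  have h1 : c * w' = u * w' * u⁻¹ := by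
    rw [hc]
    group
  have h2 : ∀ i : ℕ, c * u ^ i = u ^ i * c := by
    intro i
    exact ((Commute.pow_left (show Commute u c from huc) i).eq).symm
  induction i with
  | zero => simp
  | succ i ih =>
    calc c ^ (i + 1) * w' = c * (c ^ i * w') := by
          rw [pow_succ', mul_assoc]
      _ = c * (u ^ i * w' * (u ^ i)⁻¹) := by rw [ih]
      _ = (c * u ^ i) * w' * (u ^ i)⁻¹ := by group
      _ = u ^ i * (c * w') * (u ^ i)⁻¹ := by rw [h2]; group
      _ = u ^ i * (u * w' * u⁻¹) * (u ^ i)⁻¹ := by rw [h1]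
      _ = u ^ (i + 1) * w' * (u ^ (i + 1))⁻¹ := by rw [pow_succ]; group

variable {F : Type} [NormedAddCommGroup F] [InnerProductSpace ℝ F] [FiniteDimensional ℝ F]
  {N H : Type} [MetricSpace N] [Group H] [MulAction H F] [MulAction H N]

omit [MetricSpace N] in
theorem comm_pow_fix (u : H) (x : N) (h : u • x = x) (i : ℕ) : u ^ i • x = x := by
  induction i with
  | zero => simp
  | succ i ih => rw [pow_succ, mul_smul, h, ih]

omit [MetricSpace N] in
theorem comm_zpow_fix (u : H) (x : N) (h : u • x = x) (s : H)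
    (hs : s ∈ (Subgroup.zpowers u : Set H)) : s • x = x := by
  have : Subgroup.zpowers u ≤ MulAction.stabilizer H x := by
    rw [Subgroup.zpowers_le]
    exact h
  exact this hs

/-- COMM1. Elements with a fixed point in `N` have commuting powers. -/
theorem comm_pow [ConnectedSpace N] [LocallyCompactSpace N] (hS : IsoSetup F N H)
    (nss : NSS N H) (contr : Contr N H) (a b : H) (x y : N) (ha : a • x = x) (hb : b • y = y) :
    ∃ j j' : ℕ, 1 ≤ j ∧ 1 ≤ j' ∧ Commute (a ^ j) (b ^ j') := by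
  classical
  obtain ⟨rot, hrot⟩ := exists_rot hS.isoE
  obtain ⟨R1, hR1, h1⟩ := nss x
  obtain ⟨R2, hR2, h2⟩ := contr x
  obtain ⟨R3, hR3, h3⟩ := exists_isCompact_closedBall x
  obtain ⟨ρ, hρ, hρ1, hρ2, hρ3⟩ : ∃ ρ : ℝ, 0 < ρ ∧ ρ ≤ R1 ∧ ρ ≤ R2 ∧ ρ ≤ R3 :=
    ⟨min R1 (min R2 R3), by positivity, min_le_left _ _,
      (min_le_right _ _).trans (min_le_left _ _), (min_le_right _ _).trans (min_le_right _ _)⟩
  obtain ⟨εn, hεn, hn⟩ := h1 (ρ / 2) (by positivity) (by linarith)
  obtain ⟨εc, hεc, C, hC, hc⟩ := h2 ρ hρ hρ2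
  have hcpt : IsCompact (closedBall x ρ) :=
    h3.of_isClosed_subset isClosed_closedBall (closedBall_subset_closedBall hρ3)
  obtain ⟨η, hη, hη1, hη2, hη3, hη4, hη5⟩ : ∃ η : ℝ, 0 < η ∧ η ≤ εc ∧ C * η ≤ 1 / 2 ∧
      2 * η ≤ εn ∧ 2 * η ≤ ρ ∧ η ≤ 1 / 8 := by
    refine ⟨min εc (min (1 / (2 * C)) (min (εn / 2) (min (ρ / 2) (1 / 8)))), by positivity,
      min_le_left _ _, ?_, ?_, ?_, ?_⟩
    · have : min εc (min (1 / (2 * C)) (min (εn / 2) (min (ρ / 2) (1 / 8)))) ≤ 1 / (2 * C) :=
        (min_le_right _ _).trans (min_le_left _ _)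
      calc C * _ ≤ C * (1 / (2 * C)) := by
            exact mul_le_mul_of_nonneg_left this hC.le
        _ = 1 / 2 := by field_simp
    · have : min εc (min (1 / (2 * C)) (min (εn / 2) (min (ρ / 2) (1 / 8)))) ≤ εn / 2 :=
        (min_le_right _ _).trans ((min_le_right _ _).trans (min_le_left _ _))
      linarith
    · have : min εc (min (1 / (2 * C)) (min (εn / 2) (min (ρ / 2) (1 / 8)))) ≤ ρ / 2 :=
        (min_le_right _ _).trans ((min_le_right _ _).trans
          ((min_le_right _ _).trans (min_le_left _ _)))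
      linarith
    · exact (min_le_right _ _).trans ((min_le_right _ _).trans
          ((min_le_right _ _).trans (min_le_right _ _)))
  have hRa : RC N (Subgroup.zpowers a : Set H) :=
    rc_of_point hS.isoN _ x {x} isCompact_singleton
      (fun s hs => by rw [comm_zpow_fix a x ha s hs]; exact Set.mem_singleton _)
  have hRb : RC N (Subgroup.zpowers b : Set H) :=
    rc_of_point hS.isoN _ y {y} isCompact_singleton
      (fun s hs => by rw [comm_zpow_fix b y hb s hs]; exact Set.mem_singleton _)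
  obtain ⟨j, hj1, hj2, hj3⟩ := recur hS.isoN rot a hRa (closedBall x ρ) hcpt η hη
  obtain ⟨j', hj1', hj2', hj3'⟩ := recur hS.isoN rot b hRb (closedBall x ρ) hcpt η hη
  refine ⟨j, j', hj1, hj1', ?_⟩
  obtain ⟨u, hu⟩ : ∃ u, u = a ^ j := ⟨_, rfl⟩
  obtain ⟨w, hw⟩ : ∃ w, w = b ^ j' := ⟨_, rfl⟩
  rw [← hu] at hj2 hj3 ⊢
  rw [← hw] at hj2' hj3' ⊢
  have hux : u • x = x := by
    rw [hu]
    exact comm_pow_fix a x ha j
  -- the iterated commutators are small
  have hsmall : ∀ i : ℕ, ∀ z ∈ closedBall x ρ, dist (comms u w i • z) z ≤ (1 / 2) ^ i * η := by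
    intro i
    induction i with
    | zero =>
      intro z hz
      simpa [comms] using hj2' z hz
    | succ i ih =>
      intro z hz
      have hle : (1 / 2 : ℝ) ^ i * η ≤ η := by
        have : (1 / 2 : ℝ) ^ i ≤ 1 := pow_le_one₀ (by norm_num) (by norm_num)
        nlinarith
      have := hc u (comms u w i) η ((1 / 2) ^ i * η) hη1 (hle.trans hη1) hj2 ih z hz
      refine this.trans ?_
      have hpos : (0 : ℝ) ≤ (1 / 2) ^ i * η := by positivity
      calc C * η * ((1 / 2) ^ i * η) ≤ 1 / 2 * ((1 / 2) ^ i * η) :=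
            mul_le_mul_of_nonneg_right hη2 hpos
        _ = (1 / 2) ^ (i + 1) * η := by ring
  have hsmall' : ∀ i : ℕ, ∀ z ∈ closedBall x ρ, dist (comms u w i • z) z ≤ η := by
    intro i z hz
    refine (hsmall i z hz).trans ?_
    have : (1 / 2 : ℝ) ^ i ≤ 1 := pow_le_one₀ (by norm_num) (by norm_num)
    nlinarith
  -- one of them is trivial
  obtain ⟨ε, hε, hd⟩ := discrete hS (0 : F) x
  have ht1 : Tendsto (fun i => comms u w i • (0 : F)) atTop (𝓝 0) := by
    apply comms_zero rot hrot u w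
    · intro v
      refine (hj3 v).trans ?_
      exact mul_le_mul_of_nonneg_right hη5 (norm_nonneg _)
    · intro v
      refine (hj3' v).trans ?_
      exact mul_le_mul_of_nonneg_right hη5 (norm_nonneg _)
  have ht2 : Tendsto (fun i : ℕ => (1 / 2 : ℝ) ^ i * η) atTop (𝓝 0) := by
    have := (tendsto_pow_atTop_nhds_zero_of_lt_one (r := (1 / 2 : ℝ)) (by norm_num)
      (by norm_num)).mul_const η
    simpa using this
  have hex : ∃ i, comms u w i = 1 := by
    have e1 : ∀ᶠ i in atTop, dist (comms u w i • (0 : F)) 0 < ε :=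
      (Metric.tendsto_nhds.1 ht1) ε hε
    have e2 : ∀ᶠ i in atTop, (1 / 2 : ℝ) ^ i * η < ε := ht2.eventually_lt_const hε
    obtain ⟨i, hi1, hi2⟩ := (e1.and e2).exists
    refine ⟨i, hd _ hi1 ?_⟩
    exact (hsmall i x (mem_closedBall_self hρ.le)).trans_lt hi2
  obtain ⟨m, hm, hmin⟩ : ∃ m, comms u w m = 1 ∧ ∀ k < m, comms u w k ≠ 1 :=
    ⟨Nat.find hex, Nat.find_spec hex, fun k hk => Nat.find_min hex hk⟩
  match m, hm, hmin with
  | 0, hm, _ =>
    have hw1 : w = 1 := hm
    rw [hw1]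
    exact Commute.one_right u
  | 1, hm, _ =>
    have h : u * w * u⁻¹ * w⁻¹ = 1 := hm
    have h' : u * w = w * u := by
      calc u * w = (u * w * u⁻¹ * w⁻¹) * (w * u) := by group
        _ = w * u := by rw [h, one_mul]
    exact h'
  | k + 2, hm, hmin =>
    exfalso
    have hne : comms u w (k + 1) ≠ 1 := hmin (k + 1) (by omega)
    apply hne
    have hcdef : comms u w (k + 1) = u * comms u w k * u⁻¹ * (comms u w k)⁻¹ := rfl
    have hcomm : u * comms u w (k + 1) = comms u w (k + 1) * u := by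
      have h : u * comms u w (k + 1) * u⁻¹ * (comms u w (k + 1))⁻¹ = 1 := hm
      calc u * comms u w (k + 1) =
          (u * comms u w (k + 1) * u⁻¹ * (comms u w (k + 1))⁻¹) * (comms u w (k + 1) * u) := by
            group
        _ = comms u w (k + 1) * u := by rw [h, one_mul]
    have hconj := comm_conj u (comms u w k) (comms u w (k + 1)) hcdef hcomm
    have hsm := hsmall' k
    generalize comms u w (k + 1) = c at hconj ⊢
    generalize comms u w k = w' at hconj hsm
    apply hS.faithful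
    apply hn
    intro i z hz
    have hzρ : z ∈ closedBall x ρ := by
      rw [mem_closedBall] at hz ⊢
      linarith
    have hpz : dist (w'⁻¹ • z) z ≤ η := by
      have := (hS.isoN w').dist_eq (w'⁻¹ • z) z
      simp only [smul_inv_smul] at this
      rw [← this, dist_comm]
      exact hsm z hzρ
    have hpx : dist (w'⁻¹ • z) x ≤ ρ := by
      have h := dist_triangle (w'⁻¹ • z) z x
      rw [mem_closedBall] at hz
      linarith
    have hfix : u ^ i • x = x := comm_pow_fix u x hux i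
    have hyx : dist ((u ^ i)⁻¹ • w'⁻¹ • z) x ≤ ρ := by
      have := (hS.isoN (u ^ i)).dist_eq ((u ^ i)⁻¹ • w'⁻¹ • z) x
      simp only [smul_inv_smul, hfix] at this
      rw [← this]
      exact hpx
    have hci : c ^ i • z = u ^ i • w' • (u ^ i)⁻¹ • w'⁻¹ • z := by
      have h := congrArg (fun g : H => g • (w'⁻¹ • z)) (hconj i)
      simp only [mul_smul, smul_inv_smul] at h
      exact h
    have hcp : dist (c ^ i • z) (w'⁻¹ • z) ≤ η := by
      have h1 := (hS.isoN (u ^ i)).dist_eq (w' • (u ^ i)⁻¹ • w'⁻¹ • z) ((u ^ i)⁻¹ • w'⁻¹ • z)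
      simp only [smul_inv_smul] at h1
      rw [hci, h1]
      exact hsm _ (mem_closedBall.2 hyx)
    have h := dist_triangle (c ^ i • z) (w'⁻¹ • z) z
    linarith

end Pool.Agent.Helper92.FA
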