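import Pool.Agent.Helper92.FA.Comm

open Metric Set Filter Topology

namespace Pool.Agent.Helper92.FA

variable {F : Type} [NormedAddCommGroup F] [InnerProductSpace ℝ F] [FiniteDimensional ℝ F]
  {N H : Type} [MetricSpace N] [Group H] [MulAction H F] [MulAction H N]

omit [NormedAddCommGroup F] [InnerProductSpace ℝ F] [FiniteDimensional ℝ F] [MulAction H F] in
lemma comm2_step (iso : ∀ h : H, Isometry fun x : N => h • x) {a B : H} {j : ℕ} (hj : 1 ≤ j)
    (Da : Dprop N a) (h : Commute (a ^ j) B) (z : N) : (a * B) • z = (B * a) • z := by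
  classical
  refine dist_le_zero.1 (le_of_forall_pos_le_add fun ε hε => ?_)
  obtain ⟨l, hl⟩ := Da j hj {z, B • z} (ε / 2) (half_pos hε)
  have h1 := hl z (by simp)
  have h2 := hl (B • z) (by simp)
  have hc : a ^ ((j : ℤ) * l) * B = B * a ^ ((j : ℤ) * l) := by
    have := (h.zpow_left l).eq
    rwa [← zpow_natCast, ← zpow_mul] at this
  have h3 : dist (B • a ^ ((j : ℤ) * l) • z) (B • a • z) = dist (a ^ ((j : ℤ) * l) • z) (a • z) :=
    (iso B).dist_eq _ _
  have h4 : B • a ^ ((j : ℤ) * l) • z = a ^ ((j : ℤ) * l) • B • z := by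
    rw [← mul_smul, ← mul_smul, hc]
  have h5 : dist ((a * B) • z) ((B * a) • z) ≤ dist (a ^ ((j : ℤ) * l) • B • z) (a • B • z) +
      dist (a ^ ((j : ℤ) * l) • B • z) (B • a • z) := by
    rw [mul_smul, mul_smul, dist_comm (a ^ ((j : ℤ) * l) • B • z) (a • B • z)]
    exact dist_triangle _ _ _
  rw [← h4, h3] at h5
  rw [h4] at h5
  linarith

omit [FiniteDimensional ℝ F] in
lemma comm2_commute (hS : IsoSetup F N H) {a B : H} {j : ℕ} (hj : 1 ≤ j)
    (Da : Dprop N a) (h : Commute (a ^ j) B) : Commute a B := by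
  have h1 : (B * a)⁻¹ * (a * B) = 1 := by
    refine hS.faithful _ fun z => ?_
    rw [mul_smul, comm2_step hS.isoN hj Da h z, ← mul_smul, inv_mul_cancel, one_smul]
  exact (inv_mul_eq_one.1 h1).symm

/-- COMM2. Elements with a fixed point in `N` and with property `Dprop` commute. -/
theorem comm_of_fixed [ConnectedSpace N] [LocallyCompactSpace N] (hS : IsoSetup F N H)
    (nss : NSS N H) (contr : Contr N H) (a b : H) (x y : N) (ha : a • x = x) (hb : b • y = y)
    (Da : Dprop N a) (Db : Dprop N b) : Commute a b := by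
  obtain ⟨j, j', hj, hj', hc⟩ := comm_pow hS nss contr a b x y ha hb
  have h1 : Commute a (b ^ j') := comm2_commute hS hj Da hc
  exact (comm2_commute hS hj' Db h1.symm).symm

end Pool.Agent.Helper92.FA
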