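import Pool.Agent.Helper92.FA.Loc

open Metric Set Filter Topology

set_option maxSynthPendingDepth 3

namespace Pool.Agent.Helper92.FA

variable {E : Type} [NormedAddCommGroup E] [NormedSpace ℝ E] [FiniteDimensional ℝ E]
  {N : Type} [MetricSpace N] {P : Set (N → N)}

/-- A map whose derivative is close to the identity on a ball: displacement is Lipschitz. -/
theorem contr_disp {E : Type} [NormedAddCommGroup E] [NormedSpace ℝ E] {p : E} {r K : ℝ}
    {f : E → E} (hd : ∀ z ∈ ball p r, DifferentiableAt ℝ f z)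
    (hb : ∀ z ∈ ball p r, ‖fderiv ℝ f z - ContinuousLinearMap.id ℝ E‖ ≤ K) {a b : E}
    (ha : a ∈ ball p r) (hb' : b ∈ ball p r) :
    ‖(f a - a) - (f b - b)‖ ≤ K * ‖a - b‖ := by
  have hconv : Convex ℝ (ball p r) := convex_ball p r
  have h1 : ∀ z ∈ ball p r, HasFDerivWithinAt (fun z => f z - z)
      (fderiv ℝ f z - ContinuousLinearMap.id ℝ E) (ball p r) z := by
    intro z hz
    exact ((hd z hz).hasFDerivAt.sub (hasFDerivAt_id z)).hasFDerivWithinAt
  have := hconv.norm_image_sub_le_of_norm_hasFDerivWithin_le h1 hb hb' ha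
  exact this

/-- CONTR. Commutators contract. -/
theorem contr_of_charts {H : Type} [Group H] [MulAction H N] (hc : ∀ x : N, Nonempty (Chart E P x))
    (ha : ActsBy H N P) : Contr N H := by
  intro x
  obtain ⟨c⟩ := hc x
  obtain ⟨ρ₂, hρ₂, hρ₂ρ, hψb, hsmall⟩ := c.small
  have hR := c.R_pos
  have hL := c.L_pos
  refine ⟨min (c.R / 4) (ρ₂ / (8 * c.L)), lt_min (by positivity) (by positivity), ?_⟩
  intro ρ hρ hρR
  have hρ1 : ρ ≤ c.R / 4 := le_trans hρR (min_le_left _ _)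
  have hρ2 : ρ ≤ ρ₂ / (8 * c.L) := le_trans hρR (min_le_right _ _)
  obtain ⟨C, hC1, hC⟩ := hsmall ρ hρ
  have hC0 : 0 < C := lt_of_lt_of_le one_pos hC1
  refine ⟨min (c.R / 8) (min (ρ₂ / (8 * c.L)) (ρ₂ / (4 * C))),
    lt_min (by positivity) (lt_min (by positivity) (by positivity)), 2 * c.L * C ^ 2,
    by positivity, ?_⟩
  intro u w s t hs ht hu hw z hz
  have hs1 : s ≤ c.R / 8 := le_trans hs (min_le_left _ _)
  have hs2 : s ≤ ρ₂ / (8 * c.L) := le_trans hs (le_trans (min_le_right _ _) (min_le_left _ _))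
  have hs3 : s ≤ ρ₂ / (4 * C) := le_trans hs (le_trans (min_le_right _ _) (min_le_right _ _))
  have ht1 : t ≤ c.R / 8 := le_trans ht (min_le_left _ _)
  have ht2 : t ≤ ρ₂ / (8 * c.L) := le_trans ht (le_trans (min_le_right _ _) (min_le_left _ _))
  have ht3 : t ≤ ρ₂ / (4 * C) := le_trans ht (le_trans (min_le_right _ _) (min_le_right _ _))
  have hux : dist (u • x) x ≤ s := hu x (mem_closedBall_self hρ.le)
  have hwx : dist (w • x) x ≤ t := hw x (mem_closedBall_self hρ.le)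
  have hs0 : 0 ≤ s := le_trans dist_nonneg hux
  have ht0 : 0 ≤ t := le_trans dist_nonneg hwx
  have hLs : c.L * s ≤ ρ₂ / 8 := by
    have := (le_div_iff₀ (by positivity : (0:ℝ) < 8 * c.L)).1 hs2
    nlinarith
  have hLt : c.L * t ≤ ρ₂ / 8 := by
    have := (le_div_iff₀ (by positivity : (0:ℝ) < 8 * c.L)).1 ht2
    nlinarith
  have hLρ : c.L * ρ ≤ ρ₂ / 8 := by
    have := (le_div_iff₀ (by positivity : (0:ℝ) < 8 * c.L)).1 hρ2
    nlinarith
  have hCs : C * s ≤ ρ₂ / 4 := by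
    have := (le_div_iff₀ (by positivity : (0:ℝ) < 4 * C)).1 hs3
    nlinarith
  have hCt : C * t ≤ ρ₂ / 4 := by
    have := (le_div_iff₀ (by positivity : (0:ℝ) < 4 * C)).1 ht3
    nlinarith
  have hSu := hC (fun y : N => u • y) (ha.mem u) (ha.iso u) (by
    show dist (u • x) x < c.R / 2
    linarith) s hu
  have hSw := hC (fun y : N => w • y) (ha.mem w) (ha.iso w) (by
    show dist (w • x) x < c.R / 2
    linarith) t hw
  -- the point `y`
  obtain ⟨y, hy⟩ : ∃ y : N, y = u⁻¹ • w⁻¹ • z := ⟨_, rfl⟩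
  have hwuy : w • u • y = z := by
    rw [hy, smul_inv_smul, smul_inv_smul]
  have hcomm : (u * w * u⁻¹ * w⁻¹) • z = u • w • y := by
    rw [hy, mul_smul, mul_smul, mul_smul]
  have hxx : x ∈ closedBall x c.R := mem_closedBall_self hR.le
  have hyx : dist y x ≤ ρ + (s + t) := by
    have h1 : dist y x = dist z (w • u • x) := by
      rw [← hwuy]
      rw [(ha.iso w).dist_eq (u • y) (u • x), (ha.iso u).dist_eq y x]
    have h2 : dist (w • x) (w • u • x) = dist x (u • x) := (ha.iso w).dist_eq x (u • x)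
    have h3 : dist z (w • u • x) ≤ dist z x + dist x (w • x) + dist (w • x) (w • u • x) :=
      dist_triangle4 _ _ _ _
    have h4 : dist z x ≤ ρ := hz
    rw [dist_comm x (w • x)] at h3
    rw [h2, dist_comm x (u • x)] at h3
    rw [h1]
    linarith
  have hyR : y ∈ closedBall x c.R := by
    rw [mem_closedBall]
    linarith
  have hYx : ‖c.φ y - c.φ x‖ < ρ₂ / 2 := by
    have h1 := c.lipφ y hyR x hxx
    have h2 : c.L * dist y x ≤ c.L * (ρ + (s + t)) := mul_le_mul_of_nonneg_left hyx hL.le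
    have h3 : c.L * (ρ + (s + t)) = c.L * ρ + c.L * s + c.L * t := by ring
    linarith
  have hYb : c.φ y ∈ ball (c.φ x) ρ₂ := by
    rw [mem_ball, dist_eq_norm]
    linarith
  have hψY : c.ψ (c.φ y) = y := c.left y hyR
  obtain ⟨hu1, -, hu3, -⟩ := hSu (c.φ y) hYb
  obtain ⟨hw1, -, hw3, -⟩ := hSw (c.φ y) hYb
  simp only [hψY] at hu1 hw1
  have hWu : c.W (fun y : N => u • y) (c.φ y) = c.φ (u • y) := by
    show c.φ (u • c.ψ (c.φ y)) = c.φ (u • y)
    rw [hψY]
  have hWw : c.W (fun y : N => w • y) (c.φ y) = c.φ (w • y) := by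
    show c.φ (w • c.ψ (c.φ y)) = c.φ (w • y)
    rw [hψY]
  rw [hWu] at hu3
  rw [hWw] at hw3
  have hYu : c.φ (u • y) ∈ ball (c.φ x) ρ₂ := by
    rw [mem_ball, dist_eq_norm]
    have : c.φ (u • y) - c.φ x = (c.φ (u • y) - c.φ y) + (c.φ y - c.φ x) := by abel
    rw [this]
    have := norm_add_le (c.φ (u • y) - c.φ y) (c.φ y - c.φ x)
    linarith
  have hYw : c.φ (w • y) ∈ ball (c.φ x) ρ₂ := by
    rw [mem_ball, dist_eq_norm]
    have : c.φ (w • y) - c.φ x = (c.φ (w • y) - c.φ y) + (c.φ y - c.φ x) := by abel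
    rw [this]
    have := norm_add_le (c.φ (w • y) - c.φ y) (c.φ y - c.φ x)
    linarith
  have hψu : c.ψ (c.φ (u • y)) = u • y := c.left _ (ball_subset_closedBall hu1)
  have hψw : c.ψ (c.φ (w • y)) = w • y := c.left _ (ball_subset_closedBall hw1)
  have hWwu : c.W (fun y : N => w • y) (c.φ (u • y)) = c.φ z := by
    show c.φ (w • c.ψ (c.φ (u • y))) = c.φ z
    rw [hψu, hwuy]
  have hWuw : c.W (fun y : N => u • y) (c.φ (w • y)) = c.φ (u • w • y) := by
    show c.φ (u • c.ψ (c.φ (w • y))) = c.φ (u • w • y)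
    rw [hψw]
  have hE1 := contr_disp (fun z hz => (hSu z hz).2.1) (fun z hz => (hSu z hz).2.2.2) hYw hYb
  have hE2 := contr_disp (fun z hz => (hSw z hz).2.1) (fun z hz => (hSw z hz).2.2.2) hYu hYb
  rw [hWuw, hWu] at hE1
  rw [hWwu, hWw] at hE2
  have hkey : ‖c.φ (u • w • y) - c.φ z‖ ≤ 2 * C ^ 2 * s * t := by
    have e : c.φ (u • w • y) - c.φ z =
        ((c.φ (u • w • y) - c.φ (w • y)) - (c.φ (u • y) - c.φ y)) -
        ((c.φ z - c.φ (u • y)) - (c.φ (w • y) - c.φ y)) := by abel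
    rw [e]
    have h1 := norm_sub_le ((c.φ (u • w • y) - c.φ (w • y)) - (c.φ (u • y) - c.φ y))
      ((c.φ z - c.φ (u • y)) - (c.φ (w • y) - c.φ y))
    have h2 : C * s * ‖c.φ (w • y) - c.φ y‖ ≤ C * s * (C * t) :=
      mul_le_mul_of_nonneg_left hw3 (by positivity)
    have h3 : C * t * ‖c.φ (u • y) - c.φ y‖ ≤ C * t * (C * s) :=
      mul_le_mul_of_nonneg_left hu3 (by positivity)
    have h4 : C * s * (C * t) + C * t * (C * s) = 2 * C ^ 2 * s * t := by ring
    linarith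
  have hzR : z ∈ closedBall x c.R := by
    have h4 : dist z x ≤ ρ := hz
    rw [mem_closedBall]
    linarith
  have huwR : u • w • y ∈ closedBall x c.R := by
    obtain ⟨h1, -⟩ := hSu (c.φ (w • y)) hYw
    simp only [hψw] at h1
    exact ball_subset_closedBall h1
  rw [hcomm]
  have hfin := c.lipψ (c.φ (u • w • y)) (c.maps _ huwR) (c.φ z) (c.maps _ hzR)
  rw [c.left _ huwR, c.left _ hzR] at hfin
  calc dist (u • w • y) z ≤ c.L * ‖c.φ (u • w • y) - c.φ z‖ := hfin
    _ ≤ c.L * (2 * C ^ 2 * s * t) := mul_le_mul_of_nonneg_left hkey hL.le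
    _ = 2 * c.L * C ^ 2 * s * t := by ring

end Pool.Agent.Helper92.FA
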