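import Pool.Agent.Helper92.FA.Loc

open Metric Set Filter Topology

set_option maxSynthPendingDepth 3

namespace Pool.Agent.Helper92.FA

variable {E : Type} [NormedAddCommGroup E] [NormedSpace ℝ E] [FiniteDimensional ℝ E]
  {N : Type} [MetricSpace N] {P : Set (N → N)}

/-- UC0. Pointwise convergence of isometries to the identity on a set is uniform on its compact
subsets. -/
theorem uniform_of_pointwise (f : ℕ → N → N) (hiso : ∀ n, Isometry (f n)) (K : Set N)
    (hK : IsCompact K) (h : ∀ z ∈ K, Tendsto (fun n => f n z) atTop (𝓝 z)) (ε : ℝ) (hε : 0 < ε) :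
    ∀ᶠ n in atTop, ∀ z ∈ K, dist (f n z) z ≤ ε := by
  have hε3 : 0 < ε / 3 := by linarith
  obtain ⟨t, htK, htf, hcov⟩ := hK.finite_cover_balls hε3
  have h1 : ∀ᶠ n in atTop, ∀ y ∈ t, dist (f n y) y < ε / 3 := by
    rw [Filter.eventually_all_finite htf]
    intro y hy
    exact (Metric.tendsto_nhds.1 (h y (htK hy))) _ hε3
  filter_upwards [h1] with n hn z hz
  obtain ⟨y, hy, hzy⟩ := Set.mem_iUnion₂.1 (hcov hz)
  have h2 : dist z y < ε / 3 := Metric.mem_ball.1 hzy
  have h3 : dist (f n z) (f n y) = dist z y := (hiso n).dist_eq z y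
  have h4 := dist_triangle4 (f n z) (f n y) y z
  have h5 := hn y hy
  have h6 : dist y z = dist z y := dist_comm y z
  linarith

/-- The set of the points that converge to themselves is closed. -/
theorem uc_closed (f : ℕ → N → N) (hiso : ∀ n, Isometry (f n)) :
    IsClosed {z : N | Tendsto (fun n => f n z) atTop (𝓝 z)} := by
  rw [← closure_subset_iff_isClosed]
  intro z hz
  rw [Metric.mem_closure_iff] at hz
  refine Metric.tendsto_nhds.2 ?_
  intro ε hε
  have hε3 : 0 < ε / 3 := by linarith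
  obtain ⟨y, hy, hzy⟩ := hz (ε / 3) hε3
  have h1 := (Metric.tendsto_nhds.1 hy) _ hε3
  filter_upwards [h1] with n hn
  have h3 : dist (f n z) (f n y) = dist z y := (hiso n).dist_eq z y
  have h4 := dist_triangle4 (f n z) (f n y) y z
  have h6 : dist y z = dist z y := dist_comm y z
  linarith

omit [FiniteDimensional ℝ E] in
theorem uc_psi_phi {x : N} (c : Chart E P x) : c.ψ (c.φ x) = x :=
  c.left x (Metric.mem_closedBall_self c.R_pos.le)

/-- `C^1` convergence to the identity at one point of the chart ball implies convergence near the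
centre. -/
theorem uc_key {x : N} (c : Chart E P x) (f : ℕ → N → N) (hP : ∀ n, f n ∈ P)
    (hiso : ∀ n, Isometry (f n)) (hx : Tendsto (fun n => f n x) atTop (𝓝 x)) (ρ₂ : ℝ)
    (hρ : 0 < ρ₂) (hρ' : ρ₂ ≤ c.ρ)
    (hloc : ∀ f ∈ P, Isometry f → dist (f x) x < c.R / 2 →
      c.IsLoc ρ₂ (c.W f) ∧ ∀ z ∈ ball (c.φ x) ρ₂, f (c.ψ z) ∈ ball x c.R)
    (p : E) (hp : p ∈ ball (c.φ x) ρ₂)
    (h0 : Tendsto (fun n => ‖c.W (f n) p - p‖) atTop (𝓝 0))
    (h1 : Tendsto (fun n => ‖fderiv ℝ (c.W (f n)) p - ContinuousLinearMap.id ℝ E‖) atTop (𝓝 0)) :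
    ∀ᶠ y in 𝓝 x, Tendsto (fun n => f n y) atTop (𝓝 y) := by
  obtain ⟨C, hC1, hC⟩ := c.propagate
  have hR2 : 0 < c.R / 2 := by have := c.R_pos; linarith
  have hev : ∀ᶠ n in atTop, dist (f n x) x < c.R / 2 := (Metric.tendsto_nhds.1 hx) _ hR2
  have hsum : Tendsto (fun n => c.L * (C * (‖c.W (f n) p - p‖ +
      ‖fderiv ℝ (c.W (f n)) p - ContinuousLinearMap.id ℝ E‖))) atTop (𝓝 0) := by
    have h2 := ((h0.add h1).const_mul C).const_mul c.L
    simpa using h2
  have hmin : 0 < min c.R (ρ₂ / c.L) := lt_min c.R_pos (div_pos hρ c.L_pos)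
  filter_upwards [Metric.ball_mem_nhds x hmin] with y hy
  have hyd : dist y x < min c.R (ρ₂ / c.L) := Metric.mem_ball.1 hy
  have hyR : y ∈ closedBall x c.R := Metric.mem_closedBall.2 (hyd.le.trans (min_le_left _ _))
  have hyφ : c.φ y ∈ ball (c.φ x) ρ₂ := by
    rw [mem_ball_iff_norm]
    have h3 := c.lipφ y hyR x (Metric.mem_closedBall_self c.R_pos.le)
    have h4 : dist y x < ρ₂ / c.L := hyd.trans_le (min_le_right _ _)
    have h5 : c.L * dist y x < ρ₂ := by
      rw [lt_div_iff₀ c.L_pos] at h4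
      linarith
    linarith
  rw [tendsto_iff_dist_tendsto_zero]
  refine squeeze_zero' (Filter.Eventually.of_forall fun n => dist_nonneg) ?_ hsum
  filter_upwards [hev] with n hn
  obtain ⟨hl, hm⟩ := hloc (f n) (hP n) (hiso n) hn
  have h5 := hC ρ₂ hρ' (c.W (f n)) hl p hp (c.φ y) hyφ
  have h6 : ‖c.W (f n) (c.φ y) - c.φ y‖ ≤ C * (‖c.W (f n) p - p‖ +
      ‖fderiv ℝ (c.W (f n)) p - ContinuousLinearMap.id ℝ E‖) := by
    have := norm_nonneg (fderiv ℝ (c.W (f n)) (c.φ y) - ContinuousLinearMap.id ℝ E)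
    linarith
  have h7 : f n (c.ψ (c.φ y)) ∈ ball x c.R := hm (c.φ y) hyφ
  rw [c.left y hyR] at h7
  have h8 : c.W (f n) (c.φ y) = c.φ (f n y) := by
    show c.φ (f n (c.ψ (c.φ y))) = c.φ (f n y)
    rw [c.left y hyR]
  have h9 : dist (c.ψ (c.φ (f n y))) (c.ψ (c.φ y)) ≤ c.L * ‖c.φ (f n y) - c.φ y‖ :=
    c.lipψ _ (c.maps _ (Metric.ball_subset_closedBall h7)) _ (c.maps _ hyR)
  rw [c.left y hyR, c.left _ (Metric.ball_subset_closedBall h7)] at h9
  rw [h8] at h6
  exact h9.trans (mul_le_mul_of_nonneg_left h6 c.L_pos.le)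

/-- UC. Isometries that fix a point `x` and whose derivatives at `x` tend to the identity tend
pointwise to the identity. -/
theorem uc [ConnectedSpace N] (hc : ∀ x : N, Nonempty (Chart E P x)) (x : N) (c : Chart E P x)
    (f : ℕ → N → N) (hP : ∀ n, f n ∈ P) (hiso : ∀ n, Isometry (f n)) (hfx : ∀ n, f n x = x)
    (hD : Tendsto (fun n => fderiv ℝ (c.W (f n)) (c.φ x)) atTop
      (𝓝 (ContinuousLinearMap.id ℝ E))) :
    ∀ z, Tendsto (fun n => f n z) atTop (𝓝 z) := by
  have hZc := uc_closed f hiso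
  set Z : Set N := {z : N | Tendsto (fun n => f n z) atTop (𝓝 z)} with hZ
  have hxW : x ∈ interior Z := by
    rw [mem_interior_iff_mem_nhds]
    obtain ⟨ρ₂, hρ, hρ', -, hloc⟩ := c.exists_loc
    apply uc_key c f hP hiso _ ρ₂ hρ hρ' hloc (c.φ x) (Metric.mem_ball_self hρ)
    · have e : ∀ n, ‖c.W (f n) (c.φ x) - c.φ x‖ = 0 := by
        intro n
        have : c.W (f n) (c.φ x) = c.φ x := by
          show c.φ (f n (c.ψ (c.φ x))) = c.φ x
          rw [uc_psi_phi, hfx]
        rw [this, sub_self, norm_zero]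
      simp only [e]
      exact tendsto_const_nhds
    · exact tendsto_iff_norm_sub_tendsto_zero.1 hD
    · simp only [hfx]
      exact tendsto_const_nhds
  have hWc : IsClosed (interior Z) := by
    rw [← closure_subset_iff_isClosed]
    intro z hz
    have hzZ : z ∈ Z := hZc.closure_subset_iff.2 interior_subset hz
    obtain ⟨c'⟩ := hc z
    obtain ⟨ρ₂, hρ, hρ', hψ, hloc⟩ := c'.exists_loc
    have hR2 : 0 < c'.R / 2 := by have := c'.R_pos; linarith
    have hev : ∀ᶠ n in atTop, dist (f n z) z < c'.R / 2 := (Metric.tendsto_nhds.1 hzZ) _ hR2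
    have hmin : 0 < min c'.R (ρ₂ / 2 / c'.L) :=
      lt_min c'.R_pos (div_pos (by linarith) c'.L_pos)
    obtain ⟨y, hyW, hyd⟩ := Metric.mem_closure_iff.1 hz _ hmin
    rw [dist_comm] at hyd
    have hyR : y ∈ closedBall z c'.R := Metric.mem_closedBall.2 (hyd.le.trans (min_le_left _ _))
    have hyφ : c'.φ y ∈ ball (c'.φ z) (ρ₂ / 2) := by
      rw [mem_ball_iff_norm]
      have h3 := c'.lipφ y hyR z (Metric.mem_closedBall_self c'.R_pos.le)
      have h4 : dist y z < ρ₂ / 2 / c'.L := hyd.trans_le (min_le_right _ _)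
      have h5 : c'.L * dist y z < ρ₂ / 2 := by
        rw [lt_div_iff₀ c'.L_pos] at h4
        linarith
      linarith
    have hyφ2 : c'.φ y ∈ ball (c'.φ z) ρ₂ := Metric.ball_subset_ball (by linarith) hyφ
    have hcont : ContinuousOn c'.ψ (ball (c'.φ z) c'.ρ) := by
      have hL : LipschitzOnWith (Real.toNNReal c'.L) c'.ψ (ball (c'.φ z) c'.ρ) := by
        apply LipschitzOnWith.of_dist_le_mul
        intro a ha b hb
        rw [Real.coe_toNNReal _ c'.L_pos.le, dist_eq_norm a b]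
        exact c'.lipψ a ha b hb
      exact hL.continuousOn
    have hca : ContinuousAt c'.ψ (c'.φ y) :=
      hcont.continuousAt (Metric.isOpen_ball.mem_nhds (Metric.ball_subset_ball hρ' hyφ2))
    have hmem : c'.ψ ⁻¹' (interior Z) ∈ 𝓝 (c'.φ y) := by
      apply hca.preimage_mem_nhds
      rw [c'.left y hyR]
      exact isOpen_interior.mem_nhds hyW
    obtain ⟨δ₀, hδ₀, hsub⟩ := Metric.nhds_basis_closedBall.mem_iff.1 hmem
    obtain ⟨δ, hδ, hδ1, hδ2⟩ : ∃ δ : ℝ, 0 < δ ∧ δ ≤ δ₀ ∧ δ ≤ ρ₂ / 4 :=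
      ⟨min δ₀ (ρ₂ / 4), lt_min hδ₀ (by linarith), min_le_left _ _, min_le_right _ _⟩
    have hcb : closedBall (c'.φ y) δ ⊆ ball (c'.φ z) ρ₂ := by
      intro w hw
      rw [Metric.mem_ball]
      rw [Metric.mem_closedBall] at hw
      have h1 : dist (c'.φ y) (c'.φ z) < ρ₂ / 2 := Metric.mem_ball.1 hyφ
      have h2 := dist_triangle w (c'.φ y) (c'.φ z)
      linarith
    have hKc : IsCompact (c'.ψ '' closedBall (c'.φ y) δ) := by
      apply (isCompact_closedBall (c'.φ y) δ).image_of_continuousOn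
      exact hcont.mono (hcb.trans (Metric.ball_subset_ball hρ'))
    have hKZ : ∀ k ∈ c'.ψ '' closedBall (c'.φ y) δ, Tendsto (fun n => f n k) atTop (𝓝 k) := by
      rintro _ ⟨w, hw, rfl⟩
      exact interior_subset (hsub (Metric.closedBall_subset_closedBall hδ1 hw))
    have hunif := uniform_of_pointwise f hiso _ hKc hKZ
    obtain ⟨C, hC1, hC⟩ := c'.interp δ hδ
    have hCL : 0 < C * c'.L := mul_pos (by linarith) c'.L_pos
    have hpt : ∀ ε : ℝ, 0 < ε → ∀ᶠ n in atTop, ∀ w ∈ ball (c'.φ y) δ,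
        ‖c'.W (f n) w - w‖ ≤ c'.L * ε := by
      intro ε hε
      filter_upwards [hunif ε hε, hev] with n hn hn2 w hw
      have hw1 : w ∈ ball (c'.φ z) ρ₂ := hcb (Metric.ball_subset_closedBall hw)
      obtain ⟨-, hm⟩ := hloc (f n) (hP n) (hiso n) hn2
      have h1 : f n (c'.ψ w) ∈ closedBall z c'.R := Metric.ball_subset_closedBall (hm w hw1)
      have h2 : c'.ψ w ∈ closedBall z c'.R :=
        Metric.ball_subset_closedBall (Metric.ball_subset_ball (by linarith) (hψ w hw1))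
      have h3 := c'.lipφ _ h1 _ h2
      rw [c'.right w (Metric.ball_subset_ball hρ' hw1)] at h3
      have h4 := hn (c'.ψ w) ⟨w, Metric.ball_subset_closedBall hw, rfl⟩
      exact h3.trans (mul_le_mul_of_nonneg_left h4 c'.L_pos.le)
    rw [mem_interior_iff_mem_nhds]
    apply uc_key c' f hP hiso hzZ ρ₂ hρ hρ' hloc (c'.φ y) hyφ2
    · rw [Metric.tendsto_nhds]
      intro ε hε
      have hε' : 0 < ε / 2 / c'.L := div_pos (by linarith) c'.L_pos
      filter_upwards [hpt _ hε'] with n hn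
      have h1 := hn (c'.φ y) (Metric.mem_ball_self hδ)
      rw [mul_div_cancel₀ _ c'.L_pos.ne'] at h1
      rw [Real.dist_eq, sub_zero, abs_of_nonneg (norm_nonneg _)]
      linarith
    · rw [Metric.tendsto_nhds]
      intro ε hε
      have hε' : 0 < ε / 2 / (C * c'.L) := div_pos (by linarith) hCL
      filter_upwards [hpt _ hε', hev] with n hn hn2
      obtain ⟨hl, -⟩ := hloc (f n) (hP n) (hiso n) hn2
      have h1 := hC ρ₂ hρ' (c'.W (f n)) hl (c'.φ y)
        (Metric.ball_subset_closedBall.trans hcb) _ hn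
      have h2 : C * (c'.L * (ε / 2 / (C * c'.L))) = ε / 2 := by
        rw [← mul_assoc, mul_div_cancel₀ _ hCL.ne']
      rw [h2] at h1
      rw [Real.dist_eq, sub_zero, abs_of_nonneg (norm_nonneg _)]
      linarith
  have hclopen : IsClopen (interior Z) := ⟨hWc, isOpen_interior⟩
  have huniv := hclopen.eq_univ ⟨x, hxW⟩
  intro z
  have hz : z ∈ interior Z := by rw [huniv]; exact Set.mem_univ z
  exact interior_subset hz

end Pool.Agent.Helper92.FA
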