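import Pool.Agent.Helper92.FA.LM3
import Pool.Agent.Helper92.FA.UC

open Metric Set Filter Topology

set_option maxSynthPendingDepth 3

namespace Pool.Agent.Helper92.FA

variable {E : Type} [NormedAddCommGroup E] [NormedSpace ℝ E] [FiniteDimensional ℝ E]
  {N : Type} [MetricSpace N] {P : Set (N → N)}

omit [FiniteDimensional ℝ E] in
/-- the reading in the chart of an isometry that fixes the centre fixes the centre -/
theorem ddc_W_center {x : N} (c : Chart E P x) (f : N → N) (hf : f x = x) :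
    c.W f (c.φ x) = c.φ x := by
  unfold Chart.W
  rw [c.left x (mem_closedBall_self c.R_pos.le), hf]

/-- DD. Every element with a fixed point has a power with the property `Dprop`. -/
theorem dd_of_charts [ConnectedSpace N] {H : Type} [Group H] [MulAction H N]
    (hc : ∀ x : N, Nonempty (Chart E P x)) (ha : ActsBy H N P) : DD N H := by
  intro g x hgx
  obtain ⟨c⟩ := hc x
  obtain ⟨ρ₂, hρ₂, hρ₂le, hψ, hloc⟩ := c.exists_loc
  have hfix : ∀ n : ℤ, (g ^ n) • x = x := by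
    intro n
    have h1 : g ∈ MulAction.stabilizer H x := hgx
    exact (Subgroup.zpow_mem _ h1 n : g ^ n ∈ MulAction.stabilizer H x)
  let f : ℤ → N → N := fun n y => (g ^ n) • y
  have hfx : ∀ n, f n x = x := hfix
  have hfP : ∀ n, f n ∈ P := fun n => ha.mem (g ^ n)
  have hfi : ∀ n, Isometry (f n) := fun n => ha.iso (g ^ n)
  have hfd : ∀ n, dist (f n x) x < c.R / 2 := by
    intro n
    rw [hfx n, dist_self]
    exact half_pos c.R_pos
  have hl : ∀ n, c.IsLoc ρ₂ (c.W (f n)) := fun n => (hloc (f n) (hfP n) (hfi n) (hfd n)).1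
  have hb : ∀ n, ∀ z ∈ ball (c.φ x) ρ₂, f n (c.ψ z) ∈ ball x c.R :=
    fun n => (hloc (f n) (hfP n) (hfi n) (hfd n)).2
  have hmem : c.φ x ∈ ball (c.φ x) ρ₂ := mem_ball_self hρ₂
  have hdiff : ∀ n, DifferentiableAt ℝ (c.W (f n)) (c.φ x) := fun n =>
    ((hl n).smooth _ hmem).differentiableAt (by norm_num)
  have hcen : ∀ n, c.W (f n) (c.φ x) = c.φ x := fun n => ddc_W_center c (f n) (hfx n)
  have hmul : ∀ n k : ℤ, fderiv ℝ (c.W (f (n + k))) (c.φ x) =
      (fderiv ℝ (c.W (f n)) (c.φ x)).comp (fderiv ℝ (c.W (f k)) (c.φ x)) := by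
    intro n k
    have h1 : c.W (f (n + k)) =ᶠ[𝓝 (c.φ x)] (c.W (f n) ∘ c.W (f k)) := by
      filter_upwards [ball_mem_nhds (c.φ x) hρ₂] with z hz
      have h2 : c.ψ (c.φ (f k (c.ψ z))) = f k (c.ψ z) :=
        c.left _ (ball_subset_closedBall (hb k z hz))
      change c.φ (f (n + k) (c.ψ z)) = c.φ (f n (c.ψ (c.φ (f k (c.ψ z)))))
      rw [h2]
      change c.φ ((g ^ (n + k)) • (c.ψ z)) = c.φ ((g ^ n) • (g ^ k) • (c.ψ z))
      rw [zpow_add, mul_smul]
    rw [h1.fderiv_eq]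
    have h3 : DifferentiableAt ℝ (c.W (f n)) (c.W (f k) (c.φ x)) := by
      rw [hcen k]
      exact hdiff n
    rw [fderiv_comp _ h3 (hdiff k), hcen k]
  have hone : fderiv ℝ (c.W (f 0)) (c.φ x) = ContinuousLinearMap.id ℝ E := by
    have h1 : c.W (f 0) =ᶠ[𝓝 (c.φ x)] id := by
      filter_upwards [ball_mem_nhds (c.φ x) c.ρ_pos] with z hz
      change c.φ ((g ^ (0 : ℤ)) • (c.ψ z)) = z
      rw [zpow_zero, one_smul]
      exact c.right z hz
    rw [h1.fderiv_eq, fderiv_id]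
  let Φ : Multiplicative ℤ →* (E →L[ℝ] E) :=
    { toFun := fun n => fderiv ℝ (c.W (f (Multiplicative.toAdd n))) (c.φ x)
      map_one' := hone
      map_mul' := fun n k => hmul (Multiplicative.toAdd n) (Multiplicative.toAdd k) }
  let Ψ : Multiplicative ℤ →* (E →L[ℝ] E)ˣ := Φ.toHomUnits
  let A : (E →L[ℝ] E)ˣ := Ψ (Multiplicative.ofAdd 1)
  have hA : ∀ n : ℤ, ((A ^ n : (E →L[ℝ] E)ˣ) : E →L[ℝ] E) =
      fderiv ℝ (c.W (f n)) (c.φ x) := by
    intro n
    have h1 : A ^ n = Ψ (Multiplicative.ofAdd n) := by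
      change (Ψ (Multiplicative.ofAdd 1)) ^ n = Ψ (Multiplicative.ofAdd n)
      rw [← map_zpow, ← ofAdd_zsmul, smul_eq_mul, mul_one]
    rw [h1]
    rfl
  obtain ⟨C, _, hC⟩ := c.first
  obtain ⟨M, hM, hlm⟩ := lm A C (fun n => by
    rw [hA n]
    exact hC ρ₂ hρ₂le _ (hl n) _ hmem)
  refine ⟨M, hM, ?_⟩
  intro k hk S ε hε
  have hex : ∀ i : ℕ, ∃ l : ℤ, ‖fderiv ℝ (c.W (f ((M : ℤ) * (k * l - 1)))) (c.φ x) -
      ContinuousLinearMap.id ℝ E‖ < 1 / ((i : ℝ) + 1) := by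
    intro i
    obtain ⟨l, hl⟩ := hlm k hk (1 / ((i : ℝ) + 1)) (by positivity)
    refine ⟨l, ?_⟩
    rw [← hA]
    exact hl
  choose l hl' using hex
  have hlim : Tendsto (fun i : ℕ => fderiv ℝ (c.W (f ((M : ℤ) * (k * l i - 1)))) (c.φ x)) atTop
      (𝓝 (ContinuousLinearMap.id ℝ E)) := by
    rw [tendsto_iff_norm_sub_tendsto_zero]
    exact squeeze_zero (fun i => norm_nonneg _) (fun i => (hl' i).le)
      tendsto_one_div_add_atTop_nhds_zero_nat
  have huc := uc hc x c (fun i => f ((M : ℤ) * (k * l i - 1))) (fun i => hfP _)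
    (fun i => hfi _) (fun i => hfx _) hlim
  have hev : ∀ᶠ i : ℕ in atTop, ∀ z ∈ S, dist (f ((M : ℤ) * (k * l i - 1)) z) z < ε := by
    rw [Filter.eventually_all_finset]
    intro z _
    exact (huc z) (Metric.ball_mem_nhds z hε)
  obtain ⟨i, hi⟩ := hev.exists
  refine ⟨l i, ?_⟩
  intro z hz
  have h1 : ((g ^ M) ^ ((k : ℤ) * l i)) • z = (g ^ M) • f ((M : ℤ) * (k * l i - 1)) z := by
    change ((g ^ M) ^ ((k : ℤ) * l i)) • z = (g ^ M) • (g ^ ((M : ℤ) * (k * l i - 1))) • z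
    rw [← mul_smul, ← zpow_natCast g M, ← zpow_mul, ← zpow_add]
    congr 2
    ring
  rw [h1, (ha.iso (g ^ M)).dist_eq]
  exact hi z hz

end Pool.Agent.Helper92.FA
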