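import Mathlib

/-!
# Free action on the non-flat factor: definitions

`E` is the model space of the manifold `N` (a finite dimensional real normed space) and `F` is a
Euclidean space. `Chart E P x` packages the local analysis near a point `x` of a metric space `N`
that comes from a smooth Riemannian metric; `P` is the set of Riemannian isometries. Everything
global is then done for a group acting by isometries.
-/

open Metric Set Filter Topology

set_option maxSynthPendingDepth 3

namespace Pool.Agent.Helper92.FA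

/-- A chart `φ` with inverse `ψ` near the point `x` of the metric space `N`, with the metric
coefficients `G` (and their derivative `G'`) and all the bounds that are used. The set `P` consists
of the maps `N → N` that are isometries of the Riemannian metric. -/
structure Chart (E : Type) [NormedAddCommGroup E] [NormedSpace ℝ E] {N : Type} [MetricSpace N]
    (P : Set (N → N)) (x : N) where
  /-- the chart -/
  φ : N → E
  /-- the inverse of the chart -/
  ψ : E → N
  /-- radius of a ball in the model space -/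
  ρ : ℝ
  /-- radius of a ball in `N` -/
  R : ℝ
  /-- upper bound for everything -/
  L : ℝ
  /-- lower bound for the metric -/
  lam : ℝ
  /-- the metric coefficients -/
  G : E → E →L[ℝ] E →L[ℝ] ℝ
  /-- their derivative -/
  G' : E → E →L[ℝ] E →L[ℝ] E →L[ℝ] ℝ
  ρ_pos : 0 < ρ
  R_pos : 0 < R
  L_pos : 0 < L
  lam_pos : 0 < lam
  left : ∀ y ∈ closedBall x R, ψ (φ y) = y
  maps : ∀ y ∈ closedBall x R, φ y ∈ ball (φ x) ρ
  right : ∀ z ∈ ball (φ x) ρ, φ (ψ z) = z
  lipφ : ∀ y ∈ closedBall x R, ∀ y' ∈ closedBall x R, ‖φ y - φ y'‖ ≤ L * dist y y'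
  lipψ : ∀ z ∈ ball (φ x) ρ, ∀ z' ∈ ball (φ x) ρ, dist (ψ z) (ψ z') ≤ L * ‖z - z'‖
  symm : ∀ z ∈ ball (φ x) ρ, ∀ v w, G z v w = G z w v
  coer : ∀ z ∈ ball (φ x) ρ, ∀ v, lam * ‖v‖ ^ 2 ≤ G z v v
  bd : ∀ z ∈ ball (φ x) ρ, ‖G z‖ ≤ L
  der : ∀ z ∈ ball (φ x) ρ, HasFDerivAt G (G' z) z
  bd' : ∀ z ∈ ball (φ x) ρ, ‖G' z‖ ≤ L
  lip' : ∀ z ∈ ball (φ x) ρ, ∀ z' ∈ ball (φ x) ρ, ‖G' z - G' z'‖ ≤ L * ‖z - z'‖
  smooth : ∀ f ∈ P, ∀ z ∈ ball (φ x) ρ, f (ψ z) ∈ ball x R →
    ContDiffAt ℝ 2 (fun z => φ (f (ψ z))) z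
  isom : ∀ f ∈ P, ∀ z ∈ ball (φ x) ρ, f (ψ z) ∈ ball x R → ∀ v w,
    G (φ (f (ψ z))) (fderiv ℝ (fun z => φ (f (ψ z))) z v) (fderiv ℝ (fun z => φ (f (ψ z))) z w) =
      G z v w

/-- The map `f : N → N` read in the chart `c`. -/
def Chart.W {E : Type} [NormedAddCommGroup E] [NormedSpace ℝ E] {N : Type} [MetricSpace N]
    {P : Set (N → N)} {x : N} (c : Chart E P x) (f : N → N) (z : E) : E := c.φ (f (c.ψ z))

/-- The group `H` acts on `N` by distance preserving maps that belong to `P`. -/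
structure ActsBy (H N : Type) [MetricSpace N] [Group H] [MulAction H N] (P : Set (N → N)) :
    Prop where
  iso : ∀ h : H, Isometry fun x : N => h • x
  mem : ∀ h : H, (fun x : N => h • x) ∈ P

/-- No small subgroups. -/
def NSS (N H : Type) [MetricSpace N] [Group H] [MulAction H N] : Prop :=
  ∀ x : N, ∃ R > 0, ∀ ρ, 0 < ρ → ρ ≤ R → ∃ ε > 0, ∀ c : H,
    (∀ i : ℕ, ∀ z ∈ closedBall x ρ, dist (c ^ i • z) z ≤ ε) → ∀ z : N, c • z = z

/-- Commutators of small elements are much smaller. -/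
def Contr (N H : Type) [MetricSpace N] [Group H] [MulAction H N] : Prop :=
  ∀ x : N, ∃ R > 0, ∀ ρ, 0 < ρ → ρ ≤ R → ∃ ε > 0, ∃ C > 0, ∀ u w : H, ∀ s t : ℝ, s ≤ ε → t ≤ ε →
    (∀ z ∈ closedBall x ρ, dist (u • z) z ≤ s) → (∀ z ∈ closedBall x ρ, dist (w • z) z ≤ t) →
    ∀ z ∈ closedBall x ρ, dist ((u * w * u⁻¹ * w⁻¹) • z) z ≤ C * s * t

/-- The element `a` is a pointwise limit of powers of `a ^ k`, for every `k ≥ 1`. -/
def Dprop (N : Type) {H : Type} [MetricSpace N] [Group H] [MulAction H N] (a : H) : Prop :=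
  ∀ k : ℕ, 1 ≤ k → ∀ S : Finset N, ∀ ε > 0, ∃ l : ℤ, ∀ z ∈ S, dist (a ^ ((k : ℤ) * l) • z) (a • z) < ε

/-- Every element with a fixed point has a power with the property `Dprop`. -/
def DD (N H : Type) [MetricSpace N] [Group H] [MulAction H N] : Prop :=
  ∀ (g : H) (x : N), g • x = x → ∃ M : ℕ, 1 ≤ M ∧ Dprop N (g ^ M)

/-- A group acting by isometries on the Euclidean space `F` and on `N`, the diagonal action being
free and properly discontinuous and the action on `N` faithful. -/
structure IsoSetup (F N H : Type) [NormedAddCommGroup F] [InnerProductSpace ℝ F] [MetricSpace N]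
    [Group H] [MulAction H F] [MulAction H N] : Prop where
  isoE : ∀ h : H, Isometry fun a : F => h • a
  isoN : ∀ h : H, Isometry fun x : N => h • x
  free : ∀ (h : H) (a : F) (x : N), h • a = a → h • x = x → h = 1
  pd : ∀ K : Set (F × N), IsCompact K → {h : H | ∃ p ∈ K, (h • p.1, h • p.2) ∈ K}.Finite
  faithful : ∀ h : H, (∀ x : N, h • x = x) → h = 1

/-- A group acting by similarities of ratio `r` on the Euclidean space `F` and on `N`, the diagonal
action being free and properly discontinuous. -/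
structure Setup (F N G : Type) [NormedAddCommGroup F] [InnerProductSpace ℝ F] [MetricSpace N]
    [Group G] [MulAction G F] [MulAction G N] (r : G → ℝ) : Prop where
  pos : ∀ γ, 0 < r γ
  sim : ∀ γ (a b : F), dist (γ • a) (γ • b) = r γ * dist a b
  cont : ∀ γ : G, Continuous fun x : N => γ • x
  iso : ∀ γ : G, r γ = 1 → Isometry fun x : N => γ • x
  free : ∀ (γ : G) (a : F) (x : N), γ • a = a → γ • x = x → γ = 1
  pd : ∀ K : Set (F × N), IsCompact K → {γ : G | ∃ p ∈ K, (γ • p.1, γ • p.2) ∈ K}.Finite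

/-- `S` moves every point inside a compact set. -/
def RC (N : Type) {H : Type} [MetricSpace N] [Group H] [MulAction H N] (S : Set H) : Prop :=
  ∀ z : N, ∃ K : Set N, IsCompact K ∧ ∀ h ∈ S, h • z ∈ K

end Pool.Agent.Helper92.FA
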