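import Pool.Agent.Helper92.FA.Def

namespace Pool.Agent.Helper92.FA

theorem grp_commute {G : Type} [Group G] {u : ℕ → G} (comm : ∀ i j : ℕ, Commute (u i) (u j))
    {x y : G} (hx : x ∈ Subgroup.closure (Set.range u)) (hy : y ∈ Subgroup.closure (Set.range u)) :
    Commute x y := by
  have h1 : ∀ i, ∀ y ∈ Subgroup.closure (Set.range u), Commute (u i) y := by
    intro i y hy
    induction hy using Subgroup.closure_induction with
    | mem z hz =>
      obtain ⟨j, rfl⟩ := hz
      exact comm i j
    | one => exact Commute.one_right _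
    | mul z w _ _ hz hw => exact hz.mul_right hw
    | inv z _ hz => exact hz.inv_right
  induction hx using Subgroup.closure_induction with
  | mem z hz =>
    obtain ⟨j, rfl⟩ := hz
    exact h1 j y hy
  | one => exact Commute.one_left _
  | mul z w _ _ hz hw => exact hz.mul_left hw
  | inv z _ hz => exact hz.inv_left

/-- GRP. Purely algebraic: if `u n = d ^ n * a * d⁻¹ ^ n` commute pairwise and some `u s` has a
positive power in the group generated by the previous ones, then every `u n` has a positive power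
in that group. -/
theorem root_closure {G : Type} [Group G] (d a : G)
    (comm : ∀ i j : ℕ, Commute (d ^ i * a * (d ^ i)⁻¹) (d ^ j * a * (d ^ j)⁻¹)) (s n : ℕ)
    (hn : 1 ≤ n) (h : (d ^ s * a * (d ^ s)⁻¹) ^ n ∈
      Subgroup.closure ((fun i : ℕ => d ^ i * a * (d ^ i)⁻¹) '' {i | i < s})) :
    ∀ i : ℕ, ∃ k : ℕ, 1 ≤ k ∧ (d ^ i * a * (d ^ i)⁻¹) ^ k ∈
      Subgroup.closure ((fun i : ℕ => d ^ i * a * (d ^ i)⁻¹) '' {i | i < s}) := by
  set u : ℕ → G := fun i => d ^ i * a * (d ^ i)⁻¹ with hu
  have hcomm : ∀ i j, Commute (u i) (u j) := comm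
  set S : Subgroup G := Subgroup.closure (u '' {i | i < s}) with hS
  have hSA : S ≤ Subgroup.closure (Set.range u) :=
    Subgroup.closure_mono (Set.image_subset_range _ _)
  have hA : ∀ i, u i ∈ Subgroup.closure (Set.range u) := fun i =>
    Subgroup.subset_closure ⟨i, rfl⟩
  have hphi : ∀ i, d * u i * d⁻¹ = u (i + 1) := by
    intro i
    simp only [hu]
    rw [pow_succ' d i]
    group
  have hphiA : ∀ x ∈ Subgroup.closure (Set.range u),
      d * x * d⁻¹ ∈ Subgroup.closure (Set.range u) := by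
    intro x hx
    induction hx using Subgroup.closure_induction with
    | mem z hz =>
      obtain ⟨j, rfl⟩ := hz
      rw [hphi]
      exact hA _
    | one => simp
    | mul z w _ _ hz hw =>
      have : d * (z * w) * d⁻¹ = (d * z * d⁻¹) * (d * w * d⁻¹) := by group
      rw [this]
      exact mul_mem hz hw
    | inv z _ hz =>
      have : d * z⁻¹ * d⁻¹ = (d * z * d⁻¹)⁻¹ := by group
      rw [this]
      exact inv_mem hz
  -- the isolator
  let T : Subgroup G :=
    { carrier := {x | x ∈ Subgroup.closure (Set.range u) ∧ ∃ k : ℕ, 1 ≤ k ∧ x ^ k ∈ S}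
      mul_mem' := by
        rintro x y ⟨hx, k, hk, hxk⟩ ⟨hy, l, hl, hyl⟩
        refine ⟨mul_mem hx hy, k * l, Nat.mul_pos hk hl, ?_⟩
        rw [(grp_commute hcomm hx hy).mul_pow]
        refine mul_mem ?_ ?_
        · rw [pow_mul]
          exact pow_mem hxk _
        · rw [mul_comm k l, pow_mul]
          exact pow_mem hyl _
      one_mem' := ⟨one_mem _, 1, le_refl _, by simp⟩
      inv_mem' := by
        rintro x ⟨hx, k, hk, hxk⟩
        refine ⟨inv_mem hx, k, hk, ?_⟩
        rw [inv_pow]
        exact inv_mem hxk }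
  have hT : ∀ x, x ∈ T ↔ x ∈ Subgroup.closure (Set.range u) ∧ ∃ k : ℕ, 1 ≤ k ∧ x ^ k ∈ S :=
    fun x => Iff.rfl
  have hus : ∀ i ≤ s, u i ∈ T := by
    intro i hi
    rw [hT]
    rcases Nat.lt_or_ge i s with h1 | h1
    · exact ⟨hA i, 1, le_refl _, by
        rw [pow_one]
        exact Subgroup.subset_closure ⟨i, h1, rfl⟩⟩
    · have : i = s := le_antisymm hi h1
      rw [this]
      exact ⟨hA s, n, hn, h⟩
  have hS1 : ∀ x ∈ S, d * x * d⁻¹ ∈ T := by
    intro x hx
    induction hx using Subgroup.closure_induction with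
    | mem z hz =>
      obtain ⟨j, hj, rfl⟩ := hz
      rw [hphi]
      exact hus (j + 1) hj
    | one => simp
    | mul z w _ _ hz hw =>
      have : d * (z * w) * d⁻¹ = (d * z * d⁻¹) * (d * w * d⁻¹) := by group
      rw [this]
      exact mul_mem hz hw
    | inv z _ hz =>
      have : d * z⁻¹ * d⁻¹ = (d * z * d⁻¹)⁻¹ := by group
      rw [this]
      exact inv_mem hz
  have hT1 : ∀ x ∈ T, d * x * d⁻¹ ∈ T := by
    intro x hx
    rw [hT] at hx ⊢
    obtain ⟨hx1, k, hk, hxk⟩ := hx
    have h2 := hS1 _ hxk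
    rw [← conj_pow, hT] at h2
    obtain ⟨_, l, hl, h3⟩ := h2
    refine ⟨hphiA x hx1, k * l, Nat.mul_pos hk hl, ?_⟩
    rw [pow_mul]
    exact h3
  intro i
  have hmain : ∀ i, u i ∈ T := by
    intro i
    induction i with
    | zero => exact hus 0 (Nat.zero_le _)
    | succ i ih =>
      rw [← hphi]
      exact hT1 _ ih
  exact ((hT _).1 (hmain i)).2

end Pool.Agent.Helper92.FA
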