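import Pool.Agent.Helper92.FA.RC

open Metric Set Filter Topology

namespace Pool.Agent.Helper92.FA

variable {F : Type} [NormedAddCommGroup F] [InnerProductSpace ℝ F] [FiniteDimensional ℝ F]
  {N H : Type} [MetricSpace N] [Group H] [MulAction H F] [MulAction H N]

omit [NormedAddCommGroup F] [InnerProductSpace ℝ F] [FiniteDimensional ℝ F] [MetricSpace N]
  [MulAction H F] [MulAction H N] in
/-- the products `u 0 ^ f 0 * ... * u (s-1) ^ f (s-1)` -/
def rank_h (u : ℕ → H) (f : ℕ → ℕ) : ℕ → H
  | 0 => 1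
  | s + 1 => rank_h u f s * u s ^ f s

theorem rank_mem (u : ℕ → H) (f : ℕ → ℕ) (s : ℕ) :
    rank_h u f s ∈ Subgroup.closure (u '' {i | i < s}) := by
  induction s with
  | zero => exact Subgroup.one_mem _
  | succ s ih =>
    have hmono : Subgroup.closure (u '' {i | i < s}) ≤ Subgroup.closure (u '' {i | i < s + 1}) := by
      refine Subgroup.closure_mono (image_mono fun i hi => ?_)
      exact Nat.lt_succ_of_lt hi
    have hus : u s ∈ Subgroup.closure (u '' {i | i < s + 1}) :=
      Subgroup.subset_closure ⟨s, Nat.lt_succ_self s, rfl⟩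
    exact Subgroup.mul_mem _ (hmono ih) (Subgroup.pow_mem _ hus _)

theorem rank_inj (u : ℕ → H)
    (hneg : ∀ s n : ℕ, 1 ≤ n → u s ^ n ∉ Subgroup.closure (u '' {i | i < s}))
    (f g : ℕ → ℕ) (s : ℕ) (h : rank_h u f s = rank_h u g s) : ∀ i, i < s → f i = g i := by
  have key : ∀ (s : ℕ) (A B : H) (a b : ℕ), A ∈ Subgroup.closure (u '' {i | i < s}) →
      B ∈ Subgroup.closure (u '' {i | i < s}) → A * u s ^ a = B * u s ^ b → a < b → False := by
    intro s A B a b hA hB hAB hab
    refine hneg s (b - a) (by omega) ?_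
    have h1 : u s ^ (b - a) * u s ^ a = u s ^ b := by rw [← pow_add]; congr 1; omega
    have h2 : u s ^ (b - a) = B⁻¹ * A := by
      have h3 : B⁻¹ * (A * u s ^ a) = u s ^ b := by rw [hAB]; group
      rw [← h1, ← mul_assoc] at h3
      exact (mul_right_cancel h3).symm
    rw [h2]
    exact Subgroup.mul_mem _ (Subgroup.inv_mem _ hB) hA
  induction s with
  | zero => intro i hi; omega
  | succ s ih =>
    have h' : rank_h u f s * u s ^ f s = rank_h u g s * u s ^ g s := h
    have heq : f s = g s := by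
      rcases lt_trichotomy (f s) (g s) with hlt | heq | hgt
      · exact (key s _ _ _ _ (rank_mem u f s) (rank_mem u g s) h' hlt).elim
      · exact heq
      · exact (key s _ _ _ _ (rank_mem u g s) (rank_mem u f s) h'.symm hgt).elim
    rw [heq] at h'
    have h2 := mul_right_cancel h'
    intro i hi
    rcases Nat.lt_succ_iff_lt_or_eq.1 hi with hi | hi
    · exact ih h2 i hi
    · rw [hi, heq]

omit [InnerProductSpace ℝ F] [FiniteDimensional ℝ F] [MetricSpace N] [MulAction H N] in
theorem rank_pow_dist (iso : ∀ h : H, Isometry fun a : F => h • a) (g : H) (a : ℕ) :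
    dist (g ^ a • (0 : F)) 0 ≤ a * dist (g • (0 : F)) 0 := by
  induction a with
  | zero => simp
  | succ a ih =>
    have h1 : dist (g ^ (a + 1) • (0 : F)) (g • 0) = dist (g ^ a • (0 : F)) 0 := by
      rw [pow_succ', mul_smul]
      exact (iso g).dist_eq _ _
    have h2 := dist_triangle (g ^ (a + 1) • (0 : F)) (g • 0) 0
    push_cast
    linarith

omit [InnerProductSpace ℝ F] [FiniteDimensional ℝ F] [MetricSpace N] [MulAction H N] in
theorem rank_dist (iso : ∀ h : H, Isometry fun a : F => h • a) (u : ℕ → H) (f : ℕ → ℕ) (n : ℕ)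
    (s : ℕ) (hf : ∀ i, i < s → f i ≤ n) :
    dist (rank_h u f s • (0 : F)) 0 ≤ n * ∑ i ∈ Finset.range s, dist (u i • (0 : F)) 0 := by
  induction s with
  | zero => simp [rank_h]
  | succ s ih =>
    have ih' := ih fun i hi => hf i (by omega)
    have h1 : dist (rank_h u f (s + 1) • (0 : F)) (rank_h u f s • 0) =
        dist (u s ^ f s • (0 : F)) 0 := by
      show dist ((rank_h u f s * u s ^ f s) • (0 : F)) (rank_h u f s • 0) = _
      rw [mul_smul]
      exact (iso _).dist_eq _ _
    have h2 := rank_pow_dist iso (u s) (f s)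
    have h3 : (f s : ℝ) * dist (u s • (0 : F)) 0 ≤ n * dist (u s • (0 : F)) 0 := by
      have : (f s : ℝ) ≤ n := by exact_mod_cast hf s (Nat.lt_succ_self s)
      exact mul_le_mul_of_nonneg_right this dist_nonneg
    have h4 := dist_triangle (rank_h u f (s + 1) • (0 : F)) (rank_h u f s • 0) 0
    rw [Finset.sum_range_succ, mul_add]
    linarith

theorem rank_count (q B C : ℕ) :
    ∃ n : ℕ, 1 ≤ n ∧ (2 * (n * C) + 1) ^ q * B < n ^ (q + 1) := by
  refine ⟨(2 * C + 1) ^ q * B + 1, by omega, ?_⟩
  set n := (2 * C + 1) ^ q * B + 1 with hn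
  have hn1 : 1 ≤ n := by omega
  have h1 : 2 * (n * C) + 1 ≤ n * (2 * C + 1) := by
    have : n * (2 * C + 1) = 2 * (n * C) + n := by ring
    omega
  calc (2 * (n * C) + 1) ^ q * B ≤ (n * (2 * C + 1)) ^ q * B :=
        Nat.mul_le_mul_right _ (Nat.pow_le_pow_left h1 q)
    _ = n ^ q * ((2 * C + 1) ^ q * B) := by rw [mul_pow]; ring
    _ < n ^ q * n := by
        refine Nat.mul_lt_mul_of_pos_left (by omega) (pow_pos (by omega) q)
    _ = n ^ (q + 1) := (pow_succ n q).symm

/-- RANK. In a sequence of commuting elements, each with a fixed point in `N`, some element has a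
positive power in the group generated by the previous ones. -/
theorem rank [ConnectedSpace N] [LocallyCompactSpace N] (hS : IsoSetup F N H) (u : ℕ → H)
    (comm : ∀ i j, Commute (u i) (u j)) (fix : ∀ i, ∃ x : N, u i • x = x) :
    ∃ s n : ℕ, 1 ≤ n ∧ u s ^ n ∈ Subgroup.closure (u '' {i | i < s}) := by
  classical
  by_contra hcon
  push Not at hcon
  obtain ⟨x₀⟩ : Nonempty N := inferInstance
  set q := Module.finrank ℝ F with hq
  let b := stdOrthonormalBasis ℝ F
  -- relatively compact orbits
  have hz : ∀ i, RC N (Subgroup.zpowers (u i) : Set H) := by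
    intro i
    obtain ⟨x, hx⟩ := fix i
    refine rc_of_point hS.isoN _ x {x} isCompact_singleton ?_
    intro h hh
    obtain ⟨k, rfl⟩ := Subgroup.mem_zpowers_iff.1 hh
    have h1 : u i ∈ MulAction.stabilizer H x := hx
    exact Subgroup.zpow_mem _ h1 k
  obtain ⟨K, hK, hKS⟩ := rc_closure hS.isoN u comm hz (q + 1) x₀
  have hfin := hS.pd (closedBall (0 : F) q ×ˢ (K ∪ {x₀}))
    ((isCompact_closedBall _ _).prod (hK.union isCompact_singleton))
  set T : Finset H := hfin.toFinset with hT
  obtain ⟨C, hC⟩ := exists_nat_ge (∑ i ∈ Finset.range (q + 1), dist (u i • (0 : F)) 0)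
  obtain ⟨n, hn1, hn⟩ := rank_count q T.card C
  -- the elements
  let ex : (Fin (q + 1) → Fin n) → ℕ → ℕ := fun e i => if h : i < q + 1 then (e ⟨i, h⟩ : ℕ) else 0
  let el : (Fin (q + 1) → Fin n) → H := fun e => rank_h u (ex e) (q + 1)
  have hex : ∀ e i, ex e i ≤ n := by
    intro e i
    show (if h : i < q + 1 then (e ⟨i, h⟩ : ℕ) else 0) ≤ n
    split_ifs with h
    · exact (e ⟨i, h⟩).2.le
    · omega
  have hinj : Function.Injective el := by
    intro e e' h
    have h1 := rank_inj u hcon _ _ _ h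
    funext j
    have h2 := h1 j j.2
    have h3 : ex e j = (e j : ℕ) := dif_pos j.2
    have h4 : ex e' j = (e' j : ℕ) := dif_pos j.2
    rw [h3, h4] at h2
    exact Fin.ext h2
  have hbd : ∀ e, ‖el e • (0 : F)‖ ≤ (n * C : ℕ) := by
    intro e
    have h1 := rank_dist (F := F) hS.isoE u (ex e) n (q + 1) fun i _ => hex e i
    rw [dist_zero_right] at h1
    refine h1.trans ?_
    push_cast
    exact mul_le_mul_of_nonneg_left hC (by positivity)
  -- the cells
  let cell : (Fin (q + 1) → Fin n) → (Fin q → ℤ) := fun e j => ⌊b.repr (el e • (0 : F)) j⌋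
  have hcoord : ∀ (v : F) (j : Fin q), |b.repr v j| ≤ ‖v‖ := by
    intro v j
    rw [b.repr_apply_apply]
    have h1 := abs_real_inner_le_norm (b j) v
    rwa [b.norm_eq_one, one_mul] at h1
  set S := (Finset.univ : Finset (Fin (q + 1) → Fin n)) with hSdef
  set t := Fintype.piFinset (fun _ : Fin q => Finset.Icc (-((n * C : ℕ) : ℤ)) ((n * C : ℕ) : ℤ))
    with ht
  have hmaps : ∀ e ∈ S, cell e ∈ t := by
    intro e _
    rw [ht, Fintype.mem_piFinset]
    intro j
    have h1 := (hcoord (el e • (0 : F)) j).trans (hbd e)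
    have h2 := abs_le.1 h1
    rw [Finset.mem_Icc]
    constructor
    · rw [Int.le_floor]
      push_cast at h2 ⊢
      exact h2.1
    · have h3 : (⌊b.repr (el e • (0 : F)) j⌋ : ℝ) ≤ ((n * C : ℕ) : ℝ) :=
        (Int.floor_le _).trans h2.2
      exact_mod_cast h3
  have hcardt : t.card = (2 * (n * C) + 1) ^ q := by
    rw [ht, Fintype.card_piFinset, Finset.prod_const, Finset.card_univ, Fintype.card_fin,
      Int.card_Icc]
    congr 1
    omega
  have hcardS : S.card = n ^ (q + 1) := by
    rw [hSdef, Finset.card_univ, Fintype.card_fun, Fintype.card_fin, Fintype.card_fin]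
  obtain ⟨y, hy, hfib⟩ := Finset.exists_lt_card_fiber_of_mul_lt_card_of_maps_to
    (s := S) (t := t) (f := cell) (n := T.card) hmaps (by rw [hcardt, hcardS]; exact hn)
  obtain ⟨e₀, he₀⟩ : (S.filter fun e => cell e = y).Nonempty :=
    Finset.card_pos.1 (lt_of_le_of_lt (Nat.zero_le _) hfib)
  have hcell₀ : cell e₀ = y := (Finset.mem_filter.1 he₀).2
  have hle : (S.filter fun e => cell e = y).card ≤ T.card := by
    refine Finset.card_le_card_of_injOn (fun e => (el e₀)⁻¹ * el e) ?_ ?_
    · intro e he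
      have hcell : cell e = y := (Finset.mem_filter.1 he).2
      show (el e₀)⁻¹ * el e ∈ (T : Set H)
      rw [hT, Set.Finite.coe_toFinset]
      refine ⟨((0 : F), x₀), ⟨?_, Or.inr rfl⟩, ?_, Or.inl ?_⟩
      · rw [mem_closedBall, dist_self]
        positivity
      · show ((el e₀)⁻¹ * el e) • (0 : F) ∈ closedBall (0 : F) q
        rw [mem_closedBall]
        have h1 : dist (((el e₀)⁻¹ * el e) • (0 : F)) 0 = dist (el e • (0 : F)) (el e₀ • 0) := by
          have := (hS.isoE (el e₀)).dist_eq (((el e₀)⁻¹ * el e) • (0 : F)) 0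
          rw [← this]
          simp only [mul_smul, smul_inv_smul]
        rw [h1, dist_eq_norm]
        set v := el e • (0 : F) - el e₀ • (0 : F) with hv
        have h2 : ∀ j, |b.repr v j| ≤ 1 := by
          intro j
          have h3 : ⌊b.repr (el e • (0 : F)) j⌋ = ⌊b.repr (el e₀ • (0 : F)) j⌋ := by
            have := congrFun (hcell.trans hcell₀.symm) j
            exact this
          have h4 := Int.abs_sub_lt_one_of_floor_eq_floor h3
          have h5 : b.repr v j = b.repr (el e • (0 : F)) j - b.repr (el e₀ • (0 : F)) j := by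
            rw [hv, map_sub]
            rfl
          rw [h5]
          exact h4.le
        have h6 : ‖v‖ ≤ ∑ j : Fin q, ‖b.repr v j • b j‖ := by
          conv_lhs => rw [← b.sum_repr v]
          exact norm_sum_le _ _
        refine h6.trans ?_
        have h7 : ∑ j : Fin q, ‖b.repr v j • b j‖ ≤ ∑ _j : Fin q, (1 : ℝ) := by
          refine Finset.sum_le_sum fun j _ => ?_
          rw [norm_smul, b.norm_eq_one, mul_one, Real.norm_eq_abs]
          exact h2 j
        refine h7.trans ?_
        simp
      · show ((el e₀)⁻¹ * el e) • x₀ ∈ K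
        refine hKS _ ?_
        exact Subgroup.mul_mem _ (Subgroup.inv_mem _ (rank_mem u _ _)) (rank_mem u _ _)
    · intro e _ e' _ h
      exact hinj (mul_left_cancel h)
  omega

end Pool.Agent.Helper92.FA
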