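import Pool.Agent.Helper92.FA.Comm2
import Pool.Agent.Helper92.FA.Rank
import Pool.Agent.Helper92.FA.Grp
import Pool.Agent.Helper92.FA.Basic

open Metric Set Filter Topology

namespace Pool.Agent.Helper92.FA

variable {F : Type} [NormedAddCommGroup F] [InnerProductSpace ℝ F] [FiniteDimensional ℝ F]
  {N G : Type} [MetricSpace N] [Group G] [MulAction G F] [MulAction G N] {r : G → ℝ}

/-- Pointwise continuity, uniform over a finite set of points. -/
theorem final_unif {X Y : Type} [MetricSpace X] [MetricSpace Y] (g : X → Y) (hg : Continuous g)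
    {ι : Type} (S : Finset ι) (p : ι → X) (ε : ℝ) (hε : 0 < ε) :
    ∃ δ > 0, ∀ i ∈ S, ∀ y, dist y (p i) < δ → dist (g y) (g (p i)) < ε := by
  classical
  induction S using Finset.induction_on with
  | empty => exact ⟨1, one_pos, by simp⟩
  | insert a s ha ih =>
    obtain ⟨δ, hδ, h⟩ := ih
    obtain ⟨δ', hδ', h'⟩ := Metric.continuous_iff.1 hg (p a) ε hε
    refine ⟨min δ δ', lt_min hδ hδ', fun i hi y hy => ?_⟩
    rcases Finset.mem_insert.1 hi with rfl | hi
    · exact h' y (lt_of_lt_of_le hy (min_le_right _ _))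
    · exact h i hi y (lt_of_lt_of_le hy (min_le_left _ _))

/-- FINAL. The abstract form of the theorem, for a metric space `N`. -/
theorem final [ConnectedSpace N] [LocallyCompactSpace N] (hS : Setup F N G r)
    (hd : ∃ d, r d ≠ 1)
    (loc : ∀ H : Subgroup G, (∀ h ∈ H, r h = 1) → NSS N H ∧ Contr N H ∧ DD N H)
    (γ : G) (x : N) (hx : γ • x = x) : γ = 1 := by
  classical
  rcases subsingleton_or_nontrivial F with hF | hF
  · exact hS.free γ 0 x (Subsingleton.elim _ _) hx
  obtain ⟨r1, rmul, rinv⟩ := hS.ratio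
  have hγ1 : r γ = 1 := by
    by_contra h
    obtain ⟨o, ho⟩ := hS.exists_fixed γ h
    have := hS.free γ o x ho hx
    rw [this] at h
    exact h r1
  have : Nonempty N := ⟨x⟩
  -- the subgroup of isometries
  let H : Subgroup G :=
    { carrier := {g | r g = 1}
      mul_mem' := by
        intro a b ha hb
        simp only [mem_ofPred_eq] at *
        rw [rmul, ha, hb, one_mul]
      one_mem' := r1
      inv_mem' := by
        intro a ha
        simp only [mem_ofPred_eq] at *
        rw [rinv, ha, inv_one] }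
  have hHr : ∀ h : H, r (h : G) = 1 := fun h => h.2
  have hI : IsoSetup F N H :=
    { isoE := by
        intro h
        refine Isometry.of_dist_eq fun a b => ?_
        have := hS.sim (h : G) a b
        rw [hHr h, one_mul] at this
        exact this
      isoN := fun h => hS.iso (h : G) (hHr h)
      free := fun h a y ha hy => Subtype.ext (hS.free (h : G) a y ha hy)
      pd := by
        intro K hK
        have h1 : Function.Injective (fun h : H => (h : G)) := Subtype.val_injective
        exact Set.Finite.preimage (f := fun h : H => (h : G)) h1.injOn (hS.pd K hK)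
      faithful := fun h hh => Subtype.ext (hS.faithful hd (h : G) hh) }
  obtain ⟨nss, contr, dd⟩ := loc H (fun h hh => hh)
  let g : H := ⟨γ, hγ1⟩
  obtain ⟨M, hM, hDp⟩ := dd g x hx
  -- contraction
  obtain ⟨d, hd1⟩ : ∃ d, r d < 1 := by
    obtain ⟨d, hd⟩ := hd
    rcases lt_or_gt_of_ne hd with h | h
    · exact ⟨d, h⟩
    · refine ⟨d⁻¹, ?_⟩
      rw [rinv]
      exact inv_lt_one_of_one_lt₀ h
  obtain ⟨o, ho⟩ := hS.exists_fixed d hd1.ne
  have rpow : ∀ n : ℕ, r (d ^ n) = r d ^ n := by
    intro n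
    induction n with
    | zero => simpa using r1
    | succ n ih => rw [pow_succ, rmul, ih, pow_succ]
  have hpos := hS.pos d
  set a : G := γ ^ M with ha
  have hax : a • x = x := by
    have : γ ∈ MulAction.stabilizer G x := hx
    exact (MulAction.stabilizer G x).pow_mem this M
  have har : r a = 1 := (g ^ M).2
  let u : ℕ → G := fun i => d ^ i * a * (d ^ i)⁻¹
  have hur : ∀ i, r (u i) = 1 := by
    intro i
    show r (d ^ i * a * (d ^ i)⁻¹) = 1
    rw [rmul, rmul, har, rinv, mul_one, mul_inv_cancel₀]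
    exact (hS.pos _).ne'
  let v : ℕ → H := fun i => ⟨u i, hur i⟩
  have hfix : ∀ i, v i • (d ^ i • x) = d ^ i • x := by
    intro i
    show (d ^ i * a * (d ^ i)⁻¹) • (d ^ i • x) = d ^ i • x
    rw [mul_smul, mul_smul, inv_smul_smul, hax]
  have hvz : ∀ (i : ℕ) (m : ℤ) (z : N), v i ^ m • z = d ^ i • (a ^ m • ((d ^ i)⁻¹ • z)) := by
    intro i m z
    show ((v i ^ m : H) : G) • z = _
    have : ((v i ^ m : H) : G) = d ^ i * a ^ m * (d ^ i)⁻¹ := by
      rw [Subgroup.coe_zpow]
      show (d ^ i * a * (d ^ i)⁻¹) ^ m = _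
      rw [conj_zpow]
    rw [this, mul_smul, mul_smul]
  have hDv : ∀ i, Dprop N (v i) := by
    intro i k hk S ε hε
    obtain ⟨δ, hδ, hδ'⟩ := final_unif (fun y : N => d ^ i • y) (hS.cont (d ^ i)) S
      (fun z => a • ((d ^ i)⁻¹ • z)) ε hε
    obtain ⟨l, hl⟩ := hDp k hk (S.image fun z => (d ^ i)⁻¹ • z) δ hδ
    refine ⟨l, fun z hz => ?_⟩
    have h1 := hl ((d ^ i)⁻¹ • z) (Finset.mem_image_of_mem _ hz)
    have h2 := hδ' z hz (a ^ ((k : ℤ) * l) • ((d ^ i)⁻¹ • z)) h1
    have h3 : v i • z = d ^ i • (a • ((d ^ i)⁻¹ • z)) := by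
      have := hvz i 1 z
      rwa [zpow_one, zpow_one] at this
    rw [hvz, h3]
    exact h2
  have hcomm : ∀ i j, Commute (v i) (v j) := fun i j =>
    comm_of_fixed hI nss contr (v i) (v j) (d ^ i • x) (d ^ j • x) (hfix i) (hfix j) (hDv i) (hDv j)
  obtain ⟨s, n, hn, hmem⟩ := rank hI v hcomm (fun i => ⟨_, hfix i⟩)
  have hmap : (Subgroup.closure (v '' {i | i < s})).map H.subtype =
      Subgroup.closure (u '' {i | i < s}) := by
    rw [MonoidHom.map_closure, ← image_comp]
    rfl
  have hmemG : (d ^ s * a * (d ^ s)⁻¹) ^ n ∈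
      Subgroup.closure ((fun i : ℕ => d ^ i * a * (d ^ i)⁻¹) '' {i | i < s}) := by
    have : ((v s ^ n : H) : G) ∈ (Subgroup.closure (v '' {i | i < s})).map H.subtype :=
      ⟨_, hmem, rfl⟩
    rw [hmap] at this
    exact this
  have hcommG : ∀ i j : ℕ, Commute (d ^ i * a * (d ^ i)⁻¹) (d ^ j * a * (d ^ j)⁻¹) := by
    intro i j
    have := congrArg (Subtype.val) (hcomm i j)
    exact this
  have hroot := root_closure d a hcommG s n hn hmemG
  have hrootH : ∀ i : ℕ, ∃ k : ℕ, 1 ≤ k ∧ v i ^ k ∈ Subgroup.closure (v '' {i | i < s}) := by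
    intro i
    obtain ⟨k, hk, h⟩ := hroot i
    refine ⟨k, hk, ?_⟩
    have h' : ((v i ^ k : H) : G) ∈ (Subgroup.closure (v '' {i | i < s})).map H.subtype := by
      rw [hmap]; exact h
    obtain ⟨y, hy, hy'⟩ := h'
    have : y = v i ^ k := Subtype.ext hy'
    rwa [← this]
  -- the group has relatively compact orbits
  have hRC : RC N (Subgroup.closure (v '' {i | i < s}) : Set H) := by
    refine rc_closure hI.isoN v hcomm (fun i => ?_) s
    refine rc_of_point hI.isoN _ (d ^ i • x) {d ^ i • x} isCompact_singleton ?_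
    intro t ht
    have hst : v i ∈ MulAction.stabilizer H (d ^ i • x) := hfix i
    have : Subgroup.zpowers (v i) ≤ MulAction.stabilizer H (d ^ i • x) := by
      rw [Subgroup.zpowers_le]; exact hst
    exact this ht
  obtain ⟨K, hK, hKx⟩ := hRC x
  have hvK : ∀ i, v i • x ∈ K := by
    intro i
    obtain ⟨k, hk, h⟩ := hrootH i
    rw [← hK.isClosed.closure_eq, Metric.mem_closure_iff]
    intro ε hε
    obtain ⟨l, hl⟩ := hDv i k hk {x} ε hε
    refine ⟨v i ^ ((k : ℤ) * l) • x, hKx _ ?_, ?_⟩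
    · rw [zpow_mul, zpow_natCast]
      exact Subgroup.zpow_mem _ h l
    · rw [dist_comm]; exact hl x (Finset.mem_singleton_self x)
  have hdo : ∀ i : ℕ, d ^ i • o = o := by
    intro i
    have : d ∈ MulAction.stabilizer G o := ho
    exact (MulAction.stabilizer G o).pow_mem this i
  have hdist : ∀ i, dist (u i • o) o = r d ^ i * dist (a • o) o := by
    intro i
    have h1 : (d ^ i)⁻¹ • o = o := by
      rw [inv_smul_eq_iff]; exact (hdo i).symm
    have h2 : u i • o = d ^ i • (a • o) := by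
      show (d ^ i * a * (d ^ i)⁻¹) • o = _
      rw [mul_smul, mul_smul, h1]
    have h3 := hS.sim (d ^ i) (a • o) o
    rw [hdo i, rpow] at h3
    rw [h2, h3]
  have hfin := hS.pd (closedBall o (dist (a • o) o) ×ˢ (K ∪ {x}))
    ((isCompact_closedBall _ _).prod (hK.union isCompact_singleton))
  have hmemF : ∀ i, u i ∈ {γ : G | ∃ p ∈ closedBall o (dist (a • o) o) ×ˢ (K ∪ {x}),
      (γ • p.1, γ • p.2) ∈ closedBall o (dist (a • o) o) ×ˢ (K ∪ {x})} := by
    intro i
    refine ⟨(o, x), ⟨?_, Or.inr rfl⟩, ?_, Or.inl (hvK i)⟩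
    · simp
    · show dist (u i • o) o ≤ _
      rw [hdist]
      have : r d ^ i ≤ 1 := pow_le_one₀ hpos.le hd1.le
      exact mul_le_of_le_one_left dist_nonneg this
  obtain ⟨i, j, hij, huij⟩ := hfin.exists_lt_map_eq_of_forall_mem hmemF
  have hD0 : dist (a • o) o = 0 := by
    have h1 := hdist i
    rw [huij, hdist j] at h1
    have h2 : r d ^ j < r d ^ i := pow_lt_pow_right_of_lt_one₀ hpos hd1 hij
    by_contra h0
    have h3 : 0 < dist (a • o) o := lt_of_le_of_ne dist_nonneg (Ne.symm h0)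
    have h4 : r d ^ j * dist (a • o) o < r d ^ i * dist (a • o) o :=
      mul_lt_mul_of_pos_right h2 h3
    exact absurd h1 h4.ne
  have hao : a • o = o := dist_eq_zero.1 hD0
  have ha1 : a = 1 := hS.free a o x hao hax
  exact hS.torsionfree γ hγ1 x hx M hM ha1

end Pool.Agent.Helper92.FA
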