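import Pool.Agent.Helper92.FA.Def

open Metric Set Filter Topology

namespace Pool.Agent.Helper92.FA

/-- the integer combinations of `θ` and the lattice -/
def lm1_S {ι : Type} [Fintype ι] (θ : EuclideanSpace ℝ ι) : AddSubgroup (EuclideanSpace ℝ ι) where
  carrier := {x | ∃ (t : ℤ) (p : ι → ℤ), ∀ i, x i = t * θ i + p i}
  add_mem' := by
    rintro x y ⟨t, p, h⟩ ⟨t', p', h'⟩
    refine ⟨t + t', fun i => p i + p' i, fun i => ?_⟩
    rw [PiLp.add_apply, h i, h' i]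
    push_cast
    ring
  zero_mem' := ⟨0, fun _ => 0, fun i => by simp⟩
  neg_mem' := by
    rintro x ⟨t, p, h⟩
    refine ⟨-t, fun i => -p i, fun i => ?_⟩
    rw [PiLp.neg_apply, h i]
    push_cast
    ring

/-- the largest subspace in a closed subgroup -/
def lm1_k {E : Type} [NormedAddCommGroup E] [InnerProductSpace ℝ E] (K : AddSubgroup E) :
    Submodule ℝ E where
  carrier := {x | ∀ t : ℝ, t • x ∈ K}
  add_mem' := by
    intro x y hx hy t
    rw [smul_add]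
    exact K.add_mem (hx t) (hy t)
  zero_mem' := fun t => by rw [smul_zero]; exact K.zero_mem
  smul_mem' := by
    intro c x hx t
    rw [smul_smul]
    exact hx _

theorem lm1_near {E : Type} [NormedAddCommGroup E] [InnerProductSpace ℝ E]
    [FiniteDimensional ℝ E] (K : AddSubgroup E) (hK : IsClosed (K : Set E)) :
    ∃ δ > 0, ∀ v ∈ K, ‖v‖ < δ → v ∈ lm1_k K := by
  by_contra hcon
  push Not at hcon
  have hc : ∀ n : ℕ, ∃ v ∈ K, ‖v‖ < 1 / ((n : ℝ) + 1) ∧ v ∉ lm1_k K := by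
    intro n
    obtain ⟨v, h1, h2, h3⟩ := hcon (1 / ((n : ℝ) + 1)) (by positivity)
    exact ⟨v, h1, h2, h3⟩
  choose v hvK hv hvk using hc
  let b : ℕ → E := fun n => v n - (lm1_k K).starProjection (v n)
  have hPk : ∀ x, (lm1_k K).starProjection x ∈ lm1_k K := fun x =>
    Submodule.starProjection_apply_mem _ x
  have hkK : ∀ x ∈ lm1_k K, x ∈ K := by
    intro x hx
    have := hx 1
    rwa [one_smul] at this
  have hbK : ∀ n, b n ∈ K := fun n => K.sub_mem (hvK n) (hkK _ (hPk _))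
  have hbo : ∀ n, b n ∈ (lm1_k K)ᗮ := fun n => Submodule.sub_starProjection_mem_orthogonal _
  have hb0 : ∀ n, b n ≠ 0 := by
    intro n h
    apply hvk n
    have h1 : v n = (lm1_k K).starProjection (v n) := sub_eq_zero.1 h
    rw [h1]
    exact hPk _
  have hbn : ∀ n, ‖b n‖ ≤ 1 / ((n : ℝ) + 1) := by
    intro n
    have h1 : ‖b n‖ ≤ ‖v n‖ := by
      have h2 : inner ℝ (b n) ((lm1_k K).starProjection (v n)) = 0 := by
        rw [real_inner_comm]
        exact (Submodule.mem_orthogonal _ _).1 (hbo n) _ (hPk _)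
      have h3 : v n = b n + (lm1_k K).starProjection (v n) := by
        simp only [b, sub_add_cancel]
      have h4 := norm_add_sq_real (b n) ((lm1_k K).starProjection (v n))
      rw [← h3, h2] at h4
      have h5 : ‖b n‖ ^ 2 ≤ ‖v n‖ ^ 2 := by
        rw [h4]
        nlinarith [sq_nonneg ‖(lm1_k K).starProjection (v n)‖]
      exact le_of_sq_le_sq h5 (norm_nonneg _)
    exact h1.trans (hv n).le
  have hb_pos : ∀ n, 0 < ‖b n‖ := fun n => norm_pos_iff.2 (hb0 n)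
  have hlim : Tendsto (fun n => ‖b n‖) atTop (𝓝 0) :=
    squeeze_zero (fun n => norm_nonneg _) hbn tendsto_one_div_add_atTop_nhds_zero_nat
  let u : ℕ → E := fun n => ‖b n‖⁻¹ • b n
  have hu : ∀ n, u n ∈ sphere (0 : E) 1 := by
    intro n
    rw [mem_sphere_zero_iff_norm, norm_smul, norm_inv, norm_norm, inv_mul_cancel₀ (hb_pos n).ne']
  obtain ⟨X, hX, φ, hφ, hXl⟩ := (isCompact_sphere (0 : E) 1).tendsto_subseq hu
  have hXn : ‖X‖ = 1 := mem_sphere_zero_iff_norm.1 hX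
  have hXo : X ∈ (lm1_k K)ᗮ := by
    have hcl : IsClosed ((lm1_k K)ᗮ : Set E) := Submodule.isClosed_orthogonal _
    refine hcl.mem_of_tendsto hXl (Eventually.of_forall fun n => ?_)
    exact Submodule.smul_mem _ _ (hbo _)
  have hXk : X ∈ lm1_k K := by
    intro t
    have h1 : Tendsto (fun n => ⌊t / ‖b (φ n)‖⌋ • b (φ n)) atTop (𝓝 (t • X)) := by
      have h2 : ∀ n, ⌊t / ‖b (φ n)‖⌋ • b (φ n) =
          ((⌊t / ‖b (φ n)‖⌋ : ℝ) * ‖b (φ n)‖) • u (φ n) := by
        intro n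
        simp only [u]
        rw [smul_smul, mul_assoc, mul_inv_cancel₀ (hb_pos _).ne', mul_one, Int.cast_smul_eq_zsmul]
      have h3 : Tendsto (fun n => (⌊t / ‖b (φ n)‖⌋ : ℝ) * ‖b (φ n)‖) atTop (𝓝 t) := by
        have h4 : ∀ n, ‖(⌊t / ‖b (φ n)‖⌋ : ℝ) * ‖b (φ n)‖ - t‖ ≤ ‖b (φ n)‖ := by
          intro n
          have h5 := Int.floor_le (t / ‖b (φ n)‖)
          have h6 := Int.lt_floor_add_one (t / ‖b (φ n)‖)
          have h7 := hb_pos (φ n)
          rw [le_div_iff₀ h7] at h5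
          rw [div_lt_iff₀ h7] at h6
          rw [Real.norm_eq_abs, abs_le]
          constructor <;> nlinarith
        rw [tendsto_iff_norm_sub_tendsto_zero]
        exact squeeze_zero (fun n => norm_nonneg _) h4 (hlim.comp hφ.tendsto_atTop)
      have h8 := h3.smul hXl
      refine h8.congr (fun n => ?_)
      exact (h2 n).symm
    exact hK.mem_of_tendsto h1 (Eventually.of_forall fun n => K.zsmul_mem (hbK _) _)
  have h0 : inner ℝ X X = (0 : ℝ) := (Submodule.mem_orthogonal _ _).1 hXo X hXk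
  rw [real_inner_self_eq_norm_sq, hXn] at h0
  norm_num at h0

theorem lm1_dirichlet {ι : Type} [Fintype ι] (θ : EuclideanSpace ℝ ι) (δ : ℝ) (hδ : 0 < δ) :
    ∃ M : ℕ, 1 ≤ M ∧ ∃ p : ι → ℤ, ∃ X : EuclideanSpace ℝ ι, (∀ i, X i = M * θ i - p i) ∧
      ‖X‖ < δ := by
  let f : ℕ → EuclideanSpace ℝ ι := fun n => WithLp.toLp 2 (fun i => Int.fract ((n : ℝ) * θ i))
  have hf : ∀ n, f n ∈ closedBall (0 : EuclideanSpace ℝ ι) (Real.sqrt (Fintype.card ι)) := by
    intro n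
    rw [mem_closedBall_zero_iff, EuclideanSpace.norm_eq]
    apply Real.sqrt_le_sqrt
    calc ∑ i, ‖(f n) i‖ ^ 2 ≤ ∑ _i : ι, (1 : ℝ) := by
          apply Finset.sum_le_sum
          intro i _
          have h1 : (f n) i = Int.fract ((n : ℝ) * θ i) := rfl
          rw [h1, Real.norm_eq_abs, sq_abs]
          have h2 := Int.fract_nonneg ((n : ℝ) * θ i)
          have h3 := Int.fract_lt_one ((n : ℝ) * θ i)
          nlinarith
      _ = (Fintype.card ι : ℝ) := by simp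
  obtain ⟨Y, -, φ, hφ, hY⟩ := (isCompact_closedBall (0 : EuclideanSpace ℝ ι)
    (Real.sqrt (Fintype.card ι))).tendsto_subseq hf
  have hC := hY.cauchySeq
  rw [Metric.cauchySeq_iff] at hC
  obtain ⟨N, hN⟩ := hC δ hδ
  have h1 := hN (N + 1) (by omega) N le_rfl
  have h2 : φ N < φ (N + 1) := hφ (by omega)
  refine ⟨φ (N + 1) - φ N, by omega,
    fun i => ⌊(φ (N + 1) : ℝ) * θ i⌋ - ⌊(φ N : ℝ) * θ i⌋, f (φ (N + 1)) - f (φ N), fun i => ?_, ?_⟩
  · rw [PiLp.sub_apply]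
    change Int.fract ((φ (N + 1) : ℝ) * θ i) - Int.fract ((φ N : ℝ) * θ i) = _
    rw [Nat.cast_sub h2.le]
    push_cast
    rw [Int.fract, Int.fract]
    ring
  · rw [← dist_eq_norm]
    exact h1

/-- LM1. Simultaneous approximation: for `θ` in `ℝ^ι` there is `M ≥ 1` such that for every `k ≥ 1`
the point `M θ` is a limit, modulo `ℤ^ι`, of points `k M l θ`. -/
theorem approx_torus {ι : Type} [Fintype ι] (θ : ι → ℝ) : ∃ M : ℕ, 1 ≤ M ∧ ∀ k : ℕ, 1 ≤ k →
    ∀ ε > 0, ∃ l : ℤ, ∃ p : ι → ℤ, ∀ i, |(M : ℝ) * (k * l - 1) * θ i - p i| < ε := by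
  let Θ : EuclideanSpace ℝ ι := WithLp.toLp 2 θ
  have hΘ : ∀ i, Θ i = θ i := fun i => rfl
  let K : AddSubgroup (EuclideanSpace ℝ ι) := (lm1_S Θ).topologicalClosure
  have hK : IsClosed (K : Set (EuclideanSpace ℝ ι)) := AddSubgroup.isClosed_topologicalClosure _
  obtain ⟨δ, hδ, hnear⟩ := lm1_near K hK
  obtain ⟨M, hM, p0, X, hX, hXδ⟩ := lm1_dirichlet Θ δ hδ
  have hXK : X ∈ K := by
    apply AddSubgroup.le_topologicalClosure
    refine ⟨M, fun i => -p0 i, fun i => ?_⟩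
    rw [hX i]
    push_cast
    ring
  have hXk := hnear X hXK hXδ
  refine ⟨M, hM, fun k hk ε hε => ?_⟩
  have hk0 : (0 : ℝ) < k := by exact_mod_cast hk
  have hM0 : (0 : ℝ) < M := by exact_mod_cast hM
  have hkM : (0 : ℝ) < k * M := mul_pos hk0 hM0
  have h1 : ((k * M : ℝ)⁻¹) • X ∈ K := hXk _
  have h2 : ((k * M : ℝ)⁻¹) • X ∈ closure ((lm1_S Θ : Set (EuclideanSpace ℝ ι))) := by
    have h3 := h1
    rw [← SetLike.mem_coe] at h3
    rwa [AddSubgroup.topologicalClosure_coe] at h3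
  rw [Metric.mem_closure_iff] at h2
  obtain ⟨y, hy, hyd⟩ := h2 (ε / (k * M)) (div_pos hε hkM)
  obtain ⟨t, p, ht⟩ := hy
  refine ⟨t, fun i => -(k * M * p i + p0 i), fun i => ?_⟩
  have h4 : |(((k * M : ℝ)⁻¹) • X - y) i| ≤ ‖((k * M : ℝ)⁻¹) • X - y‖ := by
    rw [← Real.norm_eq_abs]
    exact PiLp.norm_apply_le _ i
  rw [← dist_eq_norm] at h4
  have h5 := lt_of_le_of_lt h4 hyd
  rw [PiLp.sub_apply, PiLp.smul_apply, hX i, ht i, smul_eq_mul, lt_div_iff₀ hkM] at h5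
  have h6 : (M : ℝ) * (k * t - 1) * θ i - ((-(k * M * p i + p0 i) : ℤ) : ℝ) =
      -(((k * M : ℝ)⁻¹ * (M * Θ i - p0 i) - (t * Θ i + p i)) * (k * M)) := by
    rw [hΘ i]
    push_cast
    field_simp
    ring
  rw [h6, abs_neg, abs_mul, abs_of_pos hkM]
  exact h5

end Pool.Agent.Helper92.FA
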