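import Pool.Agent.Helper92.FA.Def

open Metric Set Filter Topology

namespace Pool.Agent.Helper92.FA

theorem lm2_mulVec_zpow {m : ℕ} (B : (Matrix (Fin m) (Fin m) ℂ)ˣ) (v : Fin m → ℂ) (μ : ℂ)
    (hμ : μ ≠ 0) (h : (B : Matrix (Fin m) (Fin m) ℂ).mulVec v = μ • v) (n : ℤ) :
    ((B ^ n : (Matrix (Fin m) (Fin m) ℂ)ˣ) : Matrix (Fin m) (Fin m) ℂ).mulVec v = μ ^ n • v := by
  have hnat : ∀ k : ℕ, ((B ^ k : (Matrix (Fin m) (Fin m) ℂ)ˣ) :
      Matrix (Fin m) (Fin m) ℂ).mulVec v = μ ^ k • v := by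
    intro k
    induction k with
    | zero => simp
    | succ k ih =>
        rw [pow_succ, Units.val_mul, ← Matrix.mulVec_mulVec, h, Matrix.mulVec_smul, ih, smul_smul,
          pow_succ, mul_comm]
  obtain ⟨k, rfl | rfl⟩ := n.eq_nat_or_neg
  · rw [zpow_natCast, zpow_natCast]
    exact hnat k
  · have h1 : ((B ^ (-(k : ℤ)) : (Matrix (Fin m) (Fin m) ℂ)ˣ) : Matrix (Fin m) (Fin m) ℂ).mulVec
        (((B ^ k : (Matrix (Fin m) (Fin m) ℂ)ˣ) : Matrix (Fin m) (Fin m) ℂ).mulVec v) = v := by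
      rw [Matrix.mulVec_mulVec, ← Units.val_mul, zpow_neg, zpow_natCast, inv_mul_cancel,
        Units.val_one, Matrix.one_mulVec]
    rw [hnat k, Matrix.mulVec_smul] at h1
    have h2 : μ ^ k ≠ 0 := pow_ne_zero k hμ
    rw [zpow_neg, zpow_natCast] at h1
    rw [zpow_neg, zpow_natCast, zpow_neg, zpow_natCast]
    calc (((B ^ k)⁻¹ : (Matrix (Fin m) (Fin m) ℂ)ˣ) : Matrix (Fin m) (Fin m) ℂ).mulVec v
        = (μ ^ k)⁻¹ • (μ ^ k • (((B ^ k)⁻¹ : (Matrix (Fin m) (Fin m) ℂ)ˣ) :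
            Matrix (Fin m) (Fin m) ℂ).mulVec v) := by
          rw [smul_smul, inv_mul_cancel₀ h2, one_smul]
      _ = (μ ^ k)⁻¹ • v := by rw [h1]

theorem lm2_bound {m : ℕ} (M : Matrix (Fin m) (Fin m) ℂ) (C : ℝ) (h : ∀ i j, ‖M i j‖ ≤ C)
    (v : Fin m → ℂ) (i : Fin m) : ‖M.mulVec v i‖ ≤ C * ∑ j, ‖v j‖ := by
  have h1 : M.mulVec v i = ∑ j, M i j * v j := rfl
  rw [h1, Finset.mul_sum]
  refine (norm_sum_le _ _).trans (Finset.sum_le_sum fun j _ => ?_)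
  rw [norm_mul]
  exact mul_le_mul_of_nonneg_right (h i j) (norm_nonneg _)

theorem lm2_ne_zero {m : ℕ} (B : (Matrix (Fin m) (Fin m) ℂ)ˣ) (v : Fin m → ℂ) (μ : ℂ)
    (hv : v ≠ 0) (h : (B : Matrix (Fin m) (Fin m) ℂ).mulVec v = μ • v) : μ ≠ 0 := by
  intro h0
  apply hv
  rw [h0, zero_smul] at h
  have h1 : ((B⁻¹ : (Matrix (Fin m) (Fin m) ℂ)ˣ) : Matrix (Fin m) (Fin m) ℂ).mulVec
      ((B : Matrix (Fin m) (Fin m) ℂ).mulVec v) = v := by
    rw [Matrix.mulVec_mulVec, ← Units.val_mul, inv_mul_cancel, Units.val_one, Matrix.one_mulVec]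
  rw [← h1, h, Matrix.mulVec_zero]

theorem lm2_norm_le {m : ℕ} (B : (Matrix (Fin m) (Fin m) ℂ)ˣ) (C : ℝ)
    (hB : ∀ n : ℤ, ∀ i j,
      ‖((B ^ n : (Matrix (Fin m) (Fin m) ℂ)ˣ) : Matrix (Fin m) (Fin m) ℂ) i j‖ ≤ C)
    (v : Fin m → ℂ) (μ : ℂ) (hv : v ≠ 0)
    (h : (B : Matrix (Fin m) (Fin m) ℂ).mulVec v = μ • v) : ‖μ‖ = 1 := by
  have hμ := lm2_ne_zero B v μ hv h
  obtain ⟨i, hi⟩ : ∃ i, v i ≠ 0 := by
    by_contra hcon
    push Not at hcon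
    exact hv (funext hcon)
  have hvi : 0 < ‖v i‖ := norm_pos_iff.2 hi
  have hb : ∀ n : ℤ, ‖μ‖ ^ n ≤ (C * ∑ j, ‖v j‖) / ‖v i‖ := by
    intro n
    rw [le_div_iff₀ hvi]
    have h1 := lm2_bound _ C (hB n) v i
    rw [lm2_mulVec_zpow B v μ hμ h n, Pi.smul_apply, smul_eq_mul, norm_mul, norm_zpow] at h1
    exact h1
  apply le_antisymm
  · by_contra hlt
    push Not at hlt
    obtain ⟨k, hk⟩ := pow_unbounded_of_one_lt ((C * ∑ j, ‖v j‖) / ‖v i‖) hlt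
    have h2 := hb k
    rw [zpow_natCast] at h2
    exact absurd h2 (not_le.2 hk)
  · by_contra hlt
    push Not at hlt
    have h1 : 1 < ‖μ‖⁻¹ := by
      rw [one_lt_inv₀ (norm_pos_iff.2 hμ)]
      exact hlt
    obtain ⟨k, hk⟩ := pow_unbounded_of_one_lt ((C * ∑ j, ‖v j‖) / ‖v i‖) h1
    have h2 := hb (-(k : ℤ))
    rw [zpow_neg, zpow_natCast, ← inv_pow] at h2
    exact absurd h2 (not_le.2 hk)

theorem lm2_square {m : ℕ} (B : (Matrix (Fin m) (Fin m) ℂ)ˣ) (C : ℝ)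
    (hB : ∀ n : ℤ, ∀ i j,
      ‖((B ^ n : (Matrix (Fin m) (Fin m) ℂ)ˣ) : Matrix (Fin m) (Fin m) ℂ) i j‖ ≤ C)
    (v u : Fin m → ℂ) (μ : ℂ)
    (h : (B : Matrix (Fin m) (Fin m) ℂ).mulVec v = μ • v + u)
    (hu : (B : Matrix (Fin m) (Fin m) ℂ).mulVec u = μ • u) : u = 0 := by
  by_contra hu0
  have hμ := lm2_norm_le B C hB u μ hu0 hu
  obtain ⟨i, hi⟩ : ∃ i, u i ≠ 0 := by
    by_contra hcon
    push Not at hcon
    exact hu0 (funext hcon)
  have hui : 0 < ‖u i‖ := norm_pos_iff.2 hi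
  have hpow : ∀ k : ℕ, ((B ^ (k + 1) : (Matrix (Fin m) (Fin m) ℂ)ˣ) :
      Matrix (Fin m) (Fin m) ℂ).mulVec v = μ ^ (k + 1) • v + (((k : ℂ) + 1) * μ ^ k) • u := by
    intro k
    induction k with
    | zero => simp [h]
    | succ k ih =>
        rw [pow_succ' B (k + 1), Units.val_mul, ← Matrix.mulVec_mulVec, ih, Matrix.mulVec_add,
          Matrix.mulVec_smul, Matrix.mulVec_smul, h, hu, smul_add, smul_smul, smul_smul, add_assoc,
          ← add_smul]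
        congr 2
        push_cast
        ring
  have hb : ∀ k : ℕ, ((k : ℝ) + 1) * ‖u i‖ ≤ C * ∑ j, ‖v j‖ + ‖v i‖ := by
    intro k
    have h1 := lm2_bound _ C (hB ((k + 1 : ℕ) : ℤ)) v i
    rw [zpow_natCast, hpow k, Pi.add_apply, Pi.smul_apply, Pi.smul_apply, smul_eq_mul,
      smul_eq_mul] at h1
    have h2 : ‖((k : ℂ) + 1) * μ ^ k * u i‖ = ((k : ℝ) + 1) * ‖u i‖ := by
      rw [norm_mul, norm_mul, norm_pow, hμ, one_pow, mul_one]
      congr 1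
      have h3 : ((k : ℂ) + 1) = ((k + 1 : ℕ) : ℂ) := by push_cast; ring
      rw [h3, Complex.norm_natCast]
      push_cast
      ring
    have h4 : ‖μ ^ (k + 1) * v i‖ = ‖v i‖ := by
      rw [norm_mul, norm_pow, hμ, one_pow, one_mul]
    have h5 : ‖((k : ℂ) + 1) * μ ^ k * u i‖ ≤
        ‖μ ^ (k + 1) * v i + ((k : ℂ) + 1) * μ ^ k * u i‖ + ‖μ ^ (k + 1) * v i‖ := by
      have h6 := norm_sub_le (μ ^ (k + 1) * v i + ((k : ℂ) + 1) * μ ^ k * u i)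
        (μ ^ (k + 1) * v i)
      rwa [add_sub_cancel_left] at h6
    rw [h2, h4] at h5
    linarith
  obtain ⟨k, hk⟩ := exists_nat_gt ((C * ∑ j, ‖v j‖ + ‖v i‖) / ‖u i‖)
  have h1 := hb k
  rw [div_lt_iff₀ hui] at hk
  nlinarith

theorem lm2_gen {m : ℕ} (B : (Matrix (Fin m) (Fin m) ℂ)ˣ) (C : ℝ)
    (hB : ∀ n : ℤ, ∀ i j,
      ‖((B ^ n : (Matrix (Fin m) (Fin m) ℂ)ˣ) : Matrix (Fin m) (Fin m) ℂ) i j‖ ≤ C) (μ : ℂ)
    (k : ℕ) : ∀ v : Fin m → ℂ, ((Matrix.toLin' (B : Matrix (Fin m) (Fin m) ℂ) -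
      μ • (1 : Module.End ℂ (Fin m → ℂ))) ^ k) v = 0 →
      (B : Matrix (Fin m) (Fin m) ℂ).mulVec v = μ • v := by
  induction k with
  | zero =>
      intro v hv
      have hv0 : v = 0 := by simpa using hv
      rw [hv0, Matrix.mulVec_zero, smul_zero]
  | succ k ih =>
      intro v hv
      rw [pow_succ, Module.End.mul_apply] at hv
      have h1 := ih _ hv
      have h2 : (Matrix.toLin' (B : Matrix (Fin m) (Fin m) ℂ) -
          μ • (1 : Module.End ℂ (Fin m → ℂ))) v =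
          (B : Matrix (Fin m) (Fin m) ℂ).mulVec v - μ • v := by
        simp [Matrix.toLin'_apply]
      rw [h2] at h1
      have h3 := lm2_square B C hB v ((B : Matrix (Fin m) (Fin m) ℂ).mulVec v - μ • v) μ
        (by abel) h1
      exact sub_eq_zero.1 h3

theorem lm2_basis {m : ℕ} (B : (Matrix (Fin m) (Fin m) ℂ)ˣ) (C : ℝ)
    (hB : ∀ n : ℤ, ∀ i j,
      ‖((B ^ n : (Matrix (Fin m) (Fin m) ℂ)ˣ) : Matrix (Fin m) (Fin m) ℂ) i j‖ ≤ C) :
    ∃ (w : Module.Basis (Fin m) ℂ (Fin m → ℂ)) (μ : Fin m → ℂ), ∀ i,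
      (B : Matrix (Fin m) (Fin m) ℂ).mulVec (w i) = μ i • w i := by
  have htop : (⊤ : Submodule ℂ (Fin m → ℂ)) ≤ Submodule.span ℂ
      {v : Fin m → ℂ | ∃ μ : ℂ, (B : Matrix (Fin m) (Fin m) ℂ).mulVec v = μ • v} := by
    rw [← Module.End.iSup_maxGenEigenspace_eq_top
      (Matrix.toLin' (B : Matrix (Fin m) (Fin m) ℂ))]
    refine iSup_le fun μ => ?_
    intro v hv
    rw [Module.End.mem_maxGenEigenspace] at hv
    obtain ⟨k, hk⟩ := hv
    exact Submodule.subset_span ⟨μ, lm2_gen B C hB μ k v hk⟩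
  obtain ⟨b, hbS, hspan, hli⟩ := exists_linearIndependent ℂ
      {v : Fin m → ℂ | ∃ μ : ℂ, (B : Matrix (Fin m) (Fin m) ℂ).mulVec v = μ • v}
  have hspan' : (⊤ : Submodule ℂ (Fin m → ℂ)) ≤
      Submodule.span ℂ (Set.range ((↑) : b → (Fin m → ℂ))) := by
    rw [Subtype.range_coe, hspan]
    exact htop
  let w0 : Module.Basis b ℂ (Fin m → ℂ) := Module.Basis.mk hli hspan'
  have : Fintype b := FiniteDimensional.fintypeBasisIndex w0
  have hcard : Fintype.card b = Fintype.card (Fin m) := by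
    have h1 := Module.finrank_eq_card_basis w0
    rw [Module.finrank_fin_fun] at h1
    rw [Fintype.card_fin]
    exact h1.symm
  let e : b ≃ Fin m := Fintype.equivOfCardEq hcard
  have hex : ∀ i, ∃ μ : ℂ, (B : Matrix (Fin m) (Fin m) ℂ).mulVec ((w0.reindex e) i) =
      μ • (w0.reindex e) i := by
    intro i
    rw [Module.Basis.reindex_apply]
    have h1 : w0 (e.symm i) = ((e.symm i : b) : Fin m → ℂ) := Module.Basis.mk_apply hli hspan' _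
    rw [h1]
    exact hbS (e.symm i).2
  choose μ hμ using hex
  exact ⟨w0.reindex e, μ, hμ⟩

/-- LM2. An invertible complex matrix all of whose (positive and negative) powers are bounded is
diagonalisable with eigenvalues of modulus one. -/
theorem diag_of_bounded (m : ℕ) (B : (Matrix (Fin m) (Fin m) ℂ)ˣ) (C : ℝ)
    (hB : ∀ n : ℤ, ∀ i j,
      ‖((B ^ n : (Matrix (Fin m) (Fin m) ℂ)ˣ) : Matrix (Fin m) (Fin m) ℂ) i j‖ ≤ C) :
    ∃ (Q : (Matrix (Fin m) (Fin m) ℂ)ˣ) (θ : Fin m → ℝ), ∀ n : ℤ,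
      ((B ^ n : (Matrix (Fin m) (Fin m) ℂ)ˣ) : Matrix (Fin m) (Fin m) ℂ) =
        (Q : Matrix (Fin m) (Fin m) ℂ) *
          Matrix.diagonal (fun i => Complex.exp (2 * Real.pi * Complex.I * (n * θ i))) *
            ((Q⁻¹ : (Matrix (Fin m) (Fin m) ℂ)ˣ) : Matrix (Fin m) (Fin m) ℂ) := by
  obtain ⟨w, μ, hw⟩ := lm2_basis B C hB
  have hw0 : ∀ i, w i ≠ 0 := fun i => w.ne_zero i
  have hμ1 : ∀ i, ‖μ i‖ = 1 := fun i => lm2_norm_le B C hB (w i) (μ i) (hw0 i) (hw i)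
  let Q : (Matrix (Fin m) (Fin m) ℂ)ˣ :=
    ⟨(Pi.basisFun ℂ (Fin m)).toMatrix w, w.toMatrix (Pi.basisFun ℂ (Fin m)),
      Module.Basis.toMatrix_mul_toMatrix_flip _ _, Module.Basis.toMatrix_mul_toMatrix_flip _ _⟩
  refine ⟨Q, fun i => Complex.arg (μ i) / (2 * Real.pi), fun n => ?_⟩
  rw [Units.eq_mul_inv_iff_mul_eq]
  have hexp : ∀ i, Complex.exp (2 * Real.pi * Complex.I *
      (n * ((Complex.arg (μ i) / (2 * Real.pi) : ℝ) : ℂ))) = μ i ^ n := by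
    intro i
    have h1 : (2 * Real.pi * Complex.I *
        (n * ((Complex.arg (μ i) / (2 * Real.pi) : ℝ) : ℂ)) : ℂ) =
        n * ((Complex.arg (μ i) : ℂ) * Complex.I) := by
      have hpi : (Real.pi : ℂ) ≠ 0 := by exact_mod_cast Real.pi_ne_zero
      push_cast
      field_simp
    rw [h1, Complex.exp_int_mul]
    congr 1
    have h2 := Complex.norm_mul_exp_arg_mul_I (μ i)
    rw [hμ1 i] at h2
    simpa using h2
  have hQ : ∀ i j, (Q : Matrix (Fin m) (Fin m) ℂ) i j = w j i := by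
    intro i j
    show (Pi.basisFun ℂ (Fin m)).toMatrix w i j = w j i
    simp [Module.Basis.toMatrix_apply]
  ext i j
  rw [Matrix.mul_diagonal, Matrix.mul_apply, hQ i j, hexp j]
  have h3 := congrFun (lm2_mulVec_zpow B (w j) (μ j)
    (lm2_ne_zero B (w j) (μ j) (hw0 j) (hw j)) (hw j) n) i
  rw [Pi.smul_apply, smul_eq_mul] at h3
  have h4 : ∑ k, ((B ^ n : (Matrix (Fin m) (Fin m) ℂ)ˣ) : Matrix (Fin m) (Fin m) ℂ) i k *
      (Q : Matrix (Fin m) (Fin m) ℂ) k j =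
      ((B ^ n : (Matrix (Fin m) (Fin m) ℂ)ˣ) : Matrix (Fin m) (Fin m) ℂ).mulVec (w j) i := by
    show _ = ∑ k, ((B ^ n : (Matrix (Fin m) (Fin m) ℂ)ˣ) : Matrix (Fin m) (Fin m) ℂ) i k * w j k
    refine Finset.sum_congr rfl fun k _ => ?_
    rw [hQ k j]
  rw [h4, h3, mul_comm]

end Pool.Agent.Helper92.FA
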