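import Pool.Agent.Helper92.FA.LM1
import Pool.Agent.Helper92.FA.LM2

open Metric Set Filter Topology

set_option maxSynthPendingDepth 3

namespace Pool.Agent.Helper92.FA

variable {E : Type} [NormedAddCommGroup E] [NormedSpace ℝ E] [FiniteDimensional ℝ E]

/-- the matrix of a continuous linear map, with complex entries -/
noncomputable def lm3_T (E : Type) [NormedAddCommGroup E] [NormedSpace ℝ E]
    [FiniteDimensional ℝ E] :
    (E →L[ℝ] E) →* Matrix (Fin (Module.finrank ℝ E)) (Fin (Module.finrank ℝ E)) ℂ where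
  toFun f := (LinearMap.toMatrix (Module.finBasis ℝ E) (Module.finBasis ℝ E)
    (f : E →ₗ[ℝ] E)).map (algebraMap ℝ ℂ)
  map_one' := by
    have h1 : ((1 : E →L[ℝ] E) : E →ₗ[ℝ] E) = LinearMap.id := rfl
    rw [h1, LinearMap.toMatrix_id]
    ext i j
    by_cases hij : i = j
    · subst hij
      simp
    · simp [Matrix.one_apply_ne hij]
  map_mul' f g := by
    have h1 : ((f * g : E →L[ℝ] E) : E →ₗ[ℝ] E) = (f : E →ₗ[ℝ] E) ∘ₗ (g : E →ₗ[ℝ] E) := rfl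
    rw [h1, LinearMap.toMatrix_comp _ (Module.finBasis ℝ E), Matrix.map_mul]

theorem lm3_T_apply (f : E →L[ℝ] E) (i j : Fin (Module.finrank ℝ E)) :
    lm3_T E f i j = (((Module.finBasis ℝ E).repr (f (Module.finBasis ℝ E j)) i : ℝ) : ℂ) := by
  change algebraMap ℝ ℂ (LinearMap.toMatrix (Module.finBasis ℝ E) (Module.finBasis ℝ E)
    (f : E →ₗ[ℝ] E) i j) = _
  rw [LinearMap.toMatrix_apply]
  rfl

theorem lm3_upper : ∃ K : ℝ, ∀ (f : E →L[ℝ] E) (i j : Fin (Module.finrank ℝ E)),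
    ‖lm3_T E f i j‖ ≤ K * ‖f‖ := by
  let b := Module.finBasis ℝ E
  let c : Fin (Module.finrank ℝ E) → (E →L[ℝ] ℝ) := fun i =>
    LinearMap.toContinuousLinearMap (b.coord i)
  refine ⟨∑ i, ∑ j, ‖c i‖ * ‖b j‖, fun f i j => ?_⟩
  rw [lm3_T_apply]
  have h1 : (b.repr (f (b j)) i) = c i (f (b j)) := rfl
  rw [Complex.norm_real]
  have h2 : ‖c i (f (b j))‖ ≤ (‖c i‖ * ‖b j‖) * ‖f‖ := by
    refine ((c i).le_opNorm _).trans ?_
    have := mul_le_mul_of_nonneg_left (f.le_opNorm (b j)) (norm_nonneg (c i))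
    linarith [this, mul_comm ‖f‖ ‖b j‖, mul_assoc ‖c i‖ ‖b j‖ ‖f‖,
      congrArg (fun t => ‖c i‖ * t) (mul_comm ‖f‖ ‖b j‖)]
  have h3 : ‖c i‖ * ‖b j‖ ≤ ∑ i, ∑ j, ‖c i‖ * ‖b j‖ := by
    have h4 : ‖c i‖ * ‖b j‖ ≤ ∑ j, ‖c i‖ * ‖b j‖ :=
      Finset.single_le_sum (f := fun j => ‖c i‖ * ‖b j‖)
        (fun j _ => mul_nonneg (norm_nonneg _) (norm_nonneg _)) (Finset.mem_univ j)
    have h5 : ∑ j, ‖c i‖ * ‖b j‖ ≤ ∑ i, ∑ j, ‖c i‖ * ‖b j‖ :=
      Finset.single_le_sum (f := fun i => ∑ j, ‖c i‖ * ‖b j‖)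
        (fun i _ => Finset.sum_nonneg fun j _ => mul_nonneg (norm_nonneg _) (norm_nonneg _))
        (Finset.mem_univ i)
    exact h4.trans h5
  exact h2.trans (mul_le_mul_of_nonneg_right h3 (norm_nonneg _))

theorem lm3_lower : ∃ K : ℝ, 0 < K ∧ ∀ (f : E →L[ℝ] E) (δ : ℝ), 0 ≤ δ →
    (∀ i j : Fin (Module.finrank ℝ E), ‖lm3_T E f i j‖ ≤ δ) → ‖f‖ ≤ K * δ := by
  let b := Module.finBasis ℝ E
  let c : Fin (Module.finrank ℝ E) → (E →L[ℝ] ℝ) := fun i =>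
    LinearMap.toContinuousLinearMap (b.coord i)
  have hnn : 0 ≤ ∑ j, ∑ i, ‖c j‖ * ‖b i‖ := Finset.sum_nonneg fun j _ =>
    Finset.sum_nonneg fun i _ => mul_nonneg (norm_nonneg _) (norm_nonneg _)
  refine ⟨(∑ j, ∑ i, ‖c j‖ * ‖b i‖) + 1, by linarith, fun f δ hδ h => ?_⟩
  have hent : ∀ i j, |b.repr (f (b j)) i| ≤ δ := by
    intro i j
    have := h i j
    rw [lm3_T_apply, Complex.norm_real, Real.norm_eq_abs] at this
    exact this
  have hfb : ∀ j, ‖f (b j)‖ ≤ ∑ i, δ * ‖b i‖ := by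
    intro j
    have h1 : f (b j) = ∑ i, b.repr (f (b j)) i • b i := (b.sum_repr (f (b j))).symm
    rw [h1]
    refine (norm_sum_le _ _).trans (Finset.sum_le_sum fun i _ => ?_)
    rw [norm_smul, Real.norm_eq_abs]
    have h2 := hent i j
    exact mul_le_mul_of_nonneg_right h2 (norm_nonneg _)
  have hle : ‖f‖ ≤ (∑ j, ∑ i, ‖c j‖ * ‖b i‖) * δ := by
    refine ContinuousLinearMap.opNorm_le_bound _ (mul_nonneg hnn hδ) fun v => ?_
    have h1 : f v = ∑ j, c j v • f (b j) := by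
      conv_lhs => rw [← b.sum_repr v]
      rw [map_sum]
      exact Finset.sum_congr rfl fun j _ => map_smul f _ _
    rw [h1]
    have h2 : ∀ j, ‖c j v • f (b j)‖ ≤ ∑ i, ‖c j‖ * ‖b i‖ * δ * ‖v‖ := by
      intro j
      rw [norm_smul]
      have h3 : ‖c j v‖ * ‖f (b j)‖ ≤ (‖c j‖ * ‖v‖) * ∑ i, δ * ‖b i‖ :=
        mul_le_mul ((c j).le_opNorm v) (hfb j) (norm_nonneg _)
          (mul_nonneg (norm_nonneg _) (norm_nonneg _))
      refine h3.trans (le_of_eq ?_)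
      rw [Finset.mul_sum]
      exact Finset.sum_congr rfl fun i _ => by ring
    refine (norm_sum_le _ _).trans ((Finset.sum_le_sum fun j _ => h2 j).trans (le_of_eq ?_))
    simp only [Finset.sum_mul]
  nlinarith [hle, hδ]

theorem lm3_exp (t : ℝ) (n : ℤ) (p : ℤ) (θ : ℝ) (h : |(n : ℝ) * θ - p| ≤ t) :
    ‖Complex.exp (2 * Real.pi * Complex.I * (n * θ)) - 1‖ ≤ 2 * Real.pi * t := by
  have h1 : Complex.exp (2 * Real.pi * Complex.I * (n * θ)) =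
      Complex.exp (Complex.I * ((2 * Real.pi * ((n : ℝ) * θ - p) : ℝ) : ℂ)) := by
    rw [Complex.exp_eq_exp_iff_exists_int]
    refine ⟨p, ?_⟩
    push_cast
    ring
  rw [h1]
  refine Real.norm_exp_I_mul_ofReal_sub_one_le.trans ?_
  rw [Real.norm_eq_abs, abs_mul, abs_of_pos (by positivity : (0 : ℝ) < 2 * Real.pi)]
  exact mul_le_mul_of_nonneg_left h (by positivity)

/-- LM3. For an invertible real linear map with bounded powers there is `M ≥ 1` such that for every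
`k ≥ 1` the map `A ^ M` is a limit of the maps `A ^ (M k l)`. -/
theorem lm (A : (E →L[ℝ] E)ˣ) (C : ℝ)
    (hA : ∀ n : ℤ, ‖((A ^ n : (E →L[ℝ] E)ˣ) : E →L[ℝ] E)‖ ≤ C) :
    ∃ M : ℕ, 1 ≤ M ∧ ∀ k : ℕ, 1 ≤ k → ∀ ε > 0, ∃ l : ℤ,
      ‖((A ^ ((M : ℤ) * (k * l - 1)) : (E →L[ℝ] E)ˣ) : E →L[ℝ] E) -
        ContinuousLinearMap.id ℝ E‖ < ε := by
  obtain ⟨K, hK⟩ := lm3_upper (E := E)
  obtain ⟨L, hL0, hL⟩ := lm3_lower (E := E)
  let B : (Matrix (Fin (Module.finrank ℝ E)) (Fin (Module.finrank ℝ E)) ℂ)ˣ :=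
    Units.map (lm3_T E) A
  have hBn : ∀ n : ℤ, ((B ^ n : (Matrix (Fin (Module.finrank ℝ E))
      (Fin (Module.finrank ℝ E)) ℂ)ˣ) : Matrix (Fin (Module.finrank ℝ E))
      (Fin (Module.finrank ℝ E)) ℂ) = lm3_T E ((A ^ n : (E →L[ℝ] E)ˣ) : E →L[ℝ] E) := by
    intro n
    have h1 : B ^ n = Units.map (lm3_T E) (A ^ n) := (map_zpow (Units.map (lm3_T E)) A n).symm
    rw [h1]
    rfl
  obtain ⟨Q, θ, hQ⟩ := diag_of_bounded (Module.finrank ℝ E) B (|K| * C) (by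
    intro n i j
    rw [hBn n]
    refine (hK _ i j).trans ?_
    exact (mul_le_mul_of_nonneg_right (le_abs_self K) (norm_nonneg _)).trans
      (mul_le_mul_of_nonneg_left (hA n) (abs_nonneg K)))
  obtain ⟨M, hM, hap⟩ := approx_torus θ
  refine ⟨M, hM, fun k hk ε hε => ?_⟩
  let q : ℝ := (∑ i, ∑ s, ∑ j, ‖(Q : Matrix (Fin (Module.finrank ℝ E))
    (Fin (Module.finrank ℝ E)) ℂ) i s‖ *
    ‖((Q⁻¹ : (Matrix (Fin (Module.finrank ℝ E)) (Fin (Module.finrank ℝ E)) ℂ)ˣ) :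
      Matrix (Fin (Module.finrank ℝ E)) (Fin (Module.finrank ℝ E)) ℂ) s j‖) + 1
  have hq : 0 < q := by
    have : 0 ≤ ∑ i, ∑ s, ∑ j, ‖(Q : Matrix (Fin (Module.finrank ℝ E))
      (Fin (Module.finrank ℝ E)) ℂ) i s‖ *
      ‖((Q⁻¹ : (Matrix (Fin (Module.finrank ℝ E)) (Fin (Module.finrank ℝ E)) ℂ)ˣ) :
        Matrix (Fin (Module.finrank ℝ E)) (Fin (Module.finrank ℝ E)) ℂ) s j‖ :=
      Finset.sum_nonneg fun i _ => Finset.sum_nonneg fun s _ => Finset.sum_nonneg fun j _ =>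
        mul_nonneg (norm_nonneg _) (norm_nonneg _)
    simp only [q]
    linarith
  let t : ℝ := ε / (2 * L * q * (2 * Real.pi))
  have hpi := Real.pi_pos
  have ht : 0 < t := by positivity
  obtain ⟨l, p, hp⟩ := hap k hk t ht
  refine ⟨l, ?_⟩
  have hent : ∀ i j, ‖lm3_T E (((A ^ ((M : ℤ) * (k * l - 1)) : (E →L[ℝ] E)ˣ) : E →L[ℝ] E) -
      ContinuousLinearMap.id ℝ E) i j‖ ≤ q * (2 * Real.pi * t) := by
    intro i j
    have h1 : lm3_T E (((A ^ ((M : ℤ) * (k * l - 1)) : (E →L[ℝ] E)ˣ) : E →L[ℝ] E) -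
        ContinuousLinearMap.id ℝ E) i j =
        lm3_T E ((A ^ ((M : ℤ) * (k * l - 1)) : (E →L[ℝ] E)ˣ) : E →L[ℝ] E) i j -
        lm3_T E 1 i j := by
      rw [lm3_T_apply, lm3_T_apply, lm3_T_apply, sub_apply, map_sub,
        Finsupp.sub_apply]
      push_cast
      rfl
    have h2 : lm3_T E 1 = (Q : Matrix (Fin (Module.finrank ℝ E)) (Fin (Module.finrank ℝ E)) ℂ) *
        ((Q⁻¹ : (Matrix (Fin (Module.finrank ℝ E)) (Fin (Module.finrank ℝ E)) ℂ)ˣ) :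
          Matrix (Fin (Module.finrank ℝ E)) (Fin (Module.finrank ℝ E)) ℂ) := by
      rw [map_one, Units.mul_inv]
    rw [h1, ← hBn, hQ, h2, Matrix.mul_apply, Matrix.mul_apply, ← Finset.sum_sub_distrib]
    have h3 : ∀ s, ‖((Q : Matrix (Fin (Module.finrank ℝ E)) (Fin (Module.finrank ℝ E)) ℂ) *
        Matrix.diagonal (fun i => Complex.exp (2 * Real.pi * Complex.I *
          (((M : ℤ) * (k * l - 1) : ℤ) * θ i)))) i s *
        ((Q⁻¹ : (Matrix (Fin (Module.finrank ℝ E)) (Fin (Module.finrank ℝ E)) ℂ)ˣ) :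
          Matrix (Fin (Module.finrank ℝ E)) (Fin (Module.finrank ℝ E)) ℂ) s j -
        (Q : Matrix (Fin (Module.finrank ℝ E)) (Fin (Module.finrank ℝ E)) ℂ) i s *
        ((Q⁻¹ : (Matrix (Fin (Module.finrank ℝ E)) (Fin (Module.finrank ℝ E)) ℂ)ˣ) :
          Matrix (Fin (Module.finrank ℝ E)) (Fin (Module.finrank ℝ E)) ℂ) s j‖ ≤
        (‖(Q : Matrix (Fin (Module.finrank ℝ E)) (Fin (Module.finrank ℝ E)) ℂ) i s‖ *
        ‖((Q⁻¹ : (Matrix (Fin (Module.finrank ℝ E)) (Fin (Module.finrank ℝ E)) ℂ)ˣ) :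
          Matrix (Fin (Module.finrank ℝ E)) (Fin (Module.finrank ℝ E)) ℂ) s j‖) *
          (2 * Real.pi * t) := by
      intro s
      rw [Matrix.mul_diagonal]
      have h4 : ∀ a e b : ℂ, a * e * b - a * b = a * b * (e - 1) := fun a e b => by ring
      rw [h4, norm_mul, norm_mul]
      refine mul_le_mul_of_nonneg_left ?_ (mul_nonneg (norm_nonneg _) (norm_nonneg _))
      refine lm3_exp t _ (p s) (θ s) ?_
      have h5 := hp s
      push_cast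
      exact h5.le
    refine (norm_sum_le _ _).trans ((Finset.sum_le_sum fun s _ => h3 s).trans ?_)
    rw [← Finset.sum_mul]
    refine mul_le_mul_of_nonneg_right ?_ (by positivity)
    have h6 : ∑ s, ‖(Q : Matrix (Fin (Module.finrank ℝ E)) (Fin (Module.finrank ℝ E)) ℂ) i s‖ *
        ‖((Q⁻¹ : (Matrix (Fin (Module.finrank ℝ E)) (Fin (Module.finrank ℝ E)) ℂ)ˣ) :
          Matrix (Fin (Module.finrank ℝ E)) (Fin (Module.finrank ℝ E)) ℂ) s j‖ ≤
        ∑ s, ∑ j, ‖(Q : Matrix (Fin (Module.finrank ℝ E))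
          (Fin (Module.finrank ℝ E)) ℂ) i s‖ *
        ‖((Q⁻¹ : (Matrix (Fin (Module.finrank ℝ E)) (Fin (Module.finrank ℝ E)) ℂ)ˣ) :
          Matrix (Fin (Module.finrank ℝ E)) (Fin (Module.finrank ℝ E)) ℂ) s j‖ :=
      Finset.sum_le_sum fun s _ => Finset.single_le_sum
        (f := fun j => ‖(Q : Matrix (Fin (Module.finrank ℝ E))
          (Fin (Module.finrank ℝ E)) ℂ) i s‖ *
        ‖((Q⁻¹ : (Matrix (Fin (Module.finrank ℝ E)) (Fin (Module.finrank ℝ E)) ℂ)ˣ) :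
          Matrix (Fin (Module.finrank ℝ E)) (Fin (Module.finrank ℝ E)) ℂ) s j‖)
        (fun j _ => mul_nonneg (norm_nonneg _) (norm_nonneg _)) (Finset.mem_univ j)
    have h7 : ∑ s, ∑ j, ‖(Q : Matrix (Fin (Module.finrank ℝ E))
          (Fin (Module.finrank ℝ E)) ℂ) i s‖ *
        ‖((Q⁻¹ : (Matrix (Fin (Module.finrank ℝ E)) (Fin (Module.finrank ℝ E)) ℂ)ˣ) :
          Matrix (Fin (Module.finrank ℝ E)) (Fin (Module.finrank ℝ E)) ℂ) s j‖ ≤
        ∑ i, ∑ s, ∑ j, ‖(Q : Matrix (Fin (Module.finrank ℝ E))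
          (Fin (Module.finrank ℝ E)) ℂ) i s‖ *
        ‖((Q⁻¹ : (Matrix (Fin (Module.finrank ℝ E)) (Fin (Module.finrank ℝ E)) ℂ)ˣ) :
          Matrix (Fin (Module.finrank ℝ E)) (Fin (Module.finrank ℝ E)) ℂ) s j‖ :=
      Finset.single_le_sum
        (f := fun i => ∑ s, ∑ j, ‖(Q : Matrix (Fin (Module.finrank ℝ E))
          (Fin (Module.finrank ℝ E)) ℂ) i s‖ *
        ‖((Q⁻¹ : (Matrix (Fin (Module.finrank ℝ E)) (Fin (Module.finrank ℝ E)) ℂ)ˣ) :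
          Matrix (Fin (Module.finrank ℝ E)) (Fin (Module.finrank ℝ E)) ℂ) s j‖)
        (fun i _ => Finset.sum_nonneg fun s _ => Finset.sum_nonneg fun j _ =>
          mul_nonneg (norm_nonneg _) (norm_nonneg _)) (Finset.mem_univ i)
    simp only [q]
    linarith [h6.trans h7]
  have hfin := hL _ (q * (2 * Real.pi * t)) (by positivity) hent
  refine lt_of_le_of_lt hfin ?_
  have h8 : L * (q * (2 * Real.pi * t)) = ε / 2 := by
    simp only [t]
    field_simp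
  rw [h8]
  linarith

end Pool.Agent.Helper92.FA
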