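import Pool.Agent.Helper92.FA.An3

open Metric Set Filter Topology

set_option maxSynthPendingDepth 3

namespace Pool.Agent.Helper92.FA

variable {E : Type} [NormedAddCommGroup E] [NormedSpace ℝ E] [FiniteDimensional ℝ E]
  {N : Type} [MetricSpace N] {P : Set (N → N)} {x : N}

omit [FiniteDimensional ℝ E] in
/-- LOC. An isometry in `P` that moves `x` a little is a local isometry of the chart. -/
theorem Chart.exists_loc (c : Chart E P x) : ∃ ρ₂ : ℝ, 0 < ρ₂ ∧ ρ₂ ≤ c.ρ ∧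
    (∀ z ∈ ball (c.φ x) ρ₂, c.ψ z ∈ ball x (c.R / 2)) ∧
    ∀ f ∈ P, Isometry f → dist (f x) x < c.R / 2 →
      c.IsLoc ρ₂ (c.W f) ∧ ∀ z ∈ ball (c.φ x) ρ₂, f (c.ψ z) ∈ ball x c.R := by
  have hL := c.L_pos
  have hR := c.R_pos
  have hρ := c.ρ_pos
  refine ⟨min c.ρ (c.R / (2 * c.L)), lt_min hρ (by positivity), min_le_left _ _, ?_, ?_⟩
  · intro z hz
    have hz1 : z ∈ ball (c.φ x) c.ρ := ball_subset_ball (min_le_left _ _) hz
    have hx1 : c.φ x ∈ ball (c.φ x) c.ρ := mem_ball_self hρ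
    have hzn : ‖z - c.φ x‖ < c.R / (2 * c.L) := by
      rw [← dist_eq_norm]
      exact lt_of_lt_of_le (mem_ball.1 hz) (min_le_right _ _)
    have h1 := c.lipψ z hz1 (c.φ x) hx1
    rw [c.left x (mem_closedBall_self hR.le)] at h1
    have h2 : c.L * ‖z - c.φ x‖ < c.L * (c.R / (2 * c.L)) := by
      exact mul_lt_mul_of_pos_left hzn hL
    have h3 : c.L * (c.R / (2 * c.L)) = c.R / 2 := by
      field_simp
    rw [mem_ball]
    linarith
  · intro f hf hiso hfx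
    have hb : ∀ z ∈ ball (c.φ x) (min c.ρ (c.R / (2 * c.L))), f (c.ψ z) ∈ ball x c.R := by
      intro z hz
      have hz1 : z ∈ ball (c.φ x) c.ρ := ball_subset_ball (min_le_left _ _) hz
      have hx1 : c.φ x ∈ ball (c.φ x) c.ρ := mem_ball_self hρ
      have hzn : ‖z - c.φ x‖ < c.R / (2 * c.L) := by
        rw [← dist_eq_norm]
        exact lt_of_lt_of_le (mem_ball.1 hz) (min_le_right _ _)
      have h1 := c.lipψ z hz1 (c.φ x) hx1
      rw [c.left x (mem_closedBall_self hR.le)] at h1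
      have h2 : c.L * ‖z - c.φ x‖ < c.L * (c.R / (2 * c.L)) := by
        exact mul_lt_mul_of_pos_left hzn hL
      have h3 : c.L * (c.R / (2 * c.L)) = c.R / 2 := by
        field_simp
      have h4 : dist (f (c.ψ z)) (f x) = dist (c.ψ z) x := hiso.dist_eq _ _
      have h5 := dist_triangle (f (c.ψ z)) (f x) x
      rw [mem_ball]
      linarith
    refine ⟨⟨?_, ?_, ?_⟩, hb⟩
    · intro z hz
      exact c.smooth f hf z (ball_subset_ball (min_le_left _ _) hz) (hb z hz)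
    · intro z hz
      exact c.maps _ (ball_subset_closedBall (hb z hz))
    · intro z hz
      exact c.isom f hf z (ball_subset_ball (min_le_left _ _) hz) (hb z hz)

/-- SMALL. On a fixed chart ball, an isometry in `P` that moves the points of `closedBall x r` by at
most `s` is `C * s` close to the identity in the `C^1` sense. -/
theorem Chart.small (c : Chart E P x) : ∃ ρ₂ : ℝ, 0 < ρ₂ ∧ ρ₂ ≤ c.ρ ∧
    (∀ z ∈ ball (c.φ x) ρ₂, c.ψ z ∈ ball x (c.R / 2)) ∧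
    ∀ r : ℝ, 0 < r → ∃ C : ℝ, 1 ≤ C ∧ ∀ f ∈ P, Isometry f → dist (f x) x < c.R / 2 → ∀ s : ℝ,
      (∀ y ∈ closedBall x r, dist (f y) y ≤ s) → ∀ z ∈ ball (c.φ x) ρ₂,
        f (c.ψ z) ∈ ball x c.R ∧ DifferentiableAt ℝ (c.W f) z ∧ ‖c.W f z - z‖ ≤ C * s ∧
          ‖fderiv ℝ (c.W f) z - ContinuousLinearMap.id ℝ E‖ ≤ C * s := by
  have hL := c.L_pos
  have hR := c.R_pos
  have hρ := c.ρ_pos
  obtain ⟨ρ₂, hρ₂, hρ₂le, hψ, hloc⟩ := c.exists_loc
  obtain ⟨C1, hC1, hprop⟩ := c.propagate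
  refine ⟨ρ₂, hρ₂, hρ₂le, hψ, ?_⟩
  intro r hr
  have hδ : 0 < min ρ₂ (r / c.L) := lt_min hρ₂ (by positivity)
  obtain ⟨C3, hC3, hint⟩ := c.interp (min ρ₂ (r / c.L)) hδ
  refine ⟨max 1 (C1 * (c.L + C3 * c.L)), le_max_left _ _, ?_⟩
  intro f hf hiso hfx s hs z hz
  obtain ⟨hl, hb⟩ := hloc f hf hiso hfx
  have hs0 : 0 ≤ s := le_trans dist_nonneg (hs x (mem_closedBall_self hr.le))
  have hsub : ball (c.φ x) (min ρ₂ (r / c.L)) ⊆ ball (c.φ x) ρ₂ :=
    ball_subset_ball (min_le_left _ _)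
  -- the `C^0` bound near the centre
  have h0 : ∀ z ∈ ball (c.φ x) (min ρ₂ (r / c.L)), ‖c.W f z - z‖ ≤ c.L * s := by
    intro z hz
    have hz2 : z ∈ ball (c.φ x) ρ₂ := hsub hz
    have hz1 : z ∈ ball (c.φ x) c.ρ := ball_subset_ball hρ₂le hz2
    have hx1 : c.φ x ∈ ball (c.φ x) c.ρ := mem_ball_self hρ
    have hzn : ‖z - c.φ x‖ < r / c.L := by
      rw [← dist_eq_norm]
      exact lt_of_lt_of_le (mem_ball.1 hz) (min_le_right _ _)
    have h1 := c.lipψ z hz1 (c.φ x) hx1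
    rw [c.left x (mem_closedBall_self hR.le)] at h1
    have h2 : c.L * ‖z - c.φ x‖ < c.L * (r / c.L) := mul_lt_mul_of_pos_left hzn hL
    have h3 : c.L * (r / c.L) = r := by field_simp
    have hy : c.ψ z ∈ closedBall x r := by
      rw [mem_closedBall]; linarith
    have hyR : c.ψ z ∈ closedBall x c.R :=
      closedBall_subset_closedBall (by linarith) (ball_subset_closedBall (hψ z hz2))
    have hfyR : f (c.ψ z) ∈ closedBall x c.R := ball_subset_closedBall (hb z hz2)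
    have h4 := c.lipφ _ hfyR _ hyR
    rw [c.right z hz1] at h4
    calc ‖c.W f z - z‖ ≤ c.L * dist (f (c.ψ z)) (c.ψ z) := h4
      _ ≤ c.L * s := mul_le_mul_of_nonneg_left (hs _ hy) hL.le
  have h1 : ‖fderiv ℝ (c.W f) (c.φ x) - ContinuousLinearMap.id ℝ E‖ ≤ C3 * (c.L * s) :=
    hint ρ₂ hρ₂le (c.W f) hl (c.φ x) hsub (c.L * s) h0
  have h2 : ‖c.W f (c.φ x) - c.φ x‖ ≤ c.L * s := h0 _ (mem_ball_self hδ)
  have h3 := hprop ρ₂ hρ₂le (c.W f) hl (c.φ x) (mem_ball_self hρ₂) z hz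
  have h4 : C1 * (‖c.W f (c.φ x) - c.φ x‖ +
      ‖fderiv ℝ (c.W f) (c.φ x) - ContinuousLinearMap.id ℝ E‖) ≤
      C1 * (c.L * s + C3 * (c.L * s)) :=
    mul_le_mul_of_nonneg_left (add_le_add h2 h1) (by linarith)
  have h5 : C1 * (c.L * s + C3 * (c.L * s)) = C1 * (c.L + C3 * c.L) * s := by ring
  have h6 : C1 * (c.L + C3 * c.L) * s ≤ max 1 (C1 * (c.L + C3 * c.L)) * s :=
    mul_le_mul_of_nonneg_right (le_max_right _ _) hs0
  have h7 : ‖c.W f z - z‖ + ‖fderiv ℝ (c.W f) z - ContinuousLinearMap.id ℝ E‖ ≤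
      max 1 (C1 * (c.L + C3 * c.L)) * s := by
    linarith
  refine ⟨hb z hz, (hl.smooth z hz).differentiableAt (by norm_num), ?_, ?_⟩
  · have := norm_nonneg (fderiv ℝ (c.W f) z - ContinuousLinearMap.id ℝ E)
    linarith
  · have := norm_nonneg (c.W f z - z)
    linarith

end Pool.Agent.Helper92.FA
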