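import Pool.Agent.Helper92.FA.MDef

open Metric Set Filter Topology Bundle Manifold
open scoped ContDiff ENNReal NNReal

set_option maxSynthPendingDepth 3

namespace Pool.Agent.Helper92.FA

variable {E : Type} [NormedAddCommGroup E] [NormedSpace ℝ E]
  {N : Type} [MetricSpace N] [ChartedSpace E N] [IsManifold 𝓘(ℝ, E) ∞ N]
  [RiemannianBundle (fun x : N => TangentSpace 𝓘(ℝ, E) x)]
  [IsContMDiffRiemannianBundle 𝓘(ℝ, E) ∞ E (fun x : N => TangentSpace 𝓘(ℝ, E) x)]

attribute [local instance] normedAddCommGroupTangentSpaceVectorSpace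
attribute [local instance] normedSpaceTangentSpaceVectorSpace

private theorem mlip_cont :
    IsContinuousRiemannianBundle E (fun x : N => TangentSpace 𝓘(ℝ, E) x) := by
  obtain ⟨g, hg, h⟩ := IsContMDiffRiemannianBundle.exists_contMDiff (IB := 𝓘(ℝ, E)) (n := ∞)
    (F := E) (E := fun x : N => TangentSpace 𝓘(ℝ, E) x)
  exact ⟨g, hg.continuous, h⟩

set_option backward.isDefEq.respectTransparency false in
/-- M1a. The inverse chart is Lipschitz near the image of `x`. -/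
theorem exists_lip_symm [IsRiemannianManifold 𝓘(ℝ, E) N] (x : N) : ∃ ρ L : ℝ, 0 < ρ ∧ 0 < L ∧
    ball (extChartAt 𝓘(ℝ, E) x x) ρ ⊆ (extChartAt 𝓘(ℝ, E) x).target ∧
    (∀ z ∈ ball (extChartAt 𝓘(ℝ, E) x x) ρ, ∀ z' ∈ ball (extChartAt 𝓘(ℝ, E) x x) ρ,
      dist ((extChartAt 𝓘(ℝ, E) x).symm z) ((extChartAt 𝓘(ℝ, E) x).symm z') ≤ L * ‖z - z'‖) := by
  have : IsContinuousRiemannianBundle E (fun x : N => TangentSpace 𝓘(ℝ, E) x) := mlip_cont
  rcases eventually_enorm_mfderivWithin_symm_extChartAt_lt 𝓘(ℝ, E) x with ⟨C, C_pos, hC⟩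
  obtain ⟨r, r_pos, hr⟩ : ∃ r > 0,
      ball (extChartAt 𝓘(ℝ, E) x x) r ∩ range 𝓘(ℝ, E) ⊆ (extChartAt 𝓘(ℝ, E) x).target ∩
        {y | ‖mfderiv[range 𝓘(ℝ, E)] (extChartAt 𝓘(ℝ, E) x).symm y‖ₑ < C} :=
    mem_nhdsWithin_iff.1 (inter_mem (extChartAt_target_mem_nhdsWithin x) hC)
  have hr' : ball (extChartAt 𝓘(ℝ, E) x x) r ⊆ (extChartAt 𝓘(ℝ, E) x).target ∩
        {y | ‖mfderiv[range 𝓘(ℝ, E)] (extChartAt 𝓘(ℝ, E) x).symm y‖ₑ < C} := by
    intro z hz
    exact hr ⟨hz, by simp⟩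
  have key : LipschitzOnWith C (extChartAt 𝓘(ℝ, E) x).symm (ball (extChartAt 𝓘(ℝ, E) x x) r) := by
    intro z hz z' hz'
    let η := ContinuousAffineMap.lineMap (R := ℝ) z z'
    set γ := (extChartAt 𝓘(ℝ, E) x).symm ∘ η with hγ
    have hη : Icc 0 1 ⊆ ⇑η ⁻¹' ((extChartAt 𝓘(ℝ, E) x).target ∩
        {y | ‖mfderiv[range 𝓘(ℝ, E)] (extChartAt 𝓘(ℝ, E) x).symm y‖ₑ < C}) := by
      simp only [← image_subset_iff, ContinuousAffineMap.coe_lineMap_eq,
        ← segment_eq_image_lineMap, η]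
      exact ((convex_ball _ _).segment_subset hz hz').trans hr'
    simp only [preimage_inter, subset_inter_iff] at hη
    have η_smooth : CMDiff[Icc 0 1] 1 η := by
      apply ContMDiff.contMDiffOn
      rw [contMDiff_iff_contDiff]
      exact ContinuousAffineMap.contDiff _
    rw [IsRiemannianManifold.out (I := 𝓘(ℝ, E))]
    have : riemannianEDist 𝓘(ℝ, E) ((extChartAt 𝓘(ℝ, E) x).symm z)
        ((extChartAt 𝓘(ℝ, E) x).symm z') ≤ pathELength 𝓘(ℝ, E) γ 0 1 := by
      apply riemannianEDist_le_pathELength _ _ _ zero_le_one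
      · exact (contMDiffOn_extChartAt_symm x).comp η_smooth hη.1
      · simp [γ, η, ContinuousAffineMap.coe_lineMap_eq]
      · simp [γ, η, ContinuousAffineMap.coe_lineMap_eq]
    apply this.trans
    rw [← lintegral_fderiv_lineMap_eq_edist, pathELength_eq_lintegral_mfderivWithin_Icc,
      ← MeasureTheory.lintegral_const_mul' _ _ ENNReal.coe_ne_top]
    apply MeasureTheory.setLIntegral_mono' measurableSet_Icc (fun t ht ↦ ?_)
    have : mfderiv[Icc 0 1] γ t =
        (mfderiv[range 𝓘(ℝ, E)] (extChartAt 𝓘(ℝ, E) x).symm (η t)) ∘L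
          (mfderiv[Icc 0 1] η t) := by
      apply mfderivWithin_comp
      · exact mdifferentiableWithinAt_extChartAt_symm (hη.1 ht)
      · exact η_smooth.mdifferentiableOn one_ne_zero t ht
      · exact hη.1.trans (preimage_mono (extChartAt_target_subset_range x))
      · rw [uniqueMDiffWithinAt_iff_uniqueDiffWithinAt]
        exact uniqueDiffOn_Icc zero_lt_one t ht
    have : mfderiv[Icc 0 1] γ t 1 =
        (mfderiv[range 𝓘(ℝ, E)] (extChartAt 𝓘(ℝ, E) x).symm (η t))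
          (mfderiv[Icc 0 1] η t 1) := congr($this 1)
    rw [this]
    apply (ContinuousLinearMap.le_opENorm _ _).trans
    gcongr
    · exact (hη.2 ht).le
    · simp only [mfderivWithin_eq_fderivWithin]
      exact le_of_eq rfl
  refine ⟨r, C, r_pos, by exact_mod_cast C_pos, hr'.trans inter_subset_left, ?_⟩
  intro z hz z' hz'
  rw [← dist_eq_norm]
  exact key.dist_le_mul z hz z' hz'

set_option backward.isDefEq.respectTransparency false in
/-- M1b. The chart is Lipschitz near `x`. -/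
theorem exists_lip [IsRiemannianManifold 𝓘(ℝ, E) N] (x : N) : ∃ R L : ℝ, 0 < R ∧ 0 < L ∧
    closedBall x R ⊆ (extChartAt 𝓘(ℝ, E) x).source ∧
    (∀ y ∈ closedBall x R, ∀ y' ∈ closedBall x R,
      ‖extChartAt 𝓘(ℝ, E) x y - extChartAt 𝓘(ℝ, E) x y'‖ ≤ L * dist y y') := by
  have : IsContinuousRiemannianBundle E (fun x : N => TangentSpace 𝓘(ℝ, E) x) := mlip_cont
  rcases eventually_enorm_mfderiv_extChartAt_lt 𝓘(ℝ, E) x with ⟨C, C_pos, hC⟩
  obtain ⟨R', hR'pos, hR'⟩ : ∃ R' > 0, ball x R' ⊆ {y | ‖mfderiv% (extChartAt 𝓘(ℝ, E) x) y‖ₑ < C} ∩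
      (extChartAt 𝓘(ℝ, E) x).source :=
    Metric.mem_nhds_iff.1 (Filter.inter_mem hC (extChartAt_source_mem_nhds (I := 𝓘(ℝ, E)) x))
  set R := R' / 4 with hR
  have hRpos : 0 < R := by positivity
  have hsub : closedBall x R ⊆ ball x R' := closedBall_subset_ball (by rw [hR]; linarith)
  have claim : ∀ y ∈ closedBall x R, ∀ y' : N, ∀ r : ℝ≥0∞, edist y y' < r →
      r < ENNReal.ofReal (3 * R) →
      ‖extChartAt 𝓘(ℝ, E) x y' - extChartAt 𝓘(ℝ, E) x y‖ₑ ≤ C * r := by
    intro y hy y' r hr1 hr2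
    rw [IsRiemannianManifold.out (I := 𝓘(ℝ, E))] at hr1
    obtain ⟨γ, hγ0, hγ1, γ_smooth, hγ⟩ := exists_lt_of_riemannianEDist_lt hr1
    have hin : ∀ t ∈ Icc (0 : ℝ) 1, γ t ∈ ball x R' := by
      intro t ht
      have h1 : edist y (γ t) ≤ pathELength 𝓘(ℝ, E) γ 0 t := by
        rw [IsRiemannianManifold.out (I := 𝓘(ℝ, E))]
        exact riemannianEDist_le_pathELength (γ_smooth.mono (Icc_subset_Icc le_rfl ht.2)) hγ0 rfl
          ht.1
      have h2 : edist y (γ t) < ENNReal.ofReal (3 * R) :=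
        (h1.trans (pathELength_mono le_rfl ht.2)).trans_lt (hγ.trans hr2)
      rw [edist_dist, ENNReal.ofReal_lt_ofReal_iff (by positivity)] at h2
      rw [mem_closedBall] at hy
      rw [mem_ball]
      have := dist_triangle (γ t) y x
      rw [dist_comm (γ t) y] at this
      rw [hR] at h2 hy
      linarith
    let γ' := extChartAt 𝓘(ℝ, E) x ∘ γ
    have hsrc : ∀ t ∈ Icc (0 : ℝ) 1, γ t ∈ (chartAt E x).source := by
      intro t ht
      have := (hR' (hin t ht)).2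
      rwa [extChartAt_source] at this
    have hC' : CMDiff[Icc 0 1] 1 γ' :=
      contMDiffOn_extChartAt.comp (I' := 𝓘(ℝ, E)) (t := (chartAt E x).source)
        γ_smooth (fun t' ht' ↦ hsrc t' ht')
    have hfin : ‖γ' 1 - γ' 0‖ₑ ≤ C * pathELength 𝓘(ℝ, E) γ 0 1 := by
      calc
        ‖γ' 1 - γ' 0‖ₑ
      _ ≤ ∫⁻ t' in Icc 0 1, ‖derivWithin γ' (Icc 0 1) t'‖ₑ := by
        apply enorm_sub_le_lintegral_derivWithin_Icc_of_contDiffOn_Icc _ zero_le_one
        rwa [← contMDiffOn_iff_contDiffOn]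
      _ = ∫⁻ t' in Icc 0 1, ‖mfderiv[Icc 0 1] γ' t' 1‖ₑ := by
        simp_rw [← fderivWithin_derivWithin, mfderivWithin_eq_fderivWithin]
        rfl
      _ ≤ ∫⁻ t' in Icc 0 1, C * ‖mfderiv[Icc 0 1] γ t' 1‖ₑ := by
        apply MeasureTheory.setLIntegral_mono' measurableSet_Icc (fun t' ht' ↦ ?_)
        have : mfderiv[Icc 0 1] γ' t' =
            (mfderiv% (extChartAt 𝓘(ℝ, E) x) (γ t')) ∘L (mfderiv[Icc 0 1] γ t') := by
          apply mfderiv_comp_mfderivWithin
          · exact mdifferentiableAt_extChartAt (hsrc t' ht')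
          · exact γ_smooth.mdifferentiableOn one_ne_zero _ ht'
          · rw [uniqueMDiffWithinAt_iff_uniqueDiffWithinAt]
            exact uniqueDiffOn_Icc zero_lt_one _ ht'
        have : mfderiv[Icc 0 1] γ' t' 1 =
            (mfderiv% (extChartAt 𝓘(ℝ, E) x) (γ t')) (mfderiv[Icc 0 1] γ t' 1) :=
          congr($this 1)
        rw [this]
        apply (ContinuousLinearMap.le_opENorm _ _).trans
        gcongr
        exact (hR' (hin t' ht')).1.le
      _ = C * pathELength 𝓘(ℝ, E) γ 0 1 := by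
        rw [MeasureTheory.lintegral_const_mul' _ _ ENNReal.coe_ne_top,
            pathELength_eq_lintegral_mfderivWithin_Icc]
    have e1 : γ' 1 = extChartAt 𝓘(ℝ, E) x y' := by simp [γ', hγ1]
    have e0 : γ' 0 = extChartAt 𝓘(ℝ, E) x y := by simp [γ', hγ0]
    rw [e1, e0] at hfin
    exact hfin.trans (by gcongr)
  have key : LipschitzOnWith C (extChartAt 𝓘(ℝ, E) x) (closedBall x R) := by
    intro y hy y' hy'
    rw [edist_comm, edist_eq_enorm_sub]
    by_contra hcon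
    push Not at hcon
    have hC0 : (C : ℝ≥0∞) ≠ 0 := by exact_mod_cast C_pos.ne'
    have h1 : edist y y' < ‖extChartAt 𝓘(ℝ, E) x y' - extChartAt 𝓘(ℝ, E) x y‖ₑ / C := by
      rw [ENNReal.lt_div_iff_mul_lt (Or.inl hC0) (Or.inl ENNReal.coe_ne_top), mul_comm]
      exact hcon
    have h2 : edist y y' < ENNReal.ofReal (3 * R) := by
      rw [edist_dist, ENNReal.ofReal_lt_ofReal_iff (by positivity)]
      rw [mem_closedBall] at hy hy'
      have := dist_triangle_right y y' x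
      linarith
    obtain ⟨r, hr1, hr2⟩ := exists_between (lt_min h1 h2)
    have h3 := claim y hy y' r hr1 (hr2.trans_le (min_le_right _ _))
    have h4 := hr2.trans_le (min_le_left _ _)
    rw [ENNReal.lt_div_iff_mul_lt (Or.inl hC0) (Or.inl ENNReal.coe_ne_top), mul_comm] at h4
    exact absurd h3 (not_le.2 h4)
  refine ⟨R, C, hRpos, by exact_mod_cast C_pos, hsub.trans (hR'.trans inter_subset_right), ?_⟩
  intro y hy y' hy'
  rw [← dist_eq_norm]
  exact key.dist_le_mul y hy y' hy'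

end Pool.Agent.Helper92.FA
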