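import Pool.Agent.Helper92.FA.MCoef
import Pool.Agent.Helper92.FA.MLip

open Metric Set Filter Topology Bundle Manifold
open scoped ContDiff ENNReal NNReal

set_option maxSynthPendingDepth 3

namespace Pool.Agent.Helper92.FA

variable {E : Type} [NormedAddCommGroup E] [NormedSpace ℝ E] [FiniteDimensional ℝ E]
  {N : Type} [MetricSpace N] [ChartedSpace E N] [IsManifold 𝓘(ℝ, E) ∞ N]
  [RiemannianBundle (fun x : N => TangentSpace 𝓘(ℝ, E) x)]
  [IsContMDiffRiemannianBundle 𝓘(ℝ, E) ∞ E (fun x : N => TangentSpace 𝓘(ℝ, E) x)]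

/-- M3. Charts exist. -/
theorem exists_chart [IsRiemannianManifold 𝓘(ℝ, E) N] (x : N) : Nonempty (Chart E (RI E N) x) := by
  obtain ⟨G, hG, hsymm, hpos, hRI⟩ := exists_coef (E := E) (N := N) x
  obtain ⟨ρ1, L1, hρ1, hL1, hball, hlipψ⟩ := exists_lip_symm (E := E) (N := N) x
  obtain ⟨R1, L2, hR1, hL2, hsrc, hlipφ⟩ := exists_lip (E := E) (N := N) x
  set φ := extChartAt 𝓘(ℝ, E) x with hφ
  have hopen : IsOpen φ.target := isOpen_extChartAt_target (I := 𝓘(ℝ, E)) x
  have : ProperSpace E := FiniteDimensional.proper ℝ E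
  set ρ := ρ1 / 2 with hρdef
  have hρ : 0 < ρ := by positivity
  have hKt : closedBall (φ x) ρ ⊆ φ.target := by
    refine (closedBall_subset_ball ?_).trans hball
    rw [hρdef]; linarith
  have hK : IsCompact (closedBall (φ x) ρ) := isCompact_closedBall _ _
  have hbt : ball (φ x) ρ ⊆ φ.target := ball_subset_closedBall.trans hKt
  have hG' : ContDiffOn ℝ ∞ (fderiv ℝ G) φ.target := by
    exact hG.fderiv_of_isOpen hopen (by simp)
  have hG'' : ContDiffOn ℝ ∞ (fderiv ℝ (fderiv ℝ G)) φ.target := by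
    exact hG'.fderiv_of_isOpen hopen (by simp)
  obtain ⟨B1, hB1⟩ := hK.exists_bound_of_continuousOn (hG.continuousOn.mono hKt)
  obtain ⟨B2, hB2⟩ := hK.exists_bound_of_continuousOn (hG'.continuousOn.mono hKt)
  obtain ⟨B3, hB3⟩ := hK.exists_bound_of_continuousOn (f := fderiv ℝ (fderiv ℝ G))
    (hG''.continuousOn.mono hKt)
  have hcont : ContinuousOn (fun p : E × E => G p.1 p.2 p.2)
      (closedBall (φ x) ρ ×ˢ sphere (0 : E) 1) := by
    have h1 : ContinuousOn (fun p : E × E => G p.1) (closedBall (φ x) ρ ×ˢ sphere (0 : E) 1) :=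
      (hG.continuousOn.mono hKt).comp continuousOn_fst (fun p hp => hp.1)
    exact (h1.clm_apply continuousOn_snd).clm_apply continuousOn_snd
  obtain ⟨lam, hlam, hlam'⟩ := (hK.prod (isCompact_sphere (0 : E) 1)).exists_forall_le' hcont
    (a := 0) (by
      rintro ⟨z, v⟩ ⟨hz, hv⟩
      refine hpos z (hKt hz) v ?_
      rintro rfl
      simp at hv)
  have hLpos : 0 < max (max L1 L2) (max B1 (max B2 B3)) :=
    lt_of_lt_of_le hL1 (le_trans (le_max_left _ _) (le_max_left _ _))
  set L := max (max L1 L2) (max B1 (max B2 B3)) with hL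
  have hL1L : L1 ≤ L := le_trans (le_max_left _ _) (le_max_left _ _)
  have hL2L : L2 ≤ L := le_trans (le_max_right _ _) (le_max_left _ _)
  have hB1L : B1 ≤ L := le_trans (le_max_left _ _) (le_max_right _ _)
  have hB2L : B2 ≤ L := le_trans (le_trans (le_max_left _ _) (le_max_right _ _)) (le_max_right _ _)
  have hB3L : B3 ≤ L := le_trans (le_trans (le_max_right _ _) (le_max_right _ _)) (le_max_right _ _)
  set R := min R1 (ρ / (2 * L2)) with hRdef
  have hR : 0 < R := lt_min hR1 (by positivity)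
  have hRR1 : closedBall x R ⊆ closedBall x R1 := closedBall_subset_closedBall (min_le_left _ _)
  have hRs : closedBall x R ⊆ φ.source := hRR1.trans hsrc
  refine ⟨{
    φ := φ
    ψ := φ.symm
    ρ := ρ
    R := R
    L := L
    lam := lam
    G := G
    G' := fderiv ℝ G
    ρ_pos := hρ
    R_pos := hR
    L_pos := hLpos
    lam_pos := hlam
    left := fun y hy => φ.left_inv (hRs hy)
    maps := ?_
    right := fun z hz => φ.right_inv (hbt hz)
    lipφ := ?_
    lipψ := ?_
    symm := fun z hz v w => hsymm z (hbt hz) v w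
    coer := ?_
    bd := fun z hz => (hB1 z (ball_subset_closedBall hz)).trans hB1L
    der := ?_
    bd' := fun z hz => (hB2 z (ball_subset_closedBall hz)).trans hB2L
    lip' := ?_
    smooth := ?_
    isom := ?_ }⟩
  · intro y hy
    rw [mem_ball, dist_eq_norm]
    have h1 := hlipφ y (hRR1 hy) x (mem_closedBall_self hR1.le)
    refine lt_of_le_of_lt h1 ?_
    have h2 : dist y x ≤ ρ / (2 * L2) := (mem_closedBall.1 hy).trans (min_le_right _ _)
    calc L2 * dist y x ≤ L2 * (ρ / (2 * L2)) := by gcongr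
      _ = ρ / 2 := by field_simp
      _ < ρ := by linarith
  · intro y hy y' hy'
    refine (hlipφ y (hRR1 hy) y' (hRR1 hy')).trans ?_
    gcongr
  · intro z hz z' hz'
    have hs : ball (φ x) ρ ⊆ ball (φ x) ρ1 := ball_subset_ball (by rw [hρdef]; linarith)
    refine (hlipψ z (hs hz) z' (hs hz')).trans ?_
    gcongr
  · intro z hz v
    by_cases hv : v = 0
    · subst hv; simp
    have hn : 0 < ‖v‖ := norm_pos_iff.2 hv
    have h1 := hlam' (z, ‖v‖⁻¹ • v) ⟨ball_subset_closedBall hz, by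
      rw [mem_sphere_zero_iff_norm, norm_smul, norm_inv, norm_norm, inv_mul_cancel₀ hn.ne']⟩
    simp only [map_smul, ContinuousLinearMap.smul_apply, smul_eq_mul] at h1
    have h2 : ‖v‖⁻¹ * (‖v‖⁻¹ * G z v v) * ‖v‖ ^ 2 = G z v v := by
      field_simp
    calc lam * ‖v‖ ^ 2 ≤ ‖v‖⁻¹ * (‖v‖⁻¹ * G z v v) * ‖v‖ ^ 2 := by gcongr
      _ = G z v v := h2
  · intro z hz
    have h1 : ContDiffAt ℝ ∞ G z := hG.contDiffAt (hopen.mem_nhds (hbt hz))
    exact (h1.differentiableAt (by simp)).hasFDerivAt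
  · intro z hz z' hz'
    have hd : ∀ w ∈ ball (φ x) ρ, DifferentiableAt ℝ (fderiv ℝ G) w := by
      intro w hw
      exact (hG'.contDiffAt (hopen.mem_nhds (hbt hw))).differentiableAt (by simp)
    have h1 := (convex_ball (φ x) ρ).norm_image_sub_le_of_norm_fderiv_le (𝕜 := ℝ) hd
      (fun w hw => hB3 w (ball_subset_closedBall hw)) hz' hz
    refine h1.trans ?_
    gcongr
  · intro f hf z hz hfz
    exact (hRI f hf z (hbt hz) (hRs (ball_subset_closedBall hfz))).1
  · intro f hf z hz hfz v w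
    exact (hRI f hf z (hbt hz) (hRs (ball_subset_closedBall hfz))).2 v w

end Pool.Agent.Helper92.FA
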