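import Pool.Agent.Helper92.FA.MDef

open Metric Set Filter Topology Bundle Manifold
open scoped ContDiff ENNReal NNReal

set_option maxSynthPendingDepth 3

namespace Pool.Agent.Helper92.FA

variable {E : Type} [NormedAddCommGroup E] [NormedSpace ℝ E]
  {N : Type} [MetricSpace N] [ChartedSpace E N] [IsManifold 𝓘(ℝ, E) ∞ N]
  [RiemannianBundle (fun x : N => TangentSpace 𝓘(ℝ, E) x)]
  [IsContMDiffRiemannianBundle 𝓘(ℝ, E) ∞ E (fun x : N => TangentSpace 𝓘(ℝ, E) x)]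

lemma mcoef_inner {V W : Type} [NormedAddCommGroup V] [InnerProductSpace ℝ V]
    [NormedAddCommGroup W] [InnerProductSpace ℝ W] (A : V →ₗ[ℝ] W) (h : ∀ v, ‖A v‖ = ‖v‖)
    (v w : V) : inner ℝ (A v) (A w) = inner ℝ v w := by
  rw [real_inner_eq_norm_add_mul_self_sub_norm_mul_self_sub_norm_mul_self_div_two,
    real_inner_eq_norm_add_mul_self_sub_norm_mul_self_sub_norm_mul_self_div_two, ← map_add,
    h, h, h]

lemma mcoef_G (x : N) : ∃ G0 : N → E →L[ℝ] E →L[ℝ] ℝ,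
    ContMDiffOn 𝓘(ℝ, E) 𝓘(ℝ, E →L[ℝ] E →L[ℝ] ℝ) ∞ G0 (extChartAt 𝓘(ℝ, E) x).source ∧
    ∀ p ∈ (extChartAt 𝓘(ℝ, E) x).source, ∀ v w : E, G0 p v w =
      inner ℝ ((trivializationAt E (TangentSpace 𝓘(ℝ, E)) x).symmL ℝ p v)
        ((trivializationAt E (TangentSpace 𝓘(ℝ, E)) x).symmL ℝ p w) := by
  obtain ⟨g, g_smooth, hg⟩ := IsContMDiffRiemannianBundle.exists_contMDiff (IB := 𝓘(ℝ, E))
    (n := ∞) (F := E) (E := fun x : N => TangentSpace 𝓘(ℝ, E) x)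
  have hsrc : (extChartAt 𝓘(ℝ, E) x).source = (chartAt E x).source := extChartAt_source _ x
  refine ⟨fun b => (trivializationAt (E →L[ℝ] E →L[ℝ] ℝ)
    (fun b : N => TangentSpace 𝓘(ℝ, E) b →L[ℝ] TangentSpace 𝓘(ℝ, E) b →L[ℝ] ℝ) x
      ⟨b, g b⟩).2, ?_, ?_⟩
  · have h1 := (Trivialization.contMDiffOn_section_iff (IB := 𝓘(ℝ, E)) (n := ∞)
      (s := fun b : N => g b) (a := (chartAt E x).source)
      (trivializationAt (E →L[ℝ] E →L[ℝ] ℝ)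
    (fun b : N => TangentSpace 𝓘(ℝ, E) b →L[ℝ] TangentSpace 𝓘(ℝ, E) b →L[ℝ] ℝ) x)
      (chartAt E x).open_source (by simp)).1 g_smooth.contMDiffOn
    rw [hsrc]
    exact h1
  · intro p hp v w
    rw [hg]
    rw [hsrc] at hp
    simp only [hom_trivializationAt_apply]
    rw [inCoordinates_apply_eq₂ (by simpa using hp) (by simpa using hp) (by simp)]
    have hb : p ∈ (trivializationAt E (TangentSpace 𝓘(ℝ, E)) x).baseSet := by simpa using hp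
    rw [Trivialization.symmL_apply _ hb, Trivialization.symmL_apply _ hb]
    simp

omit [RiemannianBundle (fun x : N => TangentSpace 𝓘(ℝ, E) x)]
  [IsContMDiffRiemannianBundle 𝓘(ℝ, E) ∞ E (fun x : N => TangentSpace 𝓘(ℝ, E) x)] in
lemma mcoef_symm_fderiv (x : N) {p : N} (hp : p ∈ (extChartAt 𝓘(ℝ, E) x).source)
    (u : TangentSpace 𝓘(ℝ, E) p) :
    (trivializationAt E (TangentSpace 𝓘(ℝ, E)) x).symmL ℝ p
      (mfderiv 𝓘(ℝ, E) 𝓘(ℝ, E) (extChartAt 𝓘(ℝ, E) x) p u) = u := by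
  rw [extChartAt_source] at hp
  have : IsManifold 𝓘(ℝ, E) 1 N := IsManifold.of_le (n := ∞) (by norm_cast)
  rw [← TangentBundle.continuousLinearMapAt_trivializationAt hp]
  exact Trivialization.symmL_continuousLinearMapAt _ (by simpa using hp) u

omit [RiemannianBundle (fun x : N => TangentSpace 𝓘(ℝ, E) x)]
  [IsContMDiffRiemannianBundle 𝓘(ℝ, E) ∞ E (fun x : N => TangentSpace 𝓘(ℝ, E) x)] in
lemma mcoef_psi (x : N) {z : E} (hz : z ∈ (extChartAt 𝓘(ℝ, E) x).target) (v : E) :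
    (trivializationAt E (TangentSpace 𝓘(ℝ, E)) x).symmL ℝ ((extChartAt 𝓘(ℝ, E) x).symm z) v
      = mfderiv 𝓘(ℝ, E) 𝓘(ℝ, E) (extChartAt 𝓘(ℝ, E) x).symm z v := by
  have : IsManifold 𝓘(ℝ, E) 1 N := IsManifold.of_le (n := ∞) (by norm_cast)
  have h1 := mfderiv_extChartAt_comp_mfderivWithin_extChartAt_symm (I := 𝓘(ℝ, E)) hz
  have h2 : range 𝓘(ℝ, E) = univ := by simp
  rw [h2, mfderivWithin_univ] at h1
  have h3 := mcoef_symm_fderiv x ((extChartAt 𝓘(ℝ, E) x).map_target hz)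
    (mfderiv 𝓘(ℝ, E) 𝓘(ℝ, E) (extChartAt 𝓘(ℝ, E) x).symm z v)
  rw [← h3]
  congr 1
  have h4 := DFunLike.congr_fun h1 v
  exact h4.symm

omit [RiemannianBundle (fun x : N => TangentSpace 𝓘(ℝ, E) x)]
  [IsContMDiffRiemannianBundle 𝓘(ℝ, E) ∞ E (fun x : N => TangentSpace 𝓘(ℝ, E) x)] in
lemma mcoef_smooth (x : N) {z : E} (hz : z ∈ (extChartAt 𝓘(ℝ, E) x).target) {f : N → N}
    (hf : ContMDiff 𝓘(ℝ, E) 𝓘(ℝ, E) ∞ f)
    (hs : f ((extChartAt 𝓘(ℝ, E) x).symm z) ∈ (extChartAt 𝓘(ℝ, E) x).source) :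
    ContMDiffAt 𝓘(ℝ, E) 𝓘(ℝ, E) ∞
        (fun z => extChartAt 𝓘(ℝ, E) x (f ((extChartAt 𝓘(ℝ, E) x).symm z))) z ∧
    ∀ v : E, (trivializationAt E (TangentSpace 𝓘(ℝ, E)) x).symmL ℝ
      (f ((extChartAt 𝓘(ℝ, E) x).symm z))
      (fderiv ℝ (fun z => extChartAt 𝓘(ℝ, E) x (f ((extChartAt 𝓘(ℝ, E) x).symm z))) z v) =
      mfderiv 𝓘(ℝ, E) 𝓘(ℝ, E) f ((extChartAt 𝓘(ℝ, E) x).symm z)
        ((trivializationAt E (TangentSpace 𝓘(ℝ, E)) x).symmL ℝ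
          ((extChartAt 𝓘(ℝ, E) x).symm z) v) := by
  have hψ : ContMDiffAt 𝓘(ℝ, E) 𝓘(ℝ, E) ∞ (extChartAt 𝓘(ℝ, E) x).symm z :=
    (contMDiffOn_extChartAt_symm x).contMDiffAt ((isOpen_extChartAt_target x).mem_nhds hz)
  have hφ : ContMDiffAt 𝓘(ℝ, E) 𝓘(ℝ, E) ∞ (extChartAt 𝓘(ℝ, E) x)
      (f ((extChartAt 𝓘(ℝ, E) x).symm z)) := by
    rw [extChartAt_source] at hs
    exact contMDiffAt_extChartAt' hs
  have hfp := hf.contMDiffAt (x := (extChartAt 𝓘(ℝ, E) x).symm z)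
  have hfψ : ContMDiffAt 𝓘(ℝ, E) 𝓘(ℝ, E) ∞ (f ∘ (extChartAt 𝓘(ℝ, E) x).symm) z :=
    ContMDiffAt.comp z hfp hψ
  refine ⟨ContMDiffAt.comp z hφ hfψ, fun v => ?_⟩
  rw [mcoef_psi x hz, ← mfderiv_eq_fderiv]
  have e1 := mfderiv_comp z (hφ.mdifferentiableAt (by simp)) (hfψ.mdifferentiableAt (by simp))
  have e2 := mfderiv_comp z (hfp.mdifferentiableAt (by simp)) (hψ.mdifferentiableAt (by simp))
  have e3 := DFunLike.congr_fun e1 v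
  have e4 := DFunLike.congr_fun e2 v
  have h3 := mcoef_symm_fderiv x hs (mfderiv 𝓘(ℝ, E) 𝓘(ℝ, E) f ((extChartAt 𝓘(ℝ, E) x).symm z)
    (mfderiv 𝓘(ℝ, E) 𝓘(ℝ, E) (extChartAt 𝓘(ℝ, E) x).symm z v))
  rw [← h3]
  congr 1
  exact e3.trans (congrArg (fun u => mfderiv 𝓘(ℝ, E) 𝓘(ℝ, E) (extChartAt 𝓘(ℝ, E) x)
    (f ((extChartAt 𝓘(ℝ, E) x).symm z)) u) e4)

/-- M2. The metric coefficients in a chart. -/
theorem exists_coef (x : N) : ∃ G : E → E →L[ℝ] E →L[ℝ] ℝ,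
    ContDiffOn ℝ ∞ G (extChartAt 𝓘(ℝ, E) x).target ∧
    (∀ z ∈ (extChartAt 𝓘(ℝ, E) x).target, ∀ v w, G z v w = G z w v) ∧
    (∀ z ∈ (extChartAt 𝓘(ℝ, E) x).target, ∀ v, v ≠ 0 → 0 < G z v v) ∧
    ∀ f ∈ RI E N, ∀ z ∈ (extChartAt 𝓘(ℝ, E) x).target,
      f ((extChartAt 𝓘(ℝ, E) x).symm z) ∈ (extChartAt 𝓘(ℝ, E) x).source →
      ContDiffAt ℝ 2 (fun z => extChartAt 𝓘(ℝ, E) x (f ((extChartAt 𝓘(ℝ, E) x).symm z))) z ∧
      ∀ v w, G (extChartAt 𝓘(ℝ, E) x (f ((extChartAt 𝓘(ℝ, E) x).symm z)))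
        (fderiv ℝ (fun z => extChartAt 𝓘(ℝ, E) x (f ((extChartAt 𝓘(ℝ, E) x).symm z))) z v)
        (fderiv ℝ (fun z => extChartAt 𝓘(ℝ, E) x (f ((extChartAt 𝓘(ℝ, E) x).symm z))) z w) =
          G z v w := by
  obtain ⟨G0, hG0, hG⟩ := mcoef_G (E := E) x
  have hmt : ∀ z ∈ (extChartAt 𝓘(ℝ, E) x).target,
      (extChartAt 𝓘(ℝ, E) x).symm z ∈ (extChartAt 𝓘(ℝ, E) x).source :=
    fun z hz => (extChartAt 𝓘(ℝ, E) x).map_target hz
  refine ⟨fun z => G0 ((extChartAt 𝓘(ℝ, E) x).symm z), ?_, ?_, ?_, ?_⟩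
  · rw [← contMDiffOn_iff_contDiffOn]
    exact hG0.comp (contMDiffOn_extChartAt_symm x) hmt
  · intro z hz v w
    rw [hG _ (hmt z hz), hG _ (hmt z hz)]
    exact real_inner_comm _ _
  · intro z hz v hv
    rw [hG _ (hmt z hz)]
    refine real_inner_self_pos.2 fun h0 => hv ?_
    have hb : (extChartAt 𝓘(ℝ, E) x).symm z ∈
        (trivializationAt E (TangentSpace 𝓘(ℝ, E)) x).baseSet := by
      have := hmt z hz
      rw [extChartAt_source] at this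
      simpa using this
    have h1 := Trivialization.continuousLinearMapAt_symmL (R := ℝ)
      (trivializationAt E (TangentSpace 𝓘(ℝ, E)) x) hb v
    rw [← h1, h0, map_zero]
  · intro f hf z hz hs
    obtain ⟨h1, h2⟩ := mcoef_smooth x hz hf.1 hs
    refine ⟨(contMDiffAt_iff_contDiffAt.1 h1).of_le (by norm_cast), fun v w => ?_⟩
    simp only [(extChartAt 𝓘(ℝ, E) x).left_inv hs]
    rw [hG _ hs, hG _ (hmt z hz), h2 v, h2 w]
    exact mcoef_inner (mfderiv 𝓘(ℝ, E) 𝓘(ℝ, E) f ((extChartAt 𝓘(ℝ, E) x).symm z)).toLinearMap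
      (hf.2 _) _ _

end Pool.Agent.Helper92.FA
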