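import Pool.Agent.Helper92.FA.Def

open Metric Set Filter Topology Bundle Manifold
open scoped ContDiff ENNReal NNReal

set_option maxSynthPendingDepth 3

namespace Pool.Agent.Helper92.FA

/-- Smooth maps whose derivative preserves the norm of tangent vectors. -/
def RI (E N : Type) [NormedAddCommGroup E] [NormedSpace ℝ E] [TopologicalSpace N] [ChartedSpace E N]
    [RiemannianBundle (fun x : N => TangentSpace 𝓘(ℝ, E) x)] : Set (N → N) :=
  {f | ContMDiff 𝓘(ℝ, E) 𝓘(ℝ, E) ∞ f ∧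
    ∀ (x : N) (v : TangentSpace 𝓘(ℝ, E) x), ‖mfderiv 𝓘(ℝ, E) 𝓘(ℝ, E) f x v‖ = ‖v‖}

end Pool.Agent.Helper92.FA
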