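import Pool.Agent.Helper92.FA.MDef

open Metric Set Filter Topology Bundle Manifold
open scoped ContDiff ENNReal NNReal

set_option maxSynthPendingDepth 3

namespace Pool.Agent.Helper92.FA

variable {E : Type} [NormedAddCommGroup E] [NormedSpace ℝ E]
  {N : Type} [MetricSpace N] [ChartedSpace E N] [IsManifold 𝓘(ℝ, E) ∞ N]
  [RiemannianBundle (fun x : N => TangentSpace 𝓘(ℝ, E) x)]
  [IsContMDiffRiemannianBundle 𝓘(ℝ, E) ∞ E (fun x : N => TangentSpace 𝓘(ℝ, E) x)]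

/-- M0. Riemannian isometries do not increase the Riemannian distance. -/
theorem ri_edist_le [IsRiemannianManifold 𝓘(ℝ, E) N] (f : N → N) (hf : f ∈ RI E N) (x y : N) :
    edist (f x) (f y) ≤ edist x y := by
  rw [IsRiemannianManifold.out (I := 𝓘(ℝ, E)) (f x) (f y),
    IsRiemannianManifold.out (I := 𝓘(ℝ, E)) x y]
  apply le_of_forall_gt
  intro r hr
  obtain ⟨γ, γ0, γ1, γs, hγ⟩ := exists_lt_of_riemannianEDist_lt hr
  have hfs : ContMDiff 𝓘(ℝ, E) 𝓘(ℝ, E) 1 f := hf.1.of_le (by simp)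
  have h1 : ContMDiffOn 𝓘(ℝ, ℝ) 𝓘(ℝ, E) 1 (f ∘ γ) (Icc 0 1) := hfs.comp_contMDiffOn γs
  have h2 := riemannianEDist_le_pathELength (x := f x) (y := f y) h1 (by simp [γ0])
    (by simp [γ1]) zero_le_one
  refine h2.trans_lt (lt_of_le_of_lt (le_of_eq ?_) hγ)
  rw [pathELength_eq_lintegral_mfderivWithin_Icc, pathELength_eq_lintegral_mfderivWithin_Icc]
  apply MeasureTheory.setLIntegral_congr_fun measurableSet_Icc
  intro t ht
  have h3 : mfderivWithin 𝓘(ℝ, ℝ) 𝓘(ℝ, E) (f ∘ γ) (Icc 0 1) t =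
      (mfderiv 𝓘(ℝ, E) 𝓘(ℝ, E) f (γ t)).comp
        (mfderivWithin 𝓘(ℝ, ℝ) 𝓘(ℝ, E) γ (Icc 0 1) t) := by
    apply mfderiv_comp_mfderivWithin
    · exact hfs.mdifferentiable one_ne_zero _
    · exact γs.mdifferentiableOn one_ne_zero t ht
    · rw [uniqueMDiffWithinAt_iff_uniqueDiffWithinAt]
      exact uniqueDiffOn_Icc zero_lt_one t ht
  simp only [h3]
  have h4 := hf.2 (γ t) (mfderivWithin 𝓘(ℝ, ℝ) 𝓘(ℝ, E) γ (Icc 0 1) t 1)
  rw [← ofReal_norm, ← ofReal_norm]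
  exact congrArg ENNReal.ofReal h4

end Pool.Agent.Helper92.FA
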