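import Pool.Agent.Helper92.FA.MDef

open Metric Set Filter Topology Bundle Manifold
open scoped ContDiff ENNReal NNReal

set_option maxSynthPendingDepth 3

namespace Pool.Agent.Helper92.FA

/-- M4. A connected Riemannian manifold has a metric space structure, compatible with its topology,
given by the Riemannian distance. -/
theorem exists_metric {E : Type} [NormedAddCommGroup E] [NormedSpace ℝ E] [FiniteDimensional ℝ E]
    {N : Type} [t : TopologicalSpace N] [T2Space N] [ConnectedSpace N]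
    [ChartedSpace E N] [IsManifold 𝓘(ℝ, E) ∞ N]
    [RiemannianBundle (fun x : N => TangentSpace 𝓘(ℝ, E) x)]
    [IsContMDiffRiemannianBundle 𝓘(ℝ, E) ∞ E (fun x : N => TangentSpace 𝓘(ℝ, E) x)] :
    ∃ d : MetricSpace N, d.toPseudoMetricSpace.toUniformSpace.toTopologicalSpace = t ∧
      ∀ x y : N, @edist N _ x y = riemannianEDist 𝓘(ℝ, E) x y := by
  have : ProperSpace E := FiniteDimensional.proper ℝ E
  have : LocallyCompactSpace N := ChartedSpace.locallyCompactSpace E N
  have : T3Space N := inferInstance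
  have : IsContinuousRiemannianBundle E (fun x : N => TangentSpace 𝓘(ℝ, E) x) := by
    obtain ⟨g, hg, hg'⟩ := IsContMDiffRiemannianBundle.exists_contMDiff (IB := 𝓘(ℝ, E)) (n := ∞)
      (F := E) (E := fun x : N => TangentSpace 𝓘(ℝ, E) x)
    exact ⟨g, hg.continuous, hg'⟩
  have hfin : ∀ x y : N, riemannianEDist 𝓘(ℝ, E) x y ≠ ⊤ := by
    intro x
    have hopen : IsOpen {y : N | riemannianEDist 𝓘(ℝ, E) x y ≠ ⊤} := by
      rw [isOpen_iff_mem_nhds]
      intro y hy
      filter_upwards [eventually_riemannianEDist_lt 𝓘(ℝ, E) y (c := 1) (by simp)] with z hz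
      have h1 : riemannianEDist 𝓘(ℝ, E) x z ≤
          riemannianEDist 𝓘(ℝ, E) x y + riemannianEDist 𝓘(ℝ, E) y z := riemannianEDist_triangle
      exact ne_top_of_le_ne_top (ENNReal.add_ne_top.2 ⟨hy, ne_top_of_lt hz⟩) h1
    have hclosed : IsClosed {y : N | riemannianEDist 𝓘(ℝ, E) x y ≠ ⊤} := by
      rw [← isOpen_compl_iff, isOpen_iff_mem_nhds]
      intro y hy
      filter_upwards [eventually_riemannianEDist_lt 𝓘(ℝ, E) y (c := 1) (by simp)] with z hz hz'
      apply hy
      have h1 : riemannianEDist 𝓘(ℝ, E) x y ≤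
          riemannianEDist 𝓘(ℝ, E) x z + riemannianEDist 𝓘(ℝ, E) z y := riemannianEDist_triangle
      have h2 : riemannianEDist 𝓘(ℝ, E) z y ≠ ⊤ := by
        rw [riemannianEDist_comm]
        exact ne_top_of_lt hz
      exact ne_top_of_le_ne_top (ENNReal.add_ne_top.2 ⟨hz', h2⟩) h1
    have huniv := IsClopen.eq_univ ⟨hclosed, hopen⟩ ⟨x, by simp [riemannianEDist_self]⟩
    intro y
    have : y ∈ {y : N | riemannianEDist 𝓘(ℝ, E) x y ≠ ⊤} := by
      rw [huniv]; trivial
    exact this
  let e : EMetricSpace N := EMetricSpace.ofRiemannianMetric 𝓘(ℝ, E) N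
  exact ⟨@EMetricSpace.toMetricSpace N e hfin, rfl, fun x y => rfl⟩

end Pool.Agent.Helper92.FA
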