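import Pool.Agent.Helper92.FA.Near
import Pool.Agent.Helper92.FA.UC

open Metric Set Filter Topology

set_option maxSynthPendingDepth 3

namespace Pool.Agent.Helper92.FA

variable {E : Type} [NormedAddCommGroup E] [NormedSpace ℝ E] [FiniteDimensional ℝ E]
  {N : Type} [MetricSpace N] {P : Set (N → N)}

/-- NSS. No small subgroups: combine NEAR and UC (for the constant sequence). -/
theorem nss_of_charts [ConnectedSpace N] {H : Type} [Group H] [MulAction H N]
    (hc : ∀ x : N, Nonempty (Chart E P x)) (ha : ActsBy H N P) : NSS N H := by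
  intro x
  obtain ⟨R, hR, hnear⟩ := near_of_charts hc ha x
  refine ⟨R, hR, fun ρ hρ hρR => ?_⟩
  obtain ⟨ε, hε, h⟩ := hnear ρ hρ hρR
  refine ⟨ε, hε, fun g hg => ?_⟩
  have hev : ∀ᶠ z in 𝓝 x, g • z = z := h g hg
  obtain ⟨ch⟩ := hc x
  have hx : ch.φ x ∈ ball (ch.φ x) ch.ρ := mem_ball_self ch.ρ_pos
  have hψx : ch.ψ (ch.φ x) = x := ch.left x (mem_closedBall_self ch.R_pos.le)
  have hψ : Tendsto ch.ψ (𝓝 (ch.φ x)) (𝓝 x) := by
    rw [tendsto_iff_dist_tendsto_zero]
    have h0 : Tendsto (fun z => ch.L * ‖z - ch.φ x‖) (𝓝 (ch.φ x)) (𝓝 0) := by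
      have h1 : Continuous fun z : E => ch.L * ‖z - ch.φ x‖ := by fun_prop
      have h2 := h1.tendsto (ch.φ x)
      simpa using h2
    refine squeeze_zero' (Eventually.of_forall fun z => dist_nonneg) ?_ h0
    filter_upwards [ball_mem_nhds (ch.φ x) ch.ρ_pos] with z hz
    have h3 := ch.lipψ z hz (ch.φ x) hx
    rwa [hψx] at h3
  have hW : ch.W (fun y : N => g • y) =ᶠ[𝓝 (ch.φ x)] id := by
    filter_upwards [ball_mem_nhds (ch.φ x) ch.ρ_pos, hψ.eventually hev] with z hz hz'
    show ch.φ (g • ch.ψ z) = z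
    rw [hz', ch.right z hz]
  have hD : fderiv ℝ (ch.W (fun y : N => g • y)) (ch.φ x) = ContinuousLinearMap.id ℝ E := by
    rw [hW.fderiv_eq, fderiv_id]
  have hlim := uc hc x ch (fun _ => fun y : N => g • y) (fun _ => ha.mem g) (fun _ => ha.iso g)
    (fun _ => hev.self_of_nhds) (by rw [hD]; exact tendsto_const_nhds)
  intro z
  exact tendsto_nhds_unique tendsto_const_nhds (hlim z)

end Pool.Agent.Helper92.FA
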