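import Pool.Agent.Helper92.FA.MDist
import Pool.Agent.Helper92.FA.MChart
import Pool.Agent.Helper92.FA.MMet
import Pool.Agent.Helper92.FA.Nss
import Pool.Agent.Helper92.FA.Contr
import Pool.Agent.Helper92.FA.DDc
import Pool.Agent.Helper92.FA.Final

open Metric Set Filter Topology Bundle Manifold
open scoped ContDiff ENNReal NNReal

set_option maxSynthPendingDepth 3

namespace Pool.Agent.Helper92.FA

variable {F : Type} [NormedAddCommGroup F] [InnerProductSpace ℝ F] [FiniteDimensional ℝ F]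
  {E : Type} [NormedAddCommGroup E] [NormedSpace ℝ E] [FiniteDimensional ℝ E]

/-- The theorem with a metric space structure on `N`. -/
theorem main_metric {N : Type} [MetricSpace N] [ConnectedSpace N]
    [ChartedSpace E N] [IsManifold 𝓘(ℝ, E) ∞ N]
    [RiemannianBundle (fun x : N => TangentSpace 𝓘(ℝ, E) x)]
    [IsContMDiffRiemannianBundle 𝓘(ℝ, E) ∞ E (fun x : N => TangentSpace 𝓘(ℝ, E) x)]
    [IsRiemannianManifold 𝓘(ℝ, E) N]
    {G : Type} [Group G] [MulAction G F] [MulAction G N] (r : G → ℝ) (hr : ∀ γ, 0 < r γ)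
    (hE : ∀ γ (a b : F), dist (γ • a) (γ • b) = r γ * dist a b)
    (hN : ∀ γ : G, ContMDiff 𝓘(ℝ, E) 𝓘(ℝ, E) ∞ (fun x : N => γ • x))
    (hN' : ∀ (γ : G) (x : N) (v : TangentSpace 𝓘(ℝ, E) x),
      ‖mfderiv 𝓘(ℝ, E) 𝓘(ℝ, E) (fun x : N => γ • x) x v‖ = r γ * ‖v‖)
    (free : ∀ (γ : G) (a : F) (x : N), γ • a = a → γ • x = x → γ = 1)
    (pd : ∀ K : Set (F × N), IsCompact K → {γ : G | ∃ p ∈ K, (γ • p.1, γ • p.2) ∈ K}.Finite)
    (hd : ∃ γ, r γ ≠ 1) (γ : G) (x : N) (hx : γ • x = x) : γ = 1 := by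
  have : LocallyCompactSpace N := ChartedSpace.locallyCompactSpace E N
  -- the case of a trivial Euclidean factor
  rcases subsingleton_or_nontrivial F with hF | hF
  · exact free γ 0 x (Subsingleton.elim _ _) hx
  -- the inverse of an element of ratio one has ratio one
  have hinv : ∀ γ : G, r γ = 1 → r γ⁻¹ = 1 := by
    intro γ h
    obtain ⟨a, b, hab⟩ := exists_pair_ne F
    have h1 := hE γ (γ⁻¹ • a) (γ⁻¹ • b)
    rw [smul_inv_smul, smul_inv_smul, hE γ⁻¹ a b, h, one_mul] at h1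
    have h2 : dist a b ≠ 0 := dist_ne_zero.2 hab
    have h3 : (r γ⁻¹ - 1) * dist a b = 0 := by linarith
    rcases mul_eq_zero.1 h3 with h4 | h4
    · linarith
    · exact absurd h4 h2
  have hri : ∀ γ : G, r γ = 1 → (fun x : N => γ • x) ∈ RI E N := by
    intro γ h
    refine ⟨hN γ, fun x v => ?_⟩
    rw [hN', h, one_mul]
  have hriso : ∀ γ : G, r γ = 1 → Isometry (fun x : N => γ • x) := by
    intro γ h x y
    apply le_antisymm
    · exact ri_edist_le _ (hri γ h) x y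
    · have := ri_edist_le _ (hri γ⁻¹ (hinv γ h)) (γ • x) (γ • y)
      simpa using this
  have hc : ∀ x : N, Nonempty (Chart E (RI E N) x) := exists_chart
  refine final (r := r) ⟨hr, hE, fun γ => (hN γ).continuous, hriso, free, pd⟩ hd ?_ γ x hx
  intro H hH
  have ha : ActsBy H N (RI E N) :=
    ⟨fun h => hriso (h : G) (hH h h.2), fun h => hri (h : G) (hH h h.2)⟩
  exact ⟨nss_of_charts hc ha, contr_of_charts hc ha, dd_of_charts hc ha⟩

/-- MAIN. -/
theorem main {N : Type} [t : TopologicalSpace N] [T2Space N] [ConnectedSpace N]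
    [ChartedSpace E N] [IsManifold 𝓘(ℝ, E) ∞ N]
    [RiemannianBundle (fun x : N => TangentSpace 𝓘(ℝ, E) x)]
    [IsContMDiffRiemannianBundle 𝓘(ℝ, E) ∞ E (fun x : N => TangentSpace 𝓘(ℝ, E) x)]
    {G : Type} [Group G] [MulAction G F] [MulAction G N] (r : G → ℝ) (hr : ∀ γ, 0 < r γ)
    (hE : ∀ γ (a b : F), dist (γ • a) (γ • b) = r γ * dist a b)
    (hN : ∀ γ : G, ContMDiff 𝓘(ℝ, E) 𝓘(ℝ, E) ∞ (fun x : N => γ • x))
    (hN' : ∀ (γ : G) (x : N) (v : TangentSpace 𝓘(ℝ, E) x),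
      ‖mfderiv 𝓘(ℝ, E) 𝓘(ℝ, E) (fun x : N => γ • x) x v‖ = r γ * ‖v‖)
    (free : ∀ (γ : G) (a : F) (x : N), γ • a = a → γ • x = x → γ = 1)
    (pd : ∀ K : Set (F × N), IsCompact K → {γ : G | ∃ p ∈ K, (γ • p.1, γ • p.2) ∈ K}.Finite)
    (hd : ∃ γ, r γ ≠ 1) (γ : G) (x : N) (hx : γ • x = x) : γ = 1 := by
  obtain ⟨d, hdt, hde⟩ := exists_metric (E := E) (N := N)
  subst hdt
  have : IsRiemannianManifold 𝓘(ℝ, E) N := ⟨hde⟩
  exact main_metric (E := E) r hr hE hN hN' free pd hd γ x hx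

end Pool.Agent.Helper92.FA
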