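import Pool.Agent.Helper92.FA.Loc

open Metric Set Filter Topology

set_option maxSynthPendingDepth 3

namespace Pool.Agent.Helper92.FA

variable {E : Type} [NormedAddCommGroup E] [NormedSpace ℝ E] [FiniteDimensional ℝ E]
  {N : Type} [MetricSpace N] {P : Set (N → N)}

omit [FiniteDimensional ℝ E] in
/-- If `w` is differentiable on a ball and its derivative is within `K` of the identity, then
`w - id` is `K`-Lipschitz there. -/
theorem near_lip {w : E → E} {p : E} {r K : ℝ}
    (hd : ∀ z ∈ ball p r, DifferentiableAt ℝ w z)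
    (hb : ∀ z ∈ ball p r, ‖fderiv ℝ w z - ContinuousLinearMap.id ℝ E‖ ≤ K)
    {y z : E} (hy : y ∈ ball p r) (hz : z ∈ ball p r) :
    ‖(w y - y) - (w z - z)‖ ≤ K * ‖y - z‖ := by
  have h := (convex_ball p r).norm_image_sub_le_of_norm_hasFDerivWithin_le
    (f := fun u => w u - u) (f' := fun u => fderiv ℝ w u - ContinuousLinearMap.id ℝ E)
    (C := K) (fun u hu => ((hd u hu).hasFDerivAt.sub (hasFDerivAt_id u)).hasFDerivWithinAt)
    hb hz hy
  exact h

/-- If `a n ≤ b` for all `n` where `a n = n * d / 2` then `d ≤ 0`. -/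
theorem near_arch {d b : ℝ} (h : ∀ n : ℕ, (n : ℝ) * d / 2 ≤ b) : d ≤ 0 := by
  by_contra hd
  push Not at hd
  obtain ⟨n, hn⟩ := exists_nat_gt (2 * b / d)
  have h1 := h n
  rw [div_lt_iff₀ hd] at hn
  linarith

/-- NEAR. If all powers of `c` are small near `x` then `c` is the identity near `x`. -/
theorem near_of_charts {H : Type} [Group H] [MulAction H N] (hc : ∀ x : N, Nonempty (Chart E P x))
    (ha : ActsBy H N P) (x : N) : ∃ R > 0, ∀ ρ, 0 < ρ → ρ ≤ R → ∃ ε > 0, ∀ c : H,
    (∀ i : ℕ, ∀ z ∈ closedBall x ρ, dist (c ^ i • z) z ≤ ε) → ∀ᶠ z in 𝓝 x, c • z = z := by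
  obtain ⟨k⟩ := hc x
  obtain ⟨r2, hr2, hr2ρ, hψ, hsm⟩ := k.small
  refine ⟨k.R, k.R_pos, fun ρ hρ _ => ?_⟩
  obtain ⟨C, hC1, hC⟩ := hsm ρ hρ
  have hC0 : 0 < C := by linarith
  have hR := k.R_pos
  refine ⟨min (k.R / 4) (min (1 / (2 * C)) (r2 / (4 * C))), by positivity, fun c hsmall => ?_⟩
  set ε := min (k.R / 4) (min (1 / (2 * C)) (r2 / (4 * C))) with hε
  have hε1 : ε ≤ k.R / 4 := min_le_left _ _
  have hε2 : C * ε ≤ 1 / 2 := by
    have : ε ≤ 1 / (2 * C) := le_trans (min_le_right _ _) (min_le_left _ _)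
    calc C * ε ≤ C * (1 / (2 * C)) := by gcongr
      _ = 1 / 2 := by field_simp
  have hε3 : C * ε ≤ r2 / 4 := by
    have : ε ≤ r2 / (4 * C) := le_trans (min_le_right _ _) (min_le_right _ _)
    calc C * ε ≤ C * (r2 / (4 * C)) := by gcongr
      _ = r2 / 4 := by field_simp
  -- the powers in the chart
  have hs : ∀ i : ℕ, ∀ z ∈ ball (k.φ x) r2,
      (c ^ i • k.ψ z) ∈ ball x k.R ∧ DifferentiableAt ℝ (k.W fun y => c ^ i • y) z ∧
        ‖k.W (fun y => c ^ i • y) z - z‖ ≤ C * ε ∧
          ‖fderiv ℝ (k.W fun y => c ^ i • y) z - ContinuousLinearMap.id ℝ E‖ ≤ C * ε := by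
    intro i
    have hx : x ∈ closedBall x ρ := mem_closedBall_self hρ.le
    have h1 : dist (c ^ i • x) x < k.R / 2 := by
      have := hsmall i x hx
      linarith
    exact hC (fun y => c ^ i • y) (ha.mem (c ^ i)) (ha.iso (c ^ i)) h1 ε (hsmall i)
  have key : ∀ z ∈ ball (k.φ x) (r2 / 2), k.W (fun y => c ^ 1 • y) z = z := by
    intro z hz
    have hz2 : z ∈ ball (k.φ x) r2 := ball_subset_ball (by linarith) hz
    obtain ⟨h1, -, h3, -⟩ := hs 1 z hz2
    set y := k.W (fun y => c ^ 1 • y) z with hy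
    have hy2 : y ∈ ball (k.φ x) r2 := by
      rw [mem_ball] at hz ⊢
      calc dist y (k.φ x) ≤ dist y z + dist z (k.φ x) := dist_triangle _ _ _
        _ < r2 / 4 + r2 / 2 := by
          rw [dist_eq_norm]
          have := h3.trans hε3
          linarith
        _ < r2 := by linarith
    have hstep : ∀ i : ℕ, k.W (fun y => c ^ i • y) y = k.W (fun y => c ^ (i + 1) • y) z := by
      intro i
      have e1 : k.ψ y = c ^ 1 • k.ψ z := by
        rw [hy]
        exact k.left _ (ball_subset_closedBall h1)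
      change k.φ (c ^ i • k.ψ y) = k.φ (c ^ (i + 1) • k.ψ z)
      rw [e1, smul_smul, ← pow_add]
    have h0 : k.W (fun y => c ^ 0 • y) z = z := by
      change k.φ (c ^ 0 • k.ψ z) = z
      rw [pow_zero, one_smul]
      exact k.right z (ball_subset_ball hr2ρ hz2)
    have htel : ∀ n : ℕ, ∑ i ∈ Finset.range n,
        (k.W (fun y => c ^ i • y) y - k.W (fun y => c ^ i • y) z) =
          k.W (fun y => c ^ n • y) z - z := by
      intro n
      have e : ∀ i ∈ Finset.range n,
          (k.W (fun y => c ^ i • y) y - k.W (fun y => c ^ i • y) z) =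
          (k.W (fun y => c ^ (i + 1) • y) z - k.W (fun y => c ^ i • y) z) := by
        intro i _
        rw [hstep i]
      rw [Finset.sum_congr rfl e,
        Finset.sum_range_sub (fun i => k.W (fun y => c ^ i • y) z) n, h0]
    have hlip : ∀ i : ℕ, ‖(k.W (fun y => c ^ i • y) y - y) - (k.W (fun y => c ^ i • y) z - z)‖ ≤
        1 / 2 * ‖y - z‖ := by
      intro i
      have := near_lip (w := k.W (fun y => c ^ i • y)) (p := k.φ x) (r := r2) (K := C * ε)
        (fun u hu => (hs i u hu).2.1) (fun u hu => (hs i u hu).2.2.2) hy2 hz2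
      refine this.trans ?_
      gcongr
    have hn : ∀ n : ℕ, (n : ℝ) * ‖y - z‖ / 2 ≤ C * ε := by
      intro n
      have e1 : (n : ℝ) • (y - z) = (k.W (fun y => c ^ n • y) z - z) -
          ∑ i ∈ Finset.range n,
            ((k.W (fun y => c ^ i • y) y - y) - (k.W (fun y => c ^ i • y) z - z)) := by
        rw [← htel n, ← Finset.sum_sub_distrib]
        have e2 : ∀ i ∈ Finset.range n,
            ((k.W (fun y => c ^ i • y) y - k.W (fun y => c ^ i • y) z) -
              ((k.W (fun y => c ^ i • y) y - y) - (k.W (fun y => c ^ i • y) z - z))) =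
              y - z := by
          intro i _
          abel
        rw [Finset.sum_congr rfl e2, Finset.sum_const, Finset.card_range, Nat.cast_smul_eq_nsmul]
      have e3 : (n : ℝ) * ‖y - z‖ ≤ C * ε + (n : ℝ) * (1 / 2 * ‖y - z‖) := by
        calc (n : ℝ) * ‖y - z‖ = ‖(n : ℝ) • (y - z)‖ := by
              rw [norm_smul, Real.norm_natCast]
          _ ≤ ‖k.W (fun y => c ^ n • y) z - z‖ + ‖∑ i ∈ Finset.range n,
            ((k.W (fun y => c ^ i • y) y - y) - (k.W (fun y => c ^ i • y) z - z))‖ := by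
              rw [e1]; exact norm_sub_le _ _
          _ ≤ C * ε + ∑ i ∈ Finset.range n,
            ‖((k.W (fun y => c ^ i • y) y - y) - (k.W (fun y => c ^ i • y) z - z))‖ := by
              gcongr
              · exact (hs n z hz2).2.2.1
              · exact norm_sum_le _ _
          _ ≤ C * ε + ∑ _i ∈ Finset.range n, 1 / 2 * ‖y - z‖ := by
              gcongr with i _
              exact hlip i
          _ = C * ε + (n : ℝ) * (1 / 2 * ‖y - z‖) := by
              rw [Finset.sum_const, Finset.card_range, nsmul_eq_mul]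
      linarith
    have := near_arch hn
    exact sub_eq_zero.mp (norm_le_zero_iff.mp this)
  -- back to `N`
  have hL := k.L_pos
  have hnear : ∀ᶠ z in 𝓝 x, dist z x < min k.R (r2 / (2 * k.L)) :=
    ball_mem_nhds x (by positivity)
  filter_upwards [hnear] with z hz
  have hz1 : z ∈ closedBall x k.R := (hz.trans_le (min_le_left _ _)).le
  have hz2 : k.φ z ∈ ball (k.φ x) (r2 / 2) := by
    rw [mem_ball, dist_eq_norm]
    calc ‖k.φ z - k.φ x‖ ≤ k.L * dist z x :=
          k.lipφ z hz1 x (mem_closedBall_self hR.le)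
      _ < k.L * (r2 / (2 * k.L)) := by
          gcongr
          exact hz.trans_le (min_le_right _ _)
      _ = r2 / 2 := by field_simp
  have hz3 : k.φ z ∈ ball (k.φ x) r2 := ball_subset_ball (by linarith) hz2
  have h1 := key _ hz2
  have h2 := (hs 1 _ hz3).1
  rw [k.left z hz1, pow_one] at h2
  have h3 : k.φ (c • z) = k.φ z := by
    have : k.W (fun y => c ^ 1 • y) (k.φ z) = k.φ (c ^ 1 • k.ψ (k.φ z)) := rfl
    rw [this, k.left z hz1, pow_one] at h1
    exact h1
  calc c • z = k.ψ (k.φ (c • z)) := (k.left _ (ball_subset_closedBall h2)).symm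
    _ = k.ψ (k.φ z) := by rw [h3]
    _ = z := k.left z hz1

end Pool.Agent.Helper92.FA
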