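import Pool.Agent.Helper92.FA.Def

open Metric Set Filter Topology Pointwise

namespace Pool.Agent.Helper92.FA

variable {N H : Type} [MetricSpace N] [Group H] [MulAction H N]

theorem rc_nbhd [LocallyCompactSpace N] (iso : ∀ h : H, Isometry fun x : N => h • x) (S : Set H)
    (z : N) (K : Set N) (hK : IsCompact K) (h : ∀ s ∈ S, s • z ∈ K) :
    ∃ δ > 0, ∃ K' : Set N, IsCompact K' ∧ ∀ s ∈ S, ∀ z' ∈ ball z δ, s • z' ∈ K' := by
  obtain ⟨δ, δpos, hδ⟩ := hK.exists_isCompact_cthickening
  refine ⟨δ, δpos, cthickening δ K, hδ, fun s hs z' hz' => ?_⟩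
  have hd : dist (s • z') (s • z) ≤ δ := by
    have h1 : dist (s • z') (s • z) = dist z' z := (iso s).dist_eq z' z
    rw [h1]
    exact (mem_ball.1 hz').le
  exact mem_cthickening_of_dist_le _ _ _ _ (h s hs) hd

/-- RC1. If one orbit is relatively compact, all orbits are. -/
theorem rc_of_point [ConnectedSpace N] [LocallyCompactSpace N]
    (iso : ∀ h : H, Isometry fun x : N => h • x) (S : Set H) (z₀ : N) (K : Set N)
    (hK : IsCompact K) (h : ∀ s ∈ S, s • z₀ ∈ K) : RC N S := by
  classical
  set O : Set N := {z | ∃ K : Set N, IsCompact K ∧ ∀ s ∈ S, s • z ∈ K} with hO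
  have hopen : IsOpen O := by
    rw [Metric.isOpen_iff]
    rintro z ⟨K, hK, h⟩
    obtain ⟨δ, δpos, K', hK', h'⟩ := rc_nbhd iso S z K hK h
    exact ⟨δ, δpos, fun z' hz' => ⟨K', hK', fun s hs => h' s hs z' hz'⟩⟩
  have hclosed : IsClosed O := by
    rw [← closure_subset_iff_isClosed]
    intro z hz
    obtain ⟨r, rpos, hr⟩ := Metric.exists_isCompact_closedBall z
    obtain ⟨z', ⟨K', hK', h'⟩, hzz⟩ := Metric.mem_closure_iff.1 hz (r / 4) (by positivity)
    have hcl : IsCompact (closure ((fun s : H => s • z') '' S)) := by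
      refine hK'.closure_of_subset ?_
      rintro _ ⟨s, hs, rfl⟩
      exact h' s hs
    obtain ⟨t, htS, htf, ht⟩ :=
      exists_finite_cover_balls_of_isCompact_closure hcl (ε := r / 4) (by positivity)
    have hch : ∀ x ∈ t, ∃ g : H, g • z' = x := by
      intro x hx
      obtain ⟨g, _, hg⟩ := htS hx
      exact ⟨g, hg⟩
    choose! g hg using hch
    refine ⟨⋃ x ∈ t, (fun y : N => g x • y) '' closedBall z r,
      htf.isCompact_biUnion fun x _ => hr.image (iso (g x)).continuous, fun s hs => ?_⟩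
    have hmem : s • z' ∈ ⋃ x ∈ t, ball x (r / 4) := ht ⟨s, hs, rfl⟩
    simp only [mem_iUnion, exists_prop] at hmem ⊢
    obtain ⟨x, hx, hxb⟩ := hmem
    refine ⟨x, hx, (g x)⁻¹ • s • z, ?_, ?_⟩
    · have h1 : dist (s • z) (s • z') = dist z z' := (iso s).dist_eq z z'
      have h2 : dist ((g x)⁻¹ • s • z) z' = dist (s • z) (g x • z') := by
        have := (iso (g x)).dist_eq ((g x)⁻¹ • s • z) z'
        simp only [smul_inv_smul] at this
        exact this.symm
      rw [hg x hx] at h2
      rw [mem_closedBall]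
      rw [mem_ball] at hxb
      have h3 := dist_triangle ((g x)⁻¹ • s • z) z' z
      have h4 := dist_triangle (s • z) (s • z') x
      rw [dist_comm z' z] at h3
      linarith
    · simp
  have huniv : O = univ := IsClopen.eq_univ ⟨hclosed, hopen⟩ ⟨z₀, K, hK, h⟩
  intro z
  have : z ∈ O := by rw [huniv]; trivial
  exact this

/-- RC2. Compact sets are moved inside compact sets. -/
theorem rc_compact [LocallyCompactSpace N] (iso : ∀ h : H, Isometry fun x : N => h • x)
    (S : Set H) (hS : RC N S) (D : Set N) (hD : IsCompact D) :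
    ∃ K : Set N, IsCompact K ∧ ∀ h ∈ S, ∀ z ∈ D, h • z ∈ K := by
  have key : ∀ z : N, ∃ δ > 0, ∃ K' : Set N, IsCompact K' ∧
      ∀ s ∈ S, ∀ z' ∈ ball z δ, s • z' ∈ K' := by
    intro z
    obtain ⟨K, hK, h⟩ := hS z
    exact rc_nbhd iso S z K hK h
  choose δ δpos K' hK' h' using key
  obtain ⟨t, _, ht⟩ := hD.elim_nhds_subcover (fun z => ball z (δ z))
    (fun z _ => ball_mem_nhds z (δpos z))
  refine ⟨⋃ x ∈ t, K' x, t.finite_toSet.isCompact_biUnion fun x _ => hK' x, fun s hs z hz => ?_⟩
  have hmem := ht hz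
  simp only [mem_iUnion, exists_prop] at hmem ⊢
  obtain ⟨x, hx, hxb⟩ := hmem
  exact ⟨x, hx, h' x s hs z hxb⟩

/-- RC3. Products. -/
theorem rc_mul [LocallyCompactSpace N] (iso : ∀ h : H, Isometry fun x : N => h • x)
    (S T : Set H) (hS : RC N S) (hT : RC N T) : RC N (S * T) := by
  intro z
  obtain ⟨K1, hK1, h1⟩ := hT z
  obtain ⟨K, hK, h⟩ := rc_compact iso S hS K1 hK1
  refine ⟨K, hK, ?_⟩
  rintro _ ⟨s, hs, t, ht, rfl⟩
  simp only [mul_smul]
  exact h s hs _ (h1 t ht)

theorem rc_commute (u : ℕ → H) (comm : ∀ i j, Commute (u i) (u j)) (s : ℕ) (b : H)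
    (hb : b ∈ Subgroup.zpowers (u s)) (c : H) (hc : c ∈ Subgroup.closure (u '' {i | i < s})) :
    b * c = c * b := by
  have h1 : Commute (u s) c := by
    induction hc using Subgroup.closure_induction with
    | mem x hx =>
      obtain ⟨i, _, rfl⟩ := hx
      exact comm s i
    | one => exact Commute.one_right _
    | mul x y _ _ hx hy => exact hx.mul_right hy
    | inv x _ hx => exact hx.inv_right
  obtain ⟨k, rfl⟩ := Subgroup.mem_zpowers_iff.1 hb
  exact (h1.zpow_left k).eq

/-- RC4. The group generated by finitely many commuting elements `u 0, …, u (s-1)`, each of which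
generates a group with relatively compact orbits, has relatively compact orbits. -/
theorem rc_closure [LocallyCompactSpace N] (iso : ∀ h : H, Isometry fun x : N => h • x)
    (u : ℕ → H) (comm : ∀ i j, Commute (u i) (u j))
    (hu : ∀ i, RC N (Subgroup.zpowers (u i) : Set H)) (s : ℕ) :
    RC N (Subgroup.closure (u '' {i | i < s}) : Set H) := by
  induction s with
  | zero =>
    intro z
    refine ⟨{z}, isCompact_singleton, fun h hh => ?_⟩
    have h0 : u '' {i | i < 0} = ∅ := by
      simp
    rw [h0, Subgroup.closure_empty] at hh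
    have : h = 1 := by simpa using hh
    simp [this]
  | succ s ih =>
    have hmul := rc_mul iso _ _ ih (hu s)
    intro z
    obtain ⟨K, hK, h⟩ := hmul z
    refine ⟨K, hK, fun g hg => h g ?_⟩
    have hg' : g ∈ Subgroup.closure (u '' {i | i < s + 1}) := hg
    clear hg
    induction hg' using Subgroup.closure_induction with
    | mem x hx =>
      obtain ⟨i, hi, rfl⟩ := hx
      have hi' : i < s + 1 := hi
      rcases Nat.lt_succ_iff_lt_or_eq.1 hi' with h1 | h1
      · exact ⟨u i, Subgroup.subset_closure ⟨i, h1, rfl⟩, 1, Subgroup.one_mem _, by simp⟩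
      · subst h1
        exact ⟨1, Subgroup.one_mem _, u i, Subgroup.mem_zpowers _, by simp⟩
    | one => exact ⟨1, Subgroup.one_mem _, 1, Subgroup.one_mem _, by simp⟩
    | mul x y _ _ hx hy =>
      obtain ⟨a, ha, b, hb, rfl⟩ := hx
      obtain ⟨c, hc, d, hd, rfl⟩ := hy
      refine ⟨a * c, Subgroup.mul_mem _ ha hc, b * d, Subgroup.mul_mem _ hb hd, ?_⟩
      have hbc := rc_commute u comm s b hb c hc
      simp only
      calc a * c * (b * d) = a * (c * b) * d := by group
        _ = a * (b * c) * d := by rw [hbc]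
        _ = a * b * (c * d) := by group
    | inv x _ hx =>
      obtain ⟨a, ha, b, hb, rfl⟩ := hx
      refine ⟨a⁻¹, Subgroup.inv_mem _ ha, b⁻¹, Subgroup.inv_mem _ hb, ?_⟩
      have hba := rc_commute u comm s b hb a ha
      simp only
      rw [← mul_inv_rev, hba]

end Pool.Agent.Helper92.FA
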